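import Mathlib

/-!
# PR (MP_3addf4_an), shared definitions (disc, pairs of inverse maps, rotation number, class N)
Paper: /team-store/h25_pr_paper.md
-/

open Complex Set Metric Topology Filter

namespace Pool.Agent.H25.PR

/-- the closed unit disc -/
abbrev Dsk : Set ℂ := Metric.closedBall (0 : ℂ) 1

/-- `e t = exp (2 π i t)` -/
noncomputable def e (t : ℝ) : ℂ := cexp (2 * Real.pi * t * I)

/-- `f`, `f'` restrict to mutually inverse bijections of the closed disc of class `C^n` -/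
structure DPair (n : ℕ∞) (f f' : ℂ → ℂ) : Prop where
  maps : MapsTo f Dsk Dsk
  maps' : MapsTo f' Dsk Dsk
  left : ∀ z ∈ Dsk, f' (f z) = z
  right : ∀ z ∈ Dsk, f (f' z) = z
  smooth : ContDiffOn ℝ n f Dsk
  smooth' : ContDiffOn ℝ n f' Dsk

/-- `DPair` with Jacobian determinant `1`: orientation and area preserving -/
structure APair (n : ℕ∞) (f f' : ℂ → ℂ) : Prop extends DPair n f f' where
  area : ∀ z ∈ Dsk, (fderivWithin ℝ f Dsk z).det = 1

/-- `α` is a rotation number of the boundary map: the boundary map has a continuous monotone lift of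
degree one with translation number `α` -/
def HasRot (f : ℂ → ℂ) (α : ℝ) : Prop :=
  ∃ G : CircleDeg1Lift, Continuous G ∧ (∀ x : ℝ, f (e x) = e (G x)) ∧
    CircleDeg1Lift.translationNumber G = α

/-- `C^∞` pseudo-rotation of the disc with inverse `f'` -/
structure PsRot (f f' : ℂ → ℂ) : Prop where
  pair : APair ⊤ f f'
  zero : f 0 = 0
  noper : ∀ n : ℕ, 1 ≤ n → ∀ z ∈ Dsk, f^[n] z = z → z = 0

/-- the normalised class: pseudo-rotation with rotation number `α` and `Df(0) = R_α` -/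
structure ClN (f f' : ℂ → ℂ) (α : ℝ) : Prop extends PsRot f f' where
  rot : HasRot f α
  der : ∀ v : ℂ, fderivWithin ℝ f Dsk 0 v = e α * v

/-- `f` and `g` are `ε`-close in `C^s` on the disc -/
def CNear (s : ℕ) (ε : ℝ) (f g : ℂ → ℂ) : Prop :=
  ∀ i : ℕ, i ≤ s → ∀ z ∈ Dsk, ‖iteratedFDerivWithin ℝ i (fun w => f w - g w) Dsk z‖ < ε

/-- all derivatives of order at most `m` are bounded by `M` on the disc -/
def CBd (m : ℕ) (M : ℝ) (f : ℂ → ℂ) : Prop :=
  ∀ i : ℕ, i ≤ m → ∀ z ∈ Dsk, ‖iteratedFDerivWithin ℝ i f Dsk z‖ ≤ M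

/-- convergence in `C^s` on the disc -/
def CTo (s : ℕ) (fn : ℕ → ℂ → ℂ) (g : ℂ → ℂ) : Prop :=
  ∀ ε : ℝ, 0 < ε → ∀ᶠ n in atTop, CNear s ε (fn n) g

end Pool.Agent.H25.PR
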