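import Pool.Agent.H25.PR.DefsA

/-!
# PR module A1: continuous arguments

`exists_arg_*`: `Complex.exp` is a covering of `{z ≠ 0}`, so a continuous nonvanishing function on a
simply connected, locally path connected space lifts to `g` with `exp g = f`; take `θ = im g`.
`isArg_sub`: `θ - θ'` is continuous with values in `2 π ℤ`, so constant on a preconnected set.
-/

open Complex Set Metric Topology Filter

namespace Pool.Agent.H25.PR

private theorem exists_arg_gen {A : Type*} [TopologicalSpace A] [SimplyConnectedSpace A]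
    [LocallyPathConnectedSpace A] (a : A) (f : A → ℂ) (hf : Continuous f) (h0 : ∀ p, f p ≠ 0) :
    ∃ θ : A → ℝ, IsArg f θ := by
  obtain ⟨F, ⟨-, hF⟩, -⟩ := IsCoveringMapOn.existsUnique_continuousMap_lifts isCoveringMapOn_exp
    (⟨f, hf⟩ : C(A, ℂ)) (a₀ := a) (e₀ := Complex.log (f a)) (Complex.exp_log (h0 a))
    (fun x => h0 x)
  refine ⟨fun x => (F x).im, Complex.continuous_im.comp F.continuous, fun x => ?_⟩
  have h1 : cexp (F x) = f x := congrFun hF x
  have h2 : F x = ((F x).re : ℂ) + ((F x).im : ℂ) * I := (Complex.re_add_im (F x)).symm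
  have h3 : ‖f x‖ = Real.exp (F x).re := by
    rw [← h1, Complex.norm_exp]
  rw [h3]
  conv_lhs => rw [← h1, h2]
  rw [Complex.exp_add, Complex.ofReal_exp]

theorem exists_arg_plane (f : ℝ × ℝ → ℂ) (hf : Continuous f) (h0 : ∀ p, f p ≠ 0) :
    ∃ θ : ℝ × ℝ → ℝ, IsArg f θ :=
  exists_arg_gen 0 f hf h0

theorem exists_arg_C (f : ℂ → ℂ) (hf : Continuous f) (h0 : ∀ p, f p ≠ 0) :
    ∃ θ : ℂ → ℝ, IsArg f θ :=
  exists_arg_gen 0 f hf h0

theorem exists_arg_R (f : ℝ → ℂ) (hf : Continuous f) (h0 : ∀ p, f p ≠ 0) :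
    ∃ θ : ℝ → ℝ, IsArg f θ :=
  exists_arg_gen 0 f hf h0

/-- two arguments on a preconnected set of points where the functions agree differ by a constant
multiple of `2 π` -/
theorem isArg_sub {X : Type*} [TopologicalSpace X] {f f' : X → ℂ} {θ θ' : X → ℝ}
    (h : IsArg f θ) (h' : IsArg f' θ') {s : Set X} (hs : IsPreconnected s)
    (he : ∀ x ∈ s, f x = f' x) (h0 : ∀ x ∈ s, f x ≠ 0) :
    ∃ k : ℤ, ∀ x ∈ s, θ x = θ' x + 2 * Real.pi * k := by
  have h1 : ∀ x ∈ s, θ x - θ' x ∈ ((AddSubgroup.zmultiples (2 * Real.pi : ℝ) :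
      AddSubgroup ℝ) : Set ℝ) := by
    intro x hx
    have h2 := h.2 x
    have h3 := h'.2 x
    rw [← he x hx] at h3
    have h4 : ((‖f x‖ : ℝ) : ℂ) ≠ 0 := by
      rw [Complex.ofReal_ne_zero]
      exact norm_ne_zero_iff.2 (h0 x hx)
    have h5 : cexp (θ x * I) = cexp (θ' x * I) :=
      mul_left_cancel₀ h4 (h2.symm.trans h3)
    obtain ⟨n, hn⟩ := Complex.exp_eq_exp_iff_exists_int.1 h5
    have h6 : (θ x : ℂ) = θ' x + n * (2 * Real.pi) := by
      have h7 : (θ x : ℂ) * I = (θ' x + n * (2 * Real.pi)) * I := by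
        rw [hn]
        ring
      exact mul_right_cancel₀ Complex.I_ne_zero h7
    have h8 : θ x = θ' x + n * (2 * Real.pi) := by exact_mod_cast h6
    rw [SetLike.mem_coe, AddSubgroup.mem_zmultiples_iff]
    exact ⟨n, by rw [h8, zsmul_eq_mul]; ring⟩
  have : DiscreteTopology ((AddSubgroup.zmultiples (2 * Real.pi : ℝ) : AddSubgroup ℝ) : Set ℝ) :=
    NormedSpace.discreteTopology_zmultiples _
  obtain ⟨y, hy, hy1⟩ := hs.eqOn_const_of_mapsTo (f := fun x => θ x - θ' x)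
    (T := ((AddSubgroup.zmultiples (2 * Real.pi : ℝ) : AddSubgroup ℝ) : Set ℝ))
    ⟨inferInstance⟩ (h.1.sub h'.1).continuousOn h1 ⟨0, AddSubgroup.zero_mem _⟩
  rw [SetLike.mem_coe, AddSubgroup.mem_zmultiples_iff] at hy
  obtain ⟨k, rfl⟩ := hy
  refine ⟨k, fun x hx => ?_⟩
  have h2 : θ x - θ' x = k • (2 * Real.pi) := hy1 hx
  rw [zsmul_eq_mul] at h2
  linarith

end Pool.Agent.H25.PR
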