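import Pool.Agent.H25.PR.A1

/-!
# PR module A1b: calculus of `darg` (150 lines)

All from `exists_arg_*` and `isArg_sub`. `darg_eq`: the chosen argument and `θ` differ by a constant
(`isArg_sub` on `univ`). `darg_congr`: `isArg_sub` on `Icc a b`. `darg_neg`: if `θ` is an argument of
`P` then `θ + π` is one of `-P`. `darg_shift`: `θ (s + c)`. `darg_square`: take `Θ` on the plane from
`exists_arg_plane`; `s ↦ Θ (s, c)` is an argument of `s ↦ Q (s, c)` etc.
`darg_comp`: `Θ ∘ c` is an argument of `g ∘ c`. `darg_opp`: `exp ((θ b - θ a) I) = -1`.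
`darg_scale`: if `P' s = r s * P s` with `r s > 0` real then the same `θ` works (norms).
-/

open Complex Set Metric Topology Filter

namespace Pool.Agent.H25.PR

theorem darg_eq {P : ℝ → ℂ} {θ : ℝ → ℝ} (h : IsArg P θ) (h0 : ∀ s, P s ≠ 0) (a b : ℝ) :
    darg P a b = θ b - θ a := by
  have hex : ∃ θ : ℝ → ℝ, IsArg P θ := ⟨θ, h⟩
  rw [darg, dif_pos hex]
  obtain ⟨k, hk⟩ := isArg_sub hex.choose_spec h isPreconnected_univ (fun _ _ => rfl)
    (fun s _ => h0 s)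
  rw [hk a (mem_univ _), hk b (mem_univ _)]
  ring

theorem darg_congr {P P' : ℝ → ℂ} (hP : Continuous P) (h0 : ∀ s, P s ≠ 0) (hP' : Continuous P')
    (h0' : ∀ s, P' s ≠ 0) {a b : ℝ} (hab : a ≤ b) (he : ∀ s ∈ Icc a b, P s = P' s) :
    darg P a b = darg P' a b := by
  obtain ⟨θ, hθ⟩ := exists_arg_R P hP h0
  obtain ⟨θ', hθ'⟩ := exists_arg_R P' hP' h0'
  rw [darg_eq hθ h0, darg_eq hθ' h0']
  obtain ⟨k, hk⟩ := isArg_sub hθ hθ' isPreconnected_Icc he (fun s _ => h0 s)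
  rw [hk a (left_mem_Icc.mpr hab), hk b (right_mem_Icc.mpr hab)]
  ring

theorem darg_add {P : ℝ → ℂ} (hP : Continuous P) (h0 : ∀ s, P s ≠ 0) (a b c : ℝ) :
    darg P a b + darg P b c = darg P a c := by
  obtain ⟨θ, hθ⟩ := exists_arg_R P hP h0
  rw [darg_eq hθ h0, darg_eq hθ h0, darg_eq hθ h0]
  ring

theorem darg_neg {P : ℝ → ℂ} (hP : Continuous P) (h0 : ∀ s, P s ≠ 0) (a b : ℝ) :
    darg (fun s => -P s) a b = darg P a b := by
  obtain ⟨θ, hθ⟩ := exists_arg_R P hP h0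
  have h1 : IsArg (fun s => -P s) (fun s => θ s + Real.pi) := by
    refine ⟨hθ.1.add continuous_const, fun s => ?_⟩
    have h2 := hθ.2 s
    rw [norm_neg]
    push_cast
    rw [add_mul, Complex.exp_add, Complex.exp_pi_mul_I]
    linear_combination (-1 : ℂ) * h2
  rw [darg_eq hθ h0, darg_eq h1 (fun s => neg_ne_zero.mpr (h0 s))]
  ring

theorem darg_shift {P : ℝ → ℂ} (hP : Continuous P) (h0 : ∀ s, P s ≠ 0) (a b c : ℝ) :
    darg (fun s => P (s + c)) a b = darg P (a + c) (b + c) := by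
  obtain ⟨θ, hθ⟩ := exists_arg_R P hP h0
  have h1 : IsArg (fun s => P (s + c)) (fun s => θ (s + c)) :=
    ⟨hθ.1.comp (continuous_id.add continuous_const), fun s => hθ.2 (s + c)⟩
  rw [darg_eq hθ h0, darg_eq h1 (fun s => h0 _)]

theorem darg_square {Q : ℝ × ℝ → ℂ} (hQ : Continuous Q) (h0 : ∀ p, Q p ≠ 0) (a b c d : ℝ) :
    darg (fun s => Q (s, c)) a b + darg (fun t => Q (b, t)) c d
      = darg (fun t => Q (a, t)) c d + darg (fun s => Q (s, d)) a b := by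
  obtain ⟨θ, hθ⟩ := exists_arg_plane Q hQ h0
  have h1 : ∀ c, IsArg (fun s => Q (s, c)) (fun s => θ (s, c)) := fun c =>
    ⟨hθ.1.comp (by fun_prop), fun s => hθ.2 (s, c)⟩
  have h2 : ∀ a, IsArg (fun t => Q (a, t)) (fun t => θ (a, t)) := fun a =>
    ⟨hθ.1.comp (by fun_prop), fun t => hθ.2 (a, t)⟩
  rw [darg_eq (h1 c) (fun s => h0 _), darg_eq (h2 b) (fun s => h0 _),
    darg_eq (h2 a) (fun s => h0 _), darg_eq (h1 d) (fun s => h0 _)]
  ring

/-- composition of a path with a nowhere vanishing function on the plane -/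
theorem darg_comp {g : ℂ → ℂ} (hg : Continuous g) (h0 : ∀ z, g z ≠ 0) :
    ∃ Θ : ℂ → ℝ, ∀ c : ℝ → ℂ, Continuous c → ∀ a b : ℝ,
      darg (fun s => g (c s)) a b = Θ (c b) - Θ (c a) := by
  obtain ⟨θ, hθ⟩ := exists_arg_C g hg h0
  refine ⟨θ, fun c hc a b => ?_⟩
  have h1 : IsArg (fun s => g (c s)) (fun s => θ (c s)) :=
    ⟨hθ.1.comp hc, fun s => hθ.2 (c s)⟩
  rw [darg_eq h1 (fun s => h0 _)]

theorem darg_opp {P : ℝ → ℂ} (hP : Continuous P) (h0 : ∀ s, P s ≠ 0) {a b : ℝ}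
    (h : P b = -P a) : ∃ k : ℤ, darg P a b = (2 * k + 1) * Real.pi := by
  obtain ⟨θ, hθ⟩ := exists_arg_R P hP h0
  have ha := hθ.2 a
  have hb := hθ.2 b
  have hn : ‖P b‖ = ‖P a‖ := by rw [h, norm_neg]
  have hne : (‖P a‖ : ℂ) ≠ 0 := by
    rw [Ne, Complex.ofReal_eq_zero, norm_eq_zero]
    exact h0 a
  have h1 : cexp (θ b * I) = cexp ((θ a + Real.pi) * I) := by
    rw [add_mul, Complex.exp_add, Complex.exp_pi_mul_I]
    rw [hn] at hb
    apply mul_left_cancel₀ hne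
    rw [← hb, h]
    linear_combination (-1 : ℂ) * ha
  obtain ⟨k, hk⟩ := Complex.exp_eq_exp_iff_exists_int.mp h1
  refine ⟨k, ?_⟩
  rw [darg_eq hθ h0]
  have h2 : (θ b : ℂ) = θ a + Real.pi + k * (2 * Real.pi) := by
    have h3 : ((θ b : ℂ) - (θ a + Real.pi + k * (2 * Real.pi))) * I = 0 := by
      linear_combination hk
    rcases mul_eq_zero.mp h3 with h4 | h4
    · linear_combination h4
    · exact absurd h4 Complex.I_ne_zero
  have h5 : θ b = θ a + Real.pi + k * (2 * Real.pi) := by exact_mod_cast h2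
  rw [h5]
  ring

end Pool.Agent.H25.PR
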