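import Pool.Agent.H25.PR.A1b

/-!
# PR module A2: the angle identity (*) (150 lines)

`h` injective continuous with an isotopy `H` (from `HomIso h`), `n ≥ 2`, `h^[n] x0 = x0`, `h` and
`h^[n-1]` without fixed point, `c 0 = x0`, `c 1 = h x0`.
Put `x i = h^[i] x0`, `w u v = darg (fun t => H t v - H t u) 0 1` for `u ≠ v` (continuous and nonzero
because `H t` is injective); `w u v = w v u` by `darg_neg`.
For `j = 1` and `j = n - 1` let `A i = darg (fun s => h^[i+j] (c s) - h^[i] (c s)) 0 1`. The function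
`Q (s,t) = H t (h^[i+j] (c s)) - H t (h^[i] (c s))` is continuous and nonzero (`h^[j]` has no fixed
point and `H t` is injective), `Q (s,0)` and `Q (s,1)` are the functions of `A i` and `A (i+1)`
(as `H 0 = id`, `H 1 = h`), and at `s = 0`, `s = 1` it is the function of `w (x i) (x (i+j))` and
`w (x (i+1)) (x (i+1+j))`. `darg_square` gives
`A i + w (x (i+1)) (x (i+1+j)) = w (x i) (x (i+j)) + A (i+1)`,
so `A i = w (x i) (x (i+j)) + κ j` with `κ j` independent of `i` (induction).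
By `darg_comp` for `g z = h^[j] z - z` we have `A i = Θ (x (i+1)) - Θ (x i)` (note
`h^[i+j] (c s) - h^[i] (c s) = g (h^[i] (c s))` and `h^[i] (c 1) = x (i+1)`), hence
`∑ i in range n, A i = Θ (x n) - Θ (x 0) = 0` and `∑ i in range n, w (x i) (x (i+j)) = - n κ j`.
For `j = n-1`: `x (i + (n-1)) = x (i-1)` for `i ≥ 1` and `x (n-1)` for `i = 0`; by the symmetry of `w`
`∑_{i<n} w (x i) (x (i+n-1)) = w (x 0) (x (n-1)) + ∑_{i<n-1} w (x (i+1)) (x i)
= ∑_{i<n} w (x i) (x (i+1))` (`x n = x 0`). So `κ 1 = κ (n-1)`.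
Finally the left side of the theorem is `A (n-1)` for `j=1`, equal to `w (x (n-1)) (x n) + κ 1`
`= w (x (n-1)) (x 0) + κ 1`, the right side is `A 0` for `j = n-1`, equal to
`w (x 0) (x (n-1)) + κ (n-1)`.
-/

open Complex Set Metric Topology Filter

namespace Pool.Agent.H25.PR

/-- the square identity of the proof of (*) -/
private theorem a2_square {h : ℂ → ℂ} (hc : Continuous h) {H : ℝ → ℂ → ℂ}
    (Hc : Continuous (fun p : ℝ × ℂ => H p.1 p.2)) (Hi : ∀ t, Function.Injective (H t))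
    (H0 : ∀ z, H 0 z = z) (H1 : ∀ z, H 1 z = h z) {x0 : ℂ} {c : ℝ → ℂ} (cc : Continuous c)
    (c0 : c 0 = x0) (c1 : c 1 = h x0) {j : ℕ} (hj : NoFix (h^[j])) (i : ℕ) :
    darg (fun s => h^[i + j] (c s) - h^[i] (c s)) 0 1 +
      darg (fun t => H t (h^[i + 1 + j] x0) - H t (h^[i + 1] x0)) 0 1 =
    darg (fun t => H t (h^[i + j] x0) - H t (h^[i] x0)) 0 1 +
      darg (fun s => h^[i + 1 + j] (c s) - h^[i + 1] (c s)) 0 1 := by
  have hcn : ∀ m, Continuous (h^[m]) := fun m => hc.iterate m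
  have hne : ∀ s, h^[i + j] (c s) ≠ h^[i] (c s) := by
    intro s e
    apply hj (h^[i] (c s))
    rw [← Function.iterate_add_apply, Nat.add_comm j i]
    exact e
  have hQ : Continuous (fun p : ℝ × ℝ => H p.2 (h^[i + j] (c p.1)) - H p.2 (h^[i] (c p.1))) := by
    refine Continuous.sub ?_ ?_
    · exact Hc.comp (continuous_snd.prodMk ((hcn _).comp (cc.comp continuous_fst)))
    · exact Hc.comp (continuous_snd.prodMk ((hcn _).comp (cc.comp continuous_fst)))
  have h0 : ∀ p : ℝ × ℝ, H p.2 (h^[i + j] (c p.1)) - H p.2 (h^[i] (c p.1)) ≠ 0 := by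
    intro p e
    exact hne p.1 (Hi p.2 (sub_eq_zero.mp e))
  have key := darg_square hQ h0 0 1 0 1
  simp only [H0, H1, c0, c1, ← Function.iterate_succ_apply, ← Function.iterate_succ_apply'] at key
  have e1 : (i + j).succ = i + 1 + j := by omega
  rw [e1] at key
  exact key

/-- symmetry of the angle of a pair -/
private theorem a2_symm {H : ℝ → ℂ → ℂ}
    (Hc : Continuous (fun p : ℝ × ℂ => H p.1 p.2)) (Hi : ∀ t, Function.Injective (H t))
    {u v : ℂ} (huv : u ≠ v) :
    darg (fun t => H t v - H t u) 0 1 = darg (fun t => H t u - H t v) 0 1 := by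
  have hP : Continuous (fun t => H t v - H t u) := by
    refine Continuous.sub ?_ ?_
    · exact Hc.comp (continuous_id.prodMk continuous_const)
    · exact Hc.comp (continuous_id.prodMk continuous_const)
  have h0 : ∀ t, H t v - H t u ≠ 0 := fun t e => huv (Hi t (sub_eq_zero.mp e)).symm
  have := darg_neg hP h0 0 1
  simp only [neg_sub] at this
  exact this.symm

/-- the sum over a periodic orbit vanishes -/
private theorem a2_sum {h : ℂ → ℂ} (hc : Continuous h) {n : ℕ} {x0 : ℂ} (hx : h^[n] x0 = x0)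
    {c : ℝ → ℂ} (cc : Continuous c) (c0 : c 0 = x0) (c1 : c 1 = h x0) {j : ℕ}
    (hj : NoFix (h^[j])) :
    ∑ i ∈ Finset.range n, darg (fun s => h^[i + j] (c s) - h^[i] (c s)) 0 1 = 0 := by
  have hcn : ∀ m, Continuous (h^[m]) := fun m => hc.iterate m
  obtain ⟨Θ, hΘ⟩ := darg_comp (g := fun z => h^[j] z - z) ((hcn j).sub continuous_id)
    (fun z => sub_ne_zero.mpr (hj z))
  have h1 : ∀ i, darg (fun s => h^[i + j] (c s) - h^[i] (c s)) 0 1
      = Θ (h^[i + 1] x0) - Θ (h^[i] x0) := by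
    intro i
    have := hΘ (fun s => h^[i] (c s)) ((hcn i).comp cc) 0 1
    simp only [c0, c1, ← Function.iterate_add_apply, ← Function.iterate_succ_apply] at this
    rw [Nat.add_comm i j]
    exact this
  rw [Finset.sum_congr rfl (fun i _ => h1 i),
    Finset.sum_range_sub (fun i => Θ (h^[i] x0)) n, hx]
  simp

theorem star {h : ℂ → ℂ} (hc : Continuous h) (hi : Function.Injective h) (hI : HomIso h)
    {n : ℕ} (hn : 2 ≤ n) {x0 : ℂ} (hx : h^[n] x0 = x0) (h1 : NoFix h) (h2 : NoFix (h^[n - 1]))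
    {c : ℝ → ℂ} (cc : Continuous c) (c0 : c 0 = x0) (c1 : c 1 = h x0) :
    darg (fun s => h^[n] (c s) - h^[n - 1] (c s)) 0 1 = darg (fun s => h^[n - 1] (c s) - c s) 0 1 ∧
    ∑ i ∈ Finset.range n, darg (fun s => h^[i + 1] (c s) - h^[i] (c s)) 0 1 = 0 := by
  obtain ⟨H, Hc, Hi, H0, H1⟩ := hI
  obtain ⟨m, rfl⟩ : ∃ m, n = m + 1 := ⟨n - 1, by omega⟩
  rw [Nat.add_sub_cancel] at h2 ⊢
  have h1' : NoFix (h^[1]) := by simpa using h1
  have hsum1 := a2_sum hc hx cc c0 c1 h1'
  have hsumm := a2_sum hc hx cc c0 c1 h2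
  refine ⟨?_, hsum1⟩
  -- the constants
  have hconst : ∀ j, NoFix (h^[j]) → ∀ i,
      darg (fun s => h^[i + j] (c s) - h^[i] (c s)) 0 1 =
        darg (fun t => H t (h^[i + j] x0) - H t (h^[i] x0)) 0 1 +
        (darg (fun s => h^[0 + j] (c s) - h^[0] (c s)) 0 1 -
          darg (fun t => H t (h^[0 + j] x0) - H t (h^[0] x0)) 0 1) := by
    intro j hj i
    induction i with
    | zero => ring
    | succ i ih =>
      have h3 := a2_square hc Hc Hi H0 H1 cc c0 c1 hj i
      linarith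
  set K1 := darg (fun s => h^[0 + 1] (c s) - h^[0] (c s)) 0 1 -
          darg (fun t => H t (h^[0 + 1] x0) - H t (h^[0] x0)) 0 1 with hK1
  set Km := darg (fun s => h^[0 + m] (c s) - h^[0] (c s)) 0 1 -
          darg (fun t => H t (h^[0 + m] x0) - H t (h^[0] x0)) 0 1 with hKm
  have hc1 : ∀ i, darg (fun s => h^[i + 1] (c s) - h^[i] (c s)) 0 1 =
      darg (fun t => H t (h^[i + 1] x0) - H t (h^[i] x0)) 0 1 + K1 := hconst 1 h1'
  have hcm : ∀ i, darg (fun s => h^[i + m] (c s) - h^[i] (c s)) 0 1 =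
      darg (fun t => H t (h^[i + m] x0) - H t (h^[i] x0)) 0 1 + Km := hconst m h2
  rw [Finset.sum_congr rfl (fun i _ => hc1 i), Finset.sum_add_distrib] at hsum1
  rw [Finset.sum_congr rfl (fun i _ => hcm i), Finset.sum_add_distrib] at hsumm
  -- periodicity
  have hper : ∀ i, h^[i + 1 + m] x0 = h^[i] x0 := by
    intro i
    have : i + 1 + m = i + (m + 1) := by omega
    rw [this, Function.iterate_add_apply, hx]
  have hsym1 : ∀ i, darg (fun t => H t (h^[i + 1] x0) - H t (h^[i] x0)) 0 1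
      = darg (fun t => H t (h^[i] x0) - H t (h^[i + 1] x0)) 0 1 := by
    intro i
    apply a2_symm Hc Hi
    intro e
    apply h1 (h^[i] x0)
    rw [← Function.iterate_succ_apply' h]
    exact e.symm
  have hsymm : darg (fun t => H t (h^[m] x0) - H t (h^[0] x0)) 0 1
      = darg (fun t => H t (h^[0] x0) - H t (h^[m] x0)) 0 1 := by
    apply a2_symm Hc Hi
    intro e
    apply h2 x0
    exact e.symm
  have hsums : ∑ i ∈ Finset.range (m + 1), darg (fun t => H t (h^[i + 1] x0) - H t (h^[i] x0)) 0 1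
      = ∑ i ∈ Finset.range (m + 1), darg (fun t => H t (h^[i + m] x0) - H t (h^[i] x0)) 0 1 := by
    rw [Finset.sum_range_succ, Finset.sum_range_succ' (fun i =>
      darg (fun t => H t (h^[i + m] x0) - H t (h^[i] x0)) 0 1)]
    have e1 : ∀ i, darg (fun t => H t (h^[i + 1 + m] x0) - H t (h^[i + 1] x0)) 0 1
        = darg (fun t => H t (h^[i + 1] x0) - H t (h^[i] x0)) 0 1 := by
      intro i
      rw [hper i, hsym1 i]
    rw [Finset.sum_congr rfl (fun i _ => e1 i)]
    have e2 : h^[m + 1] x0 = h^[0] x0 := hx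
    rw [e2, Nat.zero_add, hsymm]
  have hK : K1 = Km := by
    rw [hsums] at hsum1
    simp only [Finset.sum_const, Finset.card_range, nsmul_eq_mul] at hsum1 hsumm
    have hpos : ((m + 1 : ℕ) : ℝ) ≠ 0 := by positivity
    have : ((m + 1 : ℕ) : ℝ) * K1 = ((m + 1 : ℕ) : ℝ) * Km := by linarith
    exact mul_left_cancel₀ hpos this
  have hA := hc1 m
  have hB := hcm 0
  have e2 : h^[m + 1] x0 = h^[0] x0 := hx
  rw [e2] at hA
  rw [Nat.zero_add] at hB
  have hB' : darg (fun s => h^[m] (c s) - c s) 0 1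
      = darg (fun t => H t (h^[m] x0) - H t (h^[0] x0)) 0 1 + Km := hB
  rw [hA, hB', hK, hsymm]

/-- no point of period two -/
theorem no_period_two {h : ℂ → ℂ} (hc : Continuous h) (hi : Function.Injective h) (hI : HomIso h)
    (h1 : NoFix h) (z : ℂ) : h^[2] z ≠ z := by
  -- `c s = z + s (h z - z)`; by `star` with `n = 2` the two summands of the zero sum agree, so
  -- `darg (h (c s) - c s) 0 1 = 0`; but it is an odd multiple of `π` by `darg_opp`
  intro hz
  have h1' : NoFix (h^[2 - 1]) := by simpa using h1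
  have cc : Continuous (fun s : ℝ => z + (s : ℂ) * (h z - z)) := by fun_prop
  obtain ⟨ha, hb⟩ := star hc hi hI le_rfl hz h1 h1' cc (by simp) (by simp)
  rw [Finset.sum_range_succ, Finset.sum_range_one] at hb
  have hP : Continuous (fun s : ℝ => h (z + (s : ℂ) * (h z - z)) - (z + (s : ℂ) * (h z - z))) :=
    (hc.comp cc).sub cc
  obtain ⟨k, hk⟩ := darg_opp (a := 0) (b := 1) hP (fun s => sub_ne_zero.mpr (h1 _)) (by
    have hz' : h (h z) = z := hz
    simp [hz'])
  have e1 : darg (fun s : ℝ => h^[2 - 1] (z + (s : ℂ) * (h z - z)) - (z + (s : ℂ) * (h z - z))) 0 1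
      = (2 * k + 1) * Real.pi := hk
  have e2 : darg (fun s : ℝ => h^[0 + 1] (z + (s : ℂ) * (h z - z))
      - h^[0] (z + (s : ℂ) * (h z - z))) 0 1 = (2 * k + 1) * Real.pi := hk
  have e3 : darg (fun s : ℝ => h^[1 + 1] (z + (s : ℂ) * (h z - z))
      - h^[1] (z + (s : ℂ) * (h z - z))) 0 1 = (2 * k + 1) * Real.pi := by
    rw [← e1, ← ha]
  rw [e2, e3] at hb
  have h3 : (2 * (k : ℝ) + 1) * Real.pi = 0 := by linarith
  have h4 : (2 * (k : ℝ) + 1) = 0 := (mul_eq_zero.mp h3).resolve_right Real.pi_ne_zero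
  have h5 : (2 * k + 1 : ℤ) = 0 := by exact_mod_cast h4
  omega

end Pool.Agent.H25.PR
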