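import Pool.Agent.H25.PR.A2

/-!
# PR module A3: a simple closed orbit curve is impossible (150 lines)

Let `gam s = h^[⌊s⌋₊] (c (s - ⌊s⌋₊))` for `s ≥ 0` (so `gam (i + t) = h^[i] (c t)` for `0 ≤ t ≤ 1`; at
integers both formulas agree since `c 1 = h (c 0)`), continuous on `[0, ∞)`; `gam 0 = x0 = gam n`.
Hypothesis `hs`: for `0 ≤ s < s' ≤ n`, `gam s = gam s'` only if `s = 0` and `s' = n`.
Assume `n ≥ 3` (only needed for nothing: `n ≥ 2` works too).
Clamp `r (s,b) = (max 0 (min s (n - b')), b')`, `b' = max 1 (min b (n-1))`: continuous from `ℝ × ℝ` to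
`{1 ≤ b ≤ n-1, 0 ≤ s ≤ n - b}`, identity there. `Q p = gam ((r p).1 + (r p).2) - gam (r p).1` is
continuous (`gam` is continuous on `[0,n]`) and nonzero by `hs` (`s < s + b`, and `s = 0`, `s + b = n`
would give `b = n`). Let `Θ` be its argument (`exists_arg_plane`).
* For `i ≤ n - 2`: `t ↦ Q (i + t, 1)` agrees on `[0,1]` with `t ↦ h^[i+1] (c t) - h^[i] (c t)`, so
  `darg (fun s => h^[i+1] (c s) - h^[i] (c s)) 0 1 = Θ (i+1, 1) - Θ (i, 1)` (`darg_congr`, `darg_eq`;
  the second function never vanishes because `h` has no fixed point).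
* `t ↦ Q (t, n-1)` agrees on `[0,1]` with `h^[n-1] (c t) - c t`, so that `darg` is
  `Θ (1, n-1) - Θ (0, n-1)`, and by `star` it equals `darg (h^[n] c - h^[n-1] c) 0 1`.
* Sum zero (`star`, second part): `[Θ (n-1,1) - Θ (0,1)] + [Θ (1,n-1) - Θ (0,n-1)] = 0`.
* For `1 ≤ u ≤ n-1`: `Q (u, n-u) = gam n - gam u = - Q (0, u)`, so `Θ (u,n-u) - Θ (0,u)` is an odd
  multiple of `π`; it is continuous in `u`, hence equal to one `(2k+1) π` on `[1, n-1]`.
  Take `u = n-1` and `u = 1` and add: `2 (2k+1) π = 0`, contradiction.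
(If `n = 2` the two values `u = 1` coincide; fine.)
-/

open Complex Set Metric Topology Filter

namespace Pool.Agent.H25.PR

private noncomputable def A3gam (h : ℂ → ℂ) (c : ℝ → ℂ) (s : ℝ) : ℂ :=
  h^[⌊s⌋₊] (c (s - ⌊s⌋₊))

private theorem A3gam_add {h : ℂ → ℂ} {c : ℝ → ℂ} (c1 : c 1 = h (c 0)) (i : ℕ) (t : ℝ)
    (ht0 : 0 ≤ t) (ht1 : t ≤ 1) : A3gam h c (i + t) = h^[i] (c t) := by
  unfold A3gam
  rcases ht1.eq_or_lt with h1 | h1
  · subst h1
    have h2 : ⌊(i : ℝ) + 1⌋₊ = i + 1 := by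
      rw [show (i : ℝ) + 1 = ((i + 1 : ℕ) : ℝ) by push_cast; ring, Nat.floor_natCast]
    rw [h2]
    push_cast
    rw [sub_self, c1, Function.iterate_succ_apply]
  · have h2 : ⌊(i : ℝ) + t⌋₊ = i := by
      rw [Nat.floor_eq_iff (by positivity)]
      exact ⟨by linarith, by linarith⟩
    rw [h2, add_sub_cancel_left]

private theorem A3gam_cont {h : ℂ → ℂ} (hc : Continuous h) {c : ℝ → ℂ} (cc : Continuous c)
    (c1 : c 1 = h (c 0)) (m : ℕ) : ContinuousOn (A3gam h c) (Icc (0 : ℝ) m) := by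
  induction m with
  | zero =>
    simp only [Nat.cast_zero, Icc_self]
    exact continuousOn_singleton _ _
  | succ m ih =>
    have h1 : Icc (0 : ℝ) ((m + 1 : ℕ) : ℝ) = Icc (0 : ℝ) m ∪ Icc (m : ℝ) ((m + 1 : ℕ) : ℝ) := by
      rw [Icc_union_Icc_eq_Icc (by positivity) (by push_cast; linarith)]
    rw [h1]
    refine ContinuousOn.union_of_isClosed ih ?_ isClosed_Icc isClosed_Icc
    have h2 : ContinuousOn (fun s : ℝ => h^[m] (c (s - m))) (Icc (m : ℝ) ((m + 1 : ℕ) : ℝ)) := by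
      have : Continuous (h^[m]) := hc.iterate m
      exact (this.comp (cc.comp (continuous_id.sub continuous_const))).continuousOn
    refine h2.congr ?_
    intro s hs
    have h3 := A3gam_add c1 m (s - m) (by linarith [hs.1]) (by
      have := hs.2
      push_cast at this
      linarith)
    rw [show (m : ℝ) + (s - m) = s by ring] at h3
    exact h3

theorem no_simple {h : ℂ → ℂ} (hc : Continuous h) (hi : Function.Injective h) (hI : HomIso h)
    {n : ℕ} (hn : 2 ≤ n) {x0 : ℂ} (hx : h^[n] x0 = x0) (h1 : NoFix h) (h2 : NoFix (h^[n - 1]))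
    {c : ℝ → ℂ} (cc : Continuous c) (c0 : c 0 = x0) (c1 : c 1 = h x0)
    (hs : ∀ s s' : ℝ, 0 ≤ s → s < s' → s' ≤ n →
      h^[⌊s⌋₊] (c (s - ⌊s⌋₊)) = h^[⌊s'⌋₊] (c (s' - ⌊s'⌋₊)) → s = 0 ∧ s' = n) : False := by
  have c1' : c 1 = h (c 0) := by rw [c1, c0]
  set gam := A3gam h c with hgam
  have hga : ∀ (i : ℕ) (t : ℝ), 0 ≤ t → t ≤ 1 → gam (i + t) = h^[i] (c t) :=
    fun i t ht0 ht1 => A3gam_add c1' i t ht0 ht1
  have hgc : ContinuousOn gam (Icc (0 : ℝ) n) := A3gam_cont hc cc c1' n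
  have hg0 : gam 0 = x0 := by
    have := hga 0 0 le_rfl zero_le_one
    rw [Nat.cast_zero, add_zero] at this
    rw [this, c0]
    rfl
  have hgn : gam n = x0 := by
    have := hga n 0 le_rfl zero_le_one
    rw [add_zero] at this
    rw [this, c0, hx]
  have hnR : (2 : ℝ) ≤ n := by exact_mod_cast hn
  -- the clamped quotient
  let B : ℝ × ℝ → ℝ := fun p => max 1 (min p.2 ((n : ℝ) - 1))
  let S : ℝ × ℝ → ℝ := fun p => max 0 (min p.1 ((n : ℝ) - B p))
  have hBc : Continuous B := continuous_const.max (continuous_snd.min continuous_const)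
  have hSc : Continuous S :=
    continuous_const.max (continuous_fst.min (continuous_const.sub hBc))
  have hB1 : ∀ p, 1 ≤ B p := fun p => le_max_left _ _
  have hB2 : ∀ p, B p ≤ (n : ℝ) - 1 := fun p => max_le (by linarith) (min_le_right _ _)
  have hS1 : ∀ p, 0 ≤ S p := fun p => le_max_left _ _
  have hS2 : ∀ p, S p ≤ (n : ℝ) - B p := fun p =>
    max_le (by linarith [hB2 p]) (min_le_right _ _)
  have hBid : ∀ p : ℝ × ℝ, 1 ≤ p.2 → p.2 ≤ (n : ℝ) - 1 → B p = p.2 := fun p q1 q2 => by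
    change max 1 (min p.2 ((n : ℝ) - 1)) = p.2
    rw [min_eq_left q2, max_eq_right q1]
  have hSid : ∀ p : ℝ × ℝ, 1 ≤ p.2 → p.2 ≤ (n : ℝ) - 1 → 0 ≤ p.1 → p.1 ≤ (n : ℝ) - p.2 →
      S p = p.1 := fun p q1 q2 q3 q4 => by
    change max 0 (min p.1 ((n : ℝ) - B p)) = p.1
    rw [hBid p q1 q2, min_eq_left q4, max_eq_right q3]
  let Q : ℝ × ℝ → ℂ := fun p => gam (S p + B p) - gam (S p)
  have hQc : Continuous Q := by
    refine Continuous.sub ?_ ?_
    · exact hgc.comp_continuous (hSc.add hBc) (fun p =>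
        ⟨by linarith [hS1 p, hB1 p], by linarith [hS2 p]⟩)
    · exact hgc.comp_continuous hSc (fun p => ⟨hS1 p, by linarith [hS2 p, hB1 p]⟩)
  have hQ0 : ∀ p, Q p ≠ 0 := by
    intro p hp
    have h3 : gam (S p + B p) = gam (S p) := sub_eq_zero.1 hp
    obtain ⟨r1, r2⟩ := hs (S p) (S p + B p) (hS1 p) (by linarith [hB1 p]) (by linarith [hS2 p])
      h3.symm
    rw [r1, zero_add] at r2
    linarith [hB2 p]
  have hQid : ∀ s b : ℝ, 1 ≤ b → b ≤ (n : ℝ) - 1 → 0 ≤ s → s ≤ (n : ℝ) - b →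
      Q (s, b) = gam (s + b) - gam s := fun s b q1 q2 q3 q4 => by
    change gam (S (s, b) + B (s, b)) - gam (S (s, b)) = _
    rw [hSid (s, b) q1 q2 q3 q4, hBid (s, b) q1 q2]
  obtain ⟨Θ, hΘ⟩ := exists_arg_plane Q hQc hQ0
  obtain ⟨st1, st2⟩ := star hc hi hI hn hx h1 h2 cc c0 c1
  -- first family
  have hfam : ∀ i : ℕ, i + 2 ≤ n →
      darg (fun s => h^[i + 1] (c s) - h^[i] (c s)) 0 1 = Θ ((i : ℝ) + 1, 1) - Θ ((i : ℝ), 1) := by
    intro i hin
    have hinR : (i : ℝ) + 2 ≤ n := by exact_mod_cast hin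
    have hi0 : (0 : ℝ) ≤ i := Nat.cast_nonneg i
    have e1 : darg (fun s => h^[i + 1] (c s) - h^[i] (c s)) 0 1 =
        darg (fun t => Q ((i : ℝ) + t, 1)) 0 1 := by
      apply darg_congr
      · exact ((hc.iterate (i + 1)).comp cc).sub ((hc.iterate i).comp cc)
      · intro s
        rw [Function.iterate_succ_apply']
        exact sub_ne_zero.2 (h1 _)
      · exact hQc.comp (by fun_prop)
      · intro t
        exact hQ0 _
      · exact zero_le_one
      · intro t ht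
        rw [hQid ((i : ℝ) + t) 1 le_rfl (by linarith) (by linarith [ht.1]) (by linarith [ht.2]),
          hga i t ht.1 ht.2, show (i : ℝ) + t + 1 = ((i + 1 : ℕ) : ℝ) + t by push_cast; ring,
          hga (i + 1) t ht.1 ht.2]
    have e2 : IsArg (fun t => Q ((i : ℝ) + t, 1)) (fun t => Θ ((i : ℝ) + t, 1)) :=
      ⟨hΘ.1.comp (by fun_prop), fun t => hΘ.2 _⟩
    rw [e1, darg_eq e2 (fun t => hQ0 _), add_zero]
  -- the long chord
  have hlong : darg (fun s => h^[n - 1] (c s) - c s) 0 1 =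
      Θ (1, (n : ℝ) - 1) - Θ (0, (n : ℝ) - 1) := by
    have e1 : darg (fun s => h^[n - 1] (c s) - c s) 0 1 =
        darg (fun t => Q (t, (n : ℝ) - 1)) 0 1 := by
      apply darg_congr
      · exact ((hc.iterate (n - 1)).comp cc).sub cc
      · intro s
        exact sub_ne_zero.2 (h2 _)
      · exact hQc.comp (by fun_prop)
      · intro t
        exact hQ0 _
      · exact zero_le_one
      · intro t ht
        rw [hQid t ((n : ℝ) - 1) (by linarith) le_rfl ht.1 (by linarith [ht.2])]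
        have e3 := hga (n - 1) t ht.1 ht.2
        have e4 := hga 0 t ht.1 ht.2
        rw [Nat.cast_zero, zero_add] at e4
        rw [show t + ((n : ℝ) - 1) = ((n - 1 : ℕ) : ℝ) + t by
          rw [Nat.cast_sub (by omega)]; push_cast; ring, e3, e4]
        rfl
    have e2 : IsArg (fun t => Q (t, (n : ℝ) - 1)) (fun t => Θ (t, (n : ℝ) - 1)) :=
      ⟨hΘ.1.comp (by fun_prop), fun t => hΘ.2 _⟩
    rw [e1, darg_eq e2 (fun t => hQ0 _)]
  -- the sum
  obtain ⟨m, rfl⟩ : ∃ m, n = m + 1 := ⟨n - 1, by omega⟩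
  have hsum : Θ ((m : ℝ), 1) - Θ (0, 1) + (Θ (1, (m : ℝ)) - Θ (0, (m : ℝ))) = 0 := by
    rw [Finset.sum_range_succ] at st2
    have e1 : ∑ i ∈ Finset.range m, darg (fun s => h^[i + 1] (c s) - h^[i] (c s)) 0 1 =
        ∑ i ∈ Finset.range m, (Θ (((i + 1 : ℕ) : ℝ), 1) - Θ ((i : ℝ), 1)) := by
      apply Finset.sum_congr rfl
      intro i hi'
      rw [Finset.mem_range] at hi'
      rw [hfam i (by omega)]
      push_cast
      rfl
    rw [e1, Finset.sum_range_sub (fun i : ℕ => Θ ((i : ℝ), 1)), Nat.cast_zero] at st2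
    simp only [Nat.add_sub_cancel] at st1 hlong
    rw [st1, hlong] at st2
    push_cast at st2
    rw [add_sub_cancel_right] at st2
    exact st2
  -- the opposite chords
  have hneg : IsArg (fun u : ℝ => -Q (0, u)) (fun u => Θ (0, u) + Real.pi) := by
    refine ⟨(hΘ.1.comp (by fun_prop)).add continuous_const, fun u => ?_⟩
    have h3 := hΘ.2 (0, u)
    rw [norm_neg]
    push_cast
    rw [add_mul, Complex.exp_add, Complex.exp_pi_mul_I]
    linear_combination (-1 : ℂ) * h3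
  have hpos : IsArg (fun u : ℝ => Q (u, ((m + 1 : ℕ) : ℝ) - u))
      (fun u => Θ (u, ((m + 1 : ℕ) : ℝ) - u)) :=
    ⟨hΘ.1.comp (by fun_prop), fun u => hΘ.2 _⟩
  obtain ⟨k, hk⟩ := isArg_sub hpos hneg (s := Icc (1 : ℝ) m) isPreconnected_Icc (by
      intro u hu
      have hm : ((m + 1 : ℕ) : ℝ) = m + 1 := by push_cast; rfl
      rw [hQid u (((m + 1 : ℕ) : ℝ) - u) (by linarith [hu.2]) (by linarith [hu.1])
        (by linarith [hu.1]) (by linarith), hQid 0 u hu.1 (by linarith [hu.2]) le_rfl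
        (by linarith [hu.2])]
      rw [show u + (((m + 1 : ℕ) : ℝ) - u) = ((m + 1 : ℕ) : ℝ) by ring, hgn, zero_add, hg0]
      ring) (fun u _ => hQ0 _)
  have hm1 : (1 : ℝ) ≤ m := by
    push_cast at hnR
    linarith
  have k1 := hk 1 ⟨le_rfl, hm1⟩
  have k2 := hk m ⟨hm1, le_rfl⟩
  have hm : ((m + 1 : ℕ) : ℝ) = m + 1 := by push_cast; rfl
  simp only [hm, add_sub_cancel_left, add_sub_cancel_right] at k1 k2
  have h5 : 2 * Real.pi * ((1 : ℝ) + 2 * k) = 0 := by linarith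
  have h6 : (1 : ℝ) + 2 * k = 0 := by
    rcases mul_eq_zero.1 h5 with h7 | h7
    · exact absurd h7 (by positivity)
    · exact h7
  have h7 : (1 : ℤ) + 2 * k = 0 := by exact_mod_cast h6
  omega

end Pool.Agent.H25.PR
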