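import Pool.Agent.H25.PR.DefsA

/-!
# PR module A4: pushing a point along a segment (180 lines)

For `u ≠ v` and `ε > 0` a homeomorphism `ψ` of `ℂ` with `ψ u = v`, supported within distance `< ε` of
the segment `[u,v]`, which preserves the lines parallel to `uv` and is increasing on the line `uv`;
both `ψ` and `ψ.symm` are `HomIso`.
Let `L = ‖v - u‖`, `e = (v-u)/L`, `d = ε/4`; coordinates `p = u + (x + i y) e`, i.e.
`x + i y = (p - u)/e`. `T : ℝ → ℝ`, `T x = max 0 (min (L * (x + d)/d) (L * (L + d - x)/(L + d)))`: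
`T = 0` for `x ≤ -d` and `x ≥ L + d`, `T 0 = L`, slope between `-L/(L+d)` and `L/d`. `mu y = max 0 (1 - |y|/d)`.
For `s ∈ [0,1]` let `Φ s (x,y) = (x + s * mu y * T x, y)`; for each `y` the map
`x ↦ x + s mu T x` is strictly increasing with `X x' - X x ≥ κ (x' - x)` for `x ≤ x'`,
`κ = 1 - L/(L+d) > 0`, equal to `x` for large `|x|`, so bijective (IVT). The family is uniformly
Lipschitz in `(s,x,y)`; from the lower bound the inverse is Lipschitz in `(s,X,y)` as well:
`κ |x - x'| ≤ |X - X'| + (L/d) |y - y'| + L |s - s'|`. So `Φ s` is a homeomorphism and the isotopies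
`t ↦ Φ (clamp t)` and `t ↦ (Φ (clamp t))⁻¹` (clamp to `[0,1]`) are jointly continuous.
Support: if `mu y * T x ≠ 0` then `|y| < d` and `-d < x < L + d`, so the distance of `p` to `[u,v]` is
`≤ 2 d < ε`. A convenient way: first do the case `u = 0`, `v = L > 0` real, then conjugate with the
similarity `p ↦ u + e p`.
-/

open Complex Set Metric Topology Filter

namespace Pool.Agent.H25.PR

private noncomputable def A4cl (t : ℝ) : ℝ := max 0 (min t 1)

private theorem A4cl_nonneg (t : ℝ) : 0 ≤ A4cl t := le_max_left _ _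

private theorem A4cl_le (t : ℝ) : A4cl t ≤ 1 := max_le zero_le_one (min_le_right _ _)

private theorem A4cl_zero : A4cl 0 = 0 := by simp [A4cl]

private theorem A4cl_one : A4cl 1 = 1 := by simp [A4cl]

private theorem A4cl_cont : Continuous A4cl := by
  unfold A4cl; fun_prop

private theorem A4cl_of (t : ℝ) (h : A4cl t ≠ 0) : 0 < t := by
  by_contra hcon
  apply h
  push Not at hcon
  rw [A4cl, max_eq_left]
  exact (min_le_left _ _).trans hcon

private noncomputable def A4T (d x : ℝ) : ℝ :=
  max 0 (min ((x + d) / d) ((1 + d - x) / (1 + d)))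

private theorem A4T_nonneg (d x : ℝ) : 0 ≤ A4T d x := le_max_left _ _

private theorem A4T_le {d : ℝ} (hd : 0 < d) (x : ℝ) : A4T d x ≤ 1 := by
  refine max_le zero_le_one ?_
  rcases le_total x 0 with h | h
  · refine (min_le_left _ _).trans ?_
    rw [div_le_one hd]; linarith
  · refine (min_le_right _ _).trans ?_
    rw [div_le_one (by linarith)]; linarith

private theorem A4T_cont (d : ℝ) : Continuous (A4T d) := by
  unfold A4T; fun_prop

private theorem A4T_zero {d : ℝ} (hd : 0 < d) : A4T d 0 = 1 := by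
  have h1 : (0 + d) / d = 1 := by field_simp; ring
  have h2 : (1 + d - 0) / (1 + d) = 1 := by rw [sub_zero, div_self]; linarith
  rw [A4T, h1, h2]; simp

private theorem A4T_supp {d : ℝ} (hd : 0 < d) {x : ℝ} (h : A4T d x ≠ 0) : -d < x ∧ x < 1 + d := by
  by_contra hcon
  apply h
  rw [A4T, max_eq_left]
  rw [not_and_or] at hcon
  rcases hcon with h1 | h1
  · push Not at h1
    refine (min_le_left _ _).trans ?_
    exact div_nonpos_of_nonpos_of_nonneg (by linarith) hd.le
  · push Not at h1
    refine (min_le_right _ _).trans ?_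
    exact div_nonpos_of_nonpos_of_nonneg (by linarith) (by linarith)

private theorem A4T_lower {d : ℝ} (hd : 0 < d) {x x' : ℝ} (h : x ≤ x') :
    A4T d x - (x' - x) / (1 + d) ≤ A4T d x' := by
  have h1 : (x + d) / d ≤ (x' + d) / d := by
    apply div_le_div_of_nonneg_right _ hd.le; linarith
  have h2 : (1 + d - x) / (1 + d) - (x' - x) / (1 + d) = (1 + d - x') / (1 + d) := by
    rw [← sub_div]; congr 1; ring
  have h0 : 0 ≤ (x' - x) / (1 + d) := div_nonneg (by linarith) (by linarith)
  have hm : min ((x + d) / d) ((1 + d - x) / (1 + d)) - (x' - x) / (1 + d)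
      ≤ min ((x' + d) / d) ((1 + d - x') / (1 + d)) := by
    refine le_min ?_ ?_
    · have := min_le_left ((x + d) / d) ((1 + d - x) / (1 + d))
      linarith
    · have := min_le_right ((x + d) / d) ((1 + d - x) / (1 + d))
      linarith
  unfold A4T
  rw [sub_le_iff_le_add]
  refine max_le ?_ ?_
  · have := le_max_left 0 (min ((x' + d) / d) ((1 + d - x') / (1 + d)))
    linarith
  · have := le_max_right 0 (min ((x' + d) / d) ((1 + d - x') / (1 + d)))
    linarith

private noncomputable def A4f (d m x : ℝ) : ℝ := x + A4cl m * A4T d x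

private theorem A4f_lower {d : ℝ} (hd : 0 < d) (m : ℝ) {x x' : ℝ} (h : x ≤ x') :
    d / (1 + d) * (x' - x) ≤ A4f d m x' - A4f d m x := by
  have h1 := A4T_lower hd h
  have h2 := A4cl_nonneg m
  have h3 := A4cl_le m
  have h4 : A4cl m * (A4T d x - A4T d x') ≤ (x' - x) / (1 + d) := by
    have h0 : 0 ≤ (x' - x) / (1 + d) := div_nonneg (by linarith) (by linarith)
    calc A4cl m * (A4T d x - A4T d x') ≤ A4cl m * ((x' - x) / (1 + d)) :=
          mul_le_mul_of_nonneg_left (by linarith) h2
      _ ≤ 1 * ((x' - x) / (1 + d)) := mul_le_mul_of_nonneg_right h3 h0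
      _ = _ := one_mul _
  have h5 : d / (1 + d) * (x' - x) = (x' - x) - (x' - x) / (1 + d) := by
    have : (1 + d) ≠ 0 := by linarith
    field_simp; ring
  unfold A4f
  rw [h5]
  nlinarith

private theorem A4f_abs {d : ℝ} (hd : 0 < d) (m x x' : ℝ) :
    d / (1 + d) * |x' - x| ≤ |A4f d m x' - A4f d m x| := by
  rcases le_total x x' with h | h
  · rw [abs_of_nonneg (by linarith : 0 ≤ x' - x)]
    exact (A4f_lower hd m h).trans (le_abs_self _)
  · rw [abs_sub_comm x' x, abs_of_nonneg (by linarith : 0 ≤ x - x'), abs_sub_comm]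
    exact (A4f_lower hd m h).trans (le_abs_self _)

private theorem A4f_cont (d m : ℝ) : Continuous (A4f d m) := by
  unfold A4f
  exact continuous_id.add (continuous_const.mul (A4T_cont d))

private theorem A4f_cont2 (d : ℝ) : Continuous (fun p : ℝ × ℝ => A4f d p.1 p.2) := by
  unfold A4f
  exact continuous_snd.add
    ((A4cl_cont.comp continuous_fst).mul ((A4T_cont d).comp continuous_snd))

private theorem A4f_surj {d : ℝ} (hd : 0 < d) (m : ℝ) : Function.Surjective (A4f d m) := by
  refine (A4f_cont d m).surjective ?_ ?_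
  · refine tendsto_atTop_mono (fun x => ?_) tendsto_id
    have := mul_nonneg (A4cl_nonneg m) (A4T_nonneg d x)
    simp only [A4f, id]; linarith
  · have h0 : Tendsto (fun x : ℝ => x + 1) atBot atBot :=
      tendsto_atBot_add_const_right _ (1 : ℝ) tendsto_id
    refine tendsto_atBot_mono (fun x => ?_) h0
    have : A4cl m * A4T d x ≤ 1 * 1 :=
      mul_le_mul (A4cl_le m) (A4T_le hd x) (A4T_nonneg d x) zero_le_one
    simp only [A4f]; linarith

private theorem A4inv {d : ℝ} (hd : 0 < d) :
    ∃ g : ℝ → ℝ → ℝ, Continuous (fun p : ℝ × ℝ => g p.1 p.2) ∧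
      (∀ m x, g m (A4f d m x) = x) ∧ (∀ m X, A4f d m (g m X) = X) := by
  choose g hg using fun m => A4f_surj hd m
  have hκ : 0 < d / (1 + d) := div_pos hd (by linarith)
  refine ⟨g, ?_, ?_, hg⟩
  · rw [continuous_iff_continuousAt]
    intro p
    rw [ContinuousAt, tendsto_iff_dist_tendsto_zero]
    have hb : ∀ q : ℝ × ℝ, dist (g q.1 q.2) (g p.1 p.2)
        ≤ (|q.2 - p.2| + |A4cl q.1 - A4cl p.1|) / (d / (1 + d)) := by
      intro q
      rw [le_div_iff₀ hκ, Real.dist_eq, mul_comm]
      have h1 := A4f_abs hd q.1 (g p.1 p.2) (g q.1 q.2)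
      have h2 : A4f d q.1 (g q.1 q.2) - A4f d q.1 (g p.1 p.2)
          = (q.2 - p.2) - (A4cl q.1 - A4cl p.1) * A4T d (g p.1 p.2) := by
        have h3 := hg p.1 p.2
        have h4 : A4f d q.1 (g p.1 p.2)
            = A4f d p.1 (g p.1 p.2) + (A4cl q.1 - A4cl p.1) * A4T d (g p.1 p.2) := by
          simp only [A4f]; ring
        rw [hg, h4, h3]; ring
      have h5 : |(A4cl q.1 - A4cl p.1) * A4T d (g p.1 p.2)| ≤ |A4cl q.1 - A4cl p.1| := by
        rw [abs_mul, abs_of_nonneg (A4T_nonneg d _)]
        have := mul_le_mul_of_nonneg_left (A4T_le hd (g p.1 p.2))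
          (abs_nonneg (A4cl q.1 - A4cl p.1))
        linarith
      rw [h2] at h1
      have h6 := abs_sub (q.2 - p.2) ((A4cl q.1 - A4cl p.1) * A4T d (g p.1 p.2))
      linarith
    refine squeeze_zero (fun _ => dist_nonneg) hb ?_
    have hc : Continuous (fun q : ℝ × ℝ =>
        (|q.2 - p.2| + |A4cl q.1 - A4cl p.1|) / (d / (1 + d))) := by
      have := A4cl_cont
      fun_prop
    have h7 := hc.tendsto p
    simpa using h7
  · intro m x
    have h1 := A4f_abs hd m x (g m (A4f d m x))
    rw [hg, sub_self, abs_zero] at h1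
    have h2 : |g m (A4f d m x) - x| ≤ 0 := by
      by_contra hcon
      push Not at hcon
      have := mul_pos hκ hcon
      linarith
    have h3 := abs_nonpos_iff.1 h2
    linarith

private noncomputable def A4mu (d y : ℝ) : ℝ := max 0 (1 - |y| / d)

private theorem A4mu_cont (d : ℝ) : Continuous (A4mu d) := by
  unfold A4mu; fun_prop

private theorem A4mu_zero (d : ℝ) : A4mu d 0 = 1 := by simp [A4mu]

private theorem A4mu_supp {d : ℝ} (hd : 0 < d) {y : ℝ} (h : 0 < A4mu d y) : |y| < d := by
  by_contra hcon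
  push Not at hcon
  have : 1 ≤ |y| / d := (one_le_div hd).2 hcon
  have h2 : A4mu d y = 0 := max_eq_left (by linarith)
  linarith

private theorem A4push0 {d : ℝ} (hd : 0 < d) :
    ∃ Ψ Ψ' : ℝ → ℂ → ℂ, Continuous (fun p : ℝ × ℂ => Ψ p.1 p.2) ∧
      Continuous (fun p : ℝ × ℂ => Ψ' p.1 p.2) ∧ (∀ t z, Ψ t (Ψ' t z) = z) ∧
      (∀ t z, Ψ' t (Ψ t z) = z) ∧ (∀ z, Ψ 0 z = z) ∧ Ψ 1 0 = 1 ∧ (∀ z, (Ψ 1 z).im = z.im) ∧
      (∀ s t : ℝ, s < t → (Ψ 1 s).re < (Ψ 1 t).re) ∧
      (∀ z, Ψ 1 z ≠ z → -d < z.re ∧ z.re < 1 + d ∧ |z.im| < d) := by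
  obtain ⟨g, hgc, hg1, hg2⟩ := A4inv hd
  have hm : Continuous (fun p : ℝ × ℂ => A4cl p.1 * A4mu d p.2.im) :=
    (A4cl_cont.comp continuous_fst).mul
      ((A4mu_cont d).comp (Complex.continuous_im.comp continuous_snd))
  have hre : Continuous (fun p : ℝ × ℂ => p.2.re) := Complex.continuous_re.comp continuous_snd
  have him : Continuous (fun p : ℝ × ℂ => p.2.im) := Complex.continuous_im.comp continuous_snd
  have hmk : ∀ {F : ℝ × ℂ → ℝ}, Continuous F →
      Continuous (fun p : ℝ × ℂ => (⟨F p, p.2.im⟩ : ℂ)) := by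
    intro F hF
    have : (fun p : ℝ × ℂ => (⟨F p, p.2.im⟩ : ℂ))
        = fun p : ℝ × ℂ => ((F p : ℝ) : ℂ) + ((p.2.im : ℝ) : ℂ) * I := by
      funext p
      exact Complex.mk_eq_add_mul_I _ _
    rw [this]
    exact (Complex.continuous_ofReal.comp hF).add
      ((Complex.continuous_ofReal.comp him).mul continuous_const)
  refine ⟨fun t z => ⟨A4f d (A4cl t * A4mu d z.im) z.re, z.im⟩,
    fun t z => ⟨g (A4cl t * A4mu d z.im) z.re, z.im⟩,
    hmk ((A4f_cont2 d).comp (hm.prodMk hre)), hmk (hgc.comp (hm.prodMk hre)), ?_, ?_, ?_, ?_, ?_,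
    ?_, ?_⟩
  · intro t z
    refine Complex.ext ?_ rfl
    exact hg2 _ _
  · intro t z
    refine Complex.ext ?_ rfl
    exact hg1 _ _
  · intro z
    refine Complex.ext ?_ rfl
    simp [A4f, A4cl_zero]
  · refine Complex.ext ?_ ?_
    · simp [A4f, A4cl_one, A4mu_zero, A4T_zero hd]
    · simp
  · intro z
    rfl
  · intro s t hst
    have h1 := A4f_lower hd (A4cl 1 * A4mu d 0) hst.le
    have h2 : 0 < d / (1 + d) * (t - s) :=
      mul_pos (div_pos hd (by linarith)) (by linarith)
    simp only [Complex.ofReal_re, Complex.ofReal_im]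
    linarith
  · intro z hz
    have h1 : A4cl (A4cl 1 * A4mu d z.im) * A4T d z.re ≠ 0 := by
      intro h0
      apply hz
      refine Complex.ext ?_ rfl
      simp only [A4f, h0, add_zero]
    have h2 := left_ne_zero_of_mul h1
    have h3 := right_ne_zero_of_mul h1
    have h4 := A4cl_of _ h2
    rw [A4cl_one, one_mul] at h4
    exact ⟨(A4T_supp hd h3).1, (A4T_supp hd h3).2, A4mu_supp hd h4⟩

theorem push {u v : ℂ} (huv : u ≠ v) {ε : ℝ} (hε : 0 < ε) :
    ∃ ψ : ℂ ≃ₜ ℂ, HomIso ψ ∧ HomIso ψ.symm ∧ ψ u = v ∧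
      (∀ p, ε ≤ infDist p (segment ℝ u v) → ψ p = p) ∧
      (∀ p, ((ψ p - u) / (v - u)).im = ((p - u) / (v - u)).im) ∧
      (∀ s t : ℝ, s < t → ((ψ (u + s * (v - u)) - u) / (v - u)).re
        < ((ψ (u + t * (v - u)) - u) / (v - u)).re) := by
  have hw : v - u ≠ 0 := sub_ne_zero.2 huv.symm
  have hL : 0 < ‖v - u‖ := norm_pos_iff.2 hw
  obtain ⟨Ψ, Ψ', hc, hc', h1, h2, h3, h4, h5, h6, h7⟩ :=
    A4push0 (d := ε / (4 * ‖v - u‖)) (div_pos hε (by linarith))
  set d : ℝ := ε / (4 * ‖v - u‖) with hd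
  have hd0 : 0 < d := div_pos hε (by linarith)
  have h3' : ∀ z, Ψ' 0 z = z := by
    intro z
    have := h2 0 z
    rwa [h3] at this
  have hs1 : ∀ z : ℂ, (u + (v - u) * z - u) / (v - u) = z := by
    intro z; field_simp; ring
  have hs2 : ∀ p : ℂ, u + (v - u) * ((p - u) / (v - u)) = p := by
    intro p; field_simp; ring
  have hcont : ∀ {F : ℝ → ℂ → ℂ}, Continuous (fun p : ℝ × ℂ => F p.1 p.2) →
      Continuous (fun p : ℝ × ℂ => u + (v - u) * F p.1 ((p.2 - u) / (v - u))) := by
    intro F hF
    have : Continuous (fun p : ℝ × ℂ => F p.1 ((p.2 - u) / (v - u))) :=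
      hF.comp (continuous_fst.prodMk ((continuous_snd.sub continuous_const).div_const _))
    exact continuous_const.add (continuous_const.mul this)
  have hslice : ∀ {F : ℝ × ℂ → ℂ}, Continuous F → Continuous (fun p : ℂ => F (1, p)) := by
    intro F hF
    exact hF.comp (continuous_const.prodMk continuous_id)
  let ψ : ℂ ≃ₜ ℂ :=
    { toFun := fun p => u + (v - u) * Ψ 1 ((p - u) / (v - u))
      invFun := fun p => u + (v - u) * Ψ' 1 ((p - u) / (v - u))
      left_inv := by
        intro p
        simp only [hs1, h2, hs2]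
      right_inv := by
        intro p
        simp only [hs1, h1, hs2]
      continuous_toFun := hslice (hcont hc)
      continuous_invFun := hslice (hcont hc') }
  have hψ : ∀ p, ψ p = u + (v - u) * Ψ 1 ((p - u) / (v - u)) := fun p => rfl
  have hinj : ∀ {F F' : ℝ → ℂ → ℂ}, (∀ t z, F' t (F t z) = z) →
      ∀ t, Function.Injective (fun p => u + (v - u) * F t ((p - u) / (v - u))) := by
    intro F F' hF t
    refine Function.LeftInverse.injective
      (g := fun p => u + (v - u) * F' t ((p - u) / (v - u))) ?_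
    intro p
    simp only [hs1, hF, hs2]
  refine ⟨ψ, ?_, ?_, ?_, ?_, ?_, ?_⟩
  · refine ⟨fun t p => u + (v - u) * Ψ t ((p - u) / (v - u)), hcont hc, hinj h2, ?_, ?_⟩
    · intro z; simp only [h3, hs2]
    · intro z; rfl
  · refine ⟨fun t p => u + (v - u) * Ψ' t ((p - u) / (v - u)), hcont hc', hinj h1, ?_, ?_⟩
    · intro z; simp only [h3', hs2]
    · intro z; rfl
  · rw [hψ, sub_self, zero_div, h4]; ring
  · intro p hp
    by_contra hne
    set z : ℂ := (p - u) / (v - u) with hz
    have hzne : Ψ 1 z ≠ z := by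
      intro h0
      apply hne
      rw [hψ, ← hz, h0, hz, hs2]
    obtain ⟨ha, hb, hcc⟩ := h7 z hzne
    -- nearest point of the segment
    set x0 : ℝ := max 0 (min z.re 1) with hx0
    have hx00 : 0 ≤ x0 := le_max_left _ _
    have hx01 : x0 ≤ 1 := max_le zero_le_one (min_le_right _ _)
    have hx0d : |z.re - x0| ≤ d := by
      rw [abs_le]
      constructor
      · rcases le_total z.re 0 with h | h
        · have : x0 = 0 := by
            rw [hx0, max_eq_left]; exact (min_le_left _ _).trans h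
          rw [this]; linarith
        · have : x0 ≤ z.re := by
            rw [hx0]; exact max_le h (min_le_left _ _)
          linarith
      · rcases le_total z.re 1 with h | h
        · have : z.re ≤ x0 := by
            rw [hx0, min_eq_left h]; exact le_max_right _ _
          linarith
        · have : x0 = 1 := by
            rw [hx0, min_eq_right h]; simp
          rw [this]; linarith
    have hmem : u + (v - u) * x0 ∈ segment ℝ u v := by
      rw [segment_eq_image']
      refine ⟨x0, ⟨hx00, hx01⟩, ?_⟩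
      simp only [Complex.real_smul]; ring
    have hdist : dist p (u + (v - u) * x0) ≤ ‖v - u‖ * (2 * d) := by
      have e : p - (u + (v - u) * x0) = (v - u) * (z - x0) := by
        have := hs2 p
        rw [← hz] at this
        rw [← this]; ring_nf
      rw [Complex.dist_eq, e, norm_mul]
      refine mul_le_mul_of_nonneg_left ?_ hL.le
      refine (Complex.norm_le_abs_re_add_abs_im _).trans ?_
      simp only [Complex.sub_re, Complex.ofReal_re, Complex.sub_im, Complex.ofReal_im, sub_zero]
      linarith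
    have h8 : ‖v - u‖ * (2 * d) = ε / 2 := by
      rw [hd]; field_simp; norm_num
    have h9 := infDist_le_dist_of_mem (x := p) hmem
    linarith
  · intro p
    rw [hψ, hs1, h5]
  · intro s t hst
    rw [hψ, hψ, hs1, hs1]
    have e : ∀ r : ℝ, (u + r * (v - u) - u) / (v - u) = r := by
      intro r; field_simp; ring
    rw [e, e]
    exact h6 s t hst

end Pool.Agent.H25.PR
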