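import Pool.Agent.H25.PR.DefsA

/-!
# PR module A5: easy facts on `HomIso`, iterates and free compact sets (120 lines)

`homIso_comp`: `H t ∘ G t`. `homIso_conj`: `k ∘ H t ∘ k⁻¹`. `homIso_iterate`: induction.
`free_nbhd`: `K` compact, `h` continuous, `h '' K` disjoint from `K`: the compact sets `K` and `h '' K` have
positive distance, `h` is uniformly continuous near `K`.
`avoid_nbhd`: `K`, `K'` compact disjoint.
`noFix_push`: if `ψ p = p` outside `N`, `ψ` injective (so `ψ` maps `N` to `N`), `h` maps `N` off `N`: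
if `ψ (h y) = y` then `h y ∈ N` (else `h y = y`), so `y = ψ (h y) ∈ N`, contradiction.
-/

open Complex Set Metric Topology Filter

namespace Pool.Agent.H25.PR

theorem homIso_id : HomIso (fun z => z) :=
  ⟨fun _ z => z, continuous_snd, fun _ _ _ h => h, fun _ => rfl, fun _ => rfl⟩

theorem homIso_comp {g h : ℂ → ℂ} (hg : HomIso g) (hh : HomIso h) : HomIso (g ∘ h) := by
  obtain ⟨G, hG, hGi, hG0, hG1⟩ := hg
  obtain ⟨H, hH, hHi, hH0, hH1⟩ := hh
  refine ⟨fun t z => G t (H t z), ?_, ?_, ?_, ?_⟩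
  · exact hG.comp (continuous_fst.prodMk hH)
  · intro t
    exact (hGi t).comp (hHi t)
  · intro z
    simp only [hH0, hG0]
  · intro z
    simp only [hH1, hG1, Function.comp_apply]

theorem homIso_conj {h : ℂ → ℂ} (hh : HomIso h) (k : ℂ ≃ₜ ℂ) :
    HomIso (fun z => k (h (k.symm z))) := by
  obtain ⟨H, hH, hHi, hH0, hH1⟩ := hh
  refine ⟨fun t z => k (H t (k.symm z)), ?_, ?_, ?_, ?_⟩
  · exact k.continuous.comp
      (hH.comp (continuous_fst.prodMk (k.symm.continuous.comp continuous_snd)))
  · intro t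
    exact k.injective.comp ((hHi t).comp k.symm.injective)
  · intro z
    simp only [hH0, Homeomorph.apply_symm_apply]
  · intro z
    simp only [hH1]

theorem homIso_iterate {h : ℂ → ℂ} (hh : HomIso h) (n : ℕ) : HomIso (h^[n]) := by
  induction n with
  | zero => exact homIso_id
  | succ n ih => exact homIso_comp ih hh

theorem homIso_translation (a : ℂ) : HomIso (fun z => z + a) := by
  refine ⟨fun t z => z + (t : ℂ) * a, ?_, ?_, ?_, ?_⟩
  · fun_prop
  · intro t z w h
    exact add_right_cancel h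
  · intro z
    simp
  · intro z
    simp

/-- a free compact set has a free neighbourhood -/
theorem free_nbhd {h : ℂ → ℂ} (hc : Continuous h) {K : Set ℂ} (hK : IsCompact K)
    (hKn : K.Nonempty) (hf : ∀ z ∈ K, h z ∉ K) :
    ∃ ε : ℝ, 0 < ε ∧ ∀ z, infDist z K < ε → ¬ infDist (h z) K < ε := by
  obtain ⟨R, hR⟩ := hK.isBounded.subset_closedBall 0
  have hcl : IsClosed K := hK.isClosed
  let g : ℂ → ℝ := fun z => infDist z K + infDist (h z) K
  have hg : Continuous g :=
    (continuous_infDist_pt K).add ((continuous_infDist_pt K).comp hc)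
  have hpos : ∀ z, 0 < g z := by
    intro z
    have h1 : 0 ≤ infDist z K := infDist_nonneg
    have h2 : 0 ≤ infDist (h z) K := infDist_nonneg
    by_contra hcon
    have h3 : g z = infDist z K + infDist (h z) K := rfl
    have h4 : infDist z K = 0 := by linarith
    have h5 : infDist (h z) K = 0 := by linarith
    exact hf z ((hcl.mem_iff_infDist_zero hKn).2 h4) ((hcl.mem_iff_infDist_zero hKn).2 h5)
  have hball : IsCompact (closedBall (0 : ℂ) (R + 1)) := isCompact_closedBall 0 (R + 1)
  have hne : (closedBall (0 : ℂ) (R + 1)).Nonempty := by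
    obtain ⟨z, hz⟩ := hKn
    exact ⟨z, closedBall_subset_closedBall (by linarith) (hR hz)⟩
  obtain ⟨z0, -, hz0⟩ := hball.exists_isMinOn hne hg.continuousOn
  refine ⟨min 1 (g z0 / 2), lt_min one_pos (half_pos (hpos z0)), ?_⟩
  intro z hz hhz
  obtain ⟨y, hy, hzy⟩ := (infDist_lt_iff hKn).1 (lt_of_lt_of_le hz (min_le_left _ _))
  have hzb : z ∈ closedBall (0 : ℂ) (R + 1) := by
    rw [mem_closedBall]
    have := mem_closedBall.1 (hR hy)
    linarith [dist_triangle z y 0]
  have h1 : g z0 ≤ g z := hz0 hzb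
  have h2 : g z = infDist z K + infDist (h z) K := rfl
  have h3 := lt_of_lt_of_le hz (min_le_right _ _)
  have h4 := lt_of_lt_of_le hhz (min_le_right _ _)
  linarith

theorem avoid_nbhd {K K' : Set ℂ} (hK : IsCompact K) (hKn : K.Nonempty) (hK' : IsCompact K')
    (hd : Disjoint K K') :
    ∃ ε : ℝ, 0 < ε ∧ ∀ z ∈ K', ¬ infDist z K < ε := by
  rcases K'.eq_empty_or_nonempty with rfl | hne
  · exact ⟨1, one_pos, fun z hz => absurd hz (by simp)⟩
  obtain ⟨z0, hz0, hmin⟩ := hK'.exists_isMinOn hne (continuous_infDist_pt K).continuousOn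
  have hz0K : z0 ∉ K := fun h => Set.disjoint_left.1 hd h hz0
  refine ⟨infDist z0 K, (hK.isClosed.notMem_iff_infDist_pos hKn).1 hz0K, ?_⟩
  intro z hz
  exact not_lt.2 (hmin hz)

theorem noFix_push {h ψ : ℂ → ℂ} (h1 : NoFix h) (hψ : Function.Injective ψ) {N : Set ℂ}
    (hN : ∀ p, p ∉ N → ψ p = p) (hf : ∀ z ∈ N, h z ∉ N) : NoFix (fun z => ψ (h z)) := by
  intro y hy
  change ψ (h y) = y at hy
  by_cases hm : h y ∈ N
  · have h2 : y ∈ N := by
      by_contra hcon
      have h3 := hN y hcon
      have h4 : h y = y := hψ (hy.trans h3.symm)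
      exact h1 y h4
    exact hf y h2 hm
  · rw [hN _ hm] at hy
    exact h1 y hy

/-- `ψ` maps the complement of its support to itself and the support to itself -/
theorem push_mem {ψ : ℂ → ℂ} (hψ : Function.Injective ψ) {N : Set ℂ}
    (hN : ∀ p, p ∉ N → ψ p = p) {p : ℂ} (hp : p ∈ N) : ψ p ∈ N := by
  by_contra hcon
  have h1 := hN _ hcon
  have h2 := hψ h1
  rw [h2] at hcon
  exact hcon hp

end Pool.Agent.H25.PR
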