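import Pool.Agent.H25.PR.A4
import Pool.Agent.H25.PR.A5

/-!
# PR module A6: a translation arc through a given point (180 lines)

`h` homeomorphism in the class, without fixed point, `x` a point. There are a homeomorphism `g`
conjugate to `h` by a homeomorphism `k` with `HomIso`, and `z` such that with
`w = g z`, `z ≠ w`, the midpoint of `[z,w]` is `k x`, and
(a) for `0 < b < 1`: `g (z + b(w-z))` is not on the segment `[z,w]`;
(b) if `g w` is on the segment then `g w = z`  [and then `g (g z) = z`];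
(c) `z` itself goes to `w`.
Proof. `m y = max ‖y - x‖ ‖h y - x‖` is continuous and tends to infinity, so it has a minimiser `z`
(`IsCompact.exists_isMinOn` on a big closed ball); `ρ = m z > 0` (else `z = x = h z`).
(i) `‖y-x‖ < ρ → ρ < ‖h y - x‖` : `ρ ≤ ‖h y - x‖` because `m y ≥ ρ`; if `‖h y - x‖ = ρ`, move
`h y` towards `x`: `y' = h.symm (h y + ε (x - h y))` is near `y`, so `m y' < ρ`, contradiction.
(ii) `‖y-x‖ = ρ → ρ ≤ ‖h y - x‖`: else for `y' = y + ε (x-y)` with small `ε`, `m y' < ρ`.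
(iii) so `‖z - x‖ = ρ` and `‖h z - x‖ = ρ` (if `‖z-x‖ < ρ` then `‖h z - x‖ > ρ` by (i), impossible;
then by (ii)).
Let `w = h z ≠ z` and `x'` the midpoint of `[z,w]`: `‖x' - x‖ < ρ` (strict convexity). If `x' ≠ x` take a
push `ψ` with `ψ x = x'` supported in the open ball (the segment `[x,x']` is compact in the open ball);
if `x' = x` take `ψ = id`. `g = ψ ∘ h ∘ ψ.symm`, `k = ψ`. `ψ` is the identity outside the open ball, so
`g z = ψ (h z) = h z = w`. For `‖y - x‖ < ρ`: `‖ψ.symm y - x‖ < ρ`, so `h` of it is outside the closed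
ball, so `g y` is outside the closed ball. For `‖y-x‖ = ρ`: `g y = h y` if `‖h y - x‖ ≥ ρ` (by (ii)).
(a): points with `0<b<1` are in the open ball, so `g` of them is outside the closed ball, but the
segment is inside. (b): `g w` has norm distance `≥ ρ` from `x`; the only points of the segment with
distance `≥ ρ` are `z`, `w`; and `g w = w` would be a fixed point of `g`, i.e. of `h`.
-/

open Complex Set Metric Topology Filter

namespace Pool.Agent.H25.PR

private theorem A6_strict {z w x : ℂ} {ρ : ℝ} (hz : ‖z - x‖ ≤ ρ) (hw : ‖w - x‖ ≤ ρ) (hne : z ≠ w)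
    {b : ℝ} (hb0 : 0 < b) (hb1 : b < 1) : ‖z + b * (w - z) - x‖ < ρ := by
  have h := norm_combo_lt_of_ne (a := 1 - b) (b := b) hz hw
    (fun h => hne (sub_left_injective h)) (by linarith) hb0 (by ring)
  have e : z + b * (w - z) - x = (1 - b) • (z - x) + b • (w - x) := by
    simp only [Complex.real_smul]
    push_cast
    ring
  rw [e]
  exact h

private theorem A6_weak {z w x : ℂ} {ρ : ℝ} (hz : ‖z - x‖ ≤ ρ) (hw : ‖w - x‖ ≤ ρ)
    {a : ℝ} (ha : a ∈ Icc (0 : ℝ) 1) : ‖z + a * (w - z) - x‖ ≤ ρ := by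
  have e : z + a * (w - z) - x = ((1 - a : ℝ) : ℂ) * (z - x) + (a : ℂ) * (w - x) := by
    push_cast
    ring
  rw [e]
  refine (norm_add_le _ _).trans ?_
  rw [norm_mul, norm_mul, Complex.norm_real, Complex.norm_real, Real.norm_eq_abs,
    Real.norm_eq_abs, abs_of_nonneg (by linarith [ha.2] : (0 : ℝ) ≤ 1 - a), abs_of_nonneg ha.1]
  nlinarith [ha.1, ha.2, mul_le_mul_of_nonneg_left hz (by linarith [ha.2] : (0 : ℝ) ≤ 1 - a),
    mul_le_mul_of_nonneg_left hw ha.1]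

private theorem A6_min (h : ℂ ≃ₜ ℂ) (h1 : NoFix h) (x : ℂ) :
    ∃ (z : ℂ) (ρ : ℝ), 0 < ρ ∧ ‖z - x‖ = ρ ∧ ‖h z - x‖ = ρ ∧
      (∀ y, ‖y - x‖ < ρ → ρ < ‖h y - x‖) ∧ (∀ y, ‖y - x‖ = ρ → ρ ≤ ‖h y - x‖) := by
  have hcn : Continuous (fun y : ℂ => ‖y - x‖) := (continuous_id.sub continuous_const).norm
  have hch : Continuous (fun y : ℂ => ‖h y - x‖) := (h.continuous.sub continuous_const).norm
  have hm : Continuous (fun y : ℂ => max ‖y - x‖ ‖h y - x‖) := hcn.max hch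
  have hT : Tendsto (fun y : ℂ => max ‖y - x‖ ‖h y - x‖) (cocompact ℂ) atTop := by
    have h2 : Tendsto (fun y : ℂ => ‖y‖ - ‖x‖) (cocompact ℂ) atTop :=
      tendsto_atTop_add_const_right _ _ (tendsto_norm_cocompact_atTop)
    refine tendsto_atTop_mono (fun y => ?_) h2
    exact (norm_sub_norm_le y x).trans (le_max_left _ _)
  obtain ⟨z, hz⟩ := hm.exists_forall_le hT
  set ρ : ℝ := max ‖z - x‖ ‖h z - x‖ with hρ
  have hρ0 : 0 ≤ ρ := (norm_nonneg _).trans (le_max_left _ _)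
  have hρpos : 0 < ρ := by
    rcases hρ0.lt_or_eq with h2 | h2
    · exact h2
    · exfalso
      have h3 : ‖z - x‖ ≤ 0 := by rw [h2]; exact le_max_left _ _
      have h4 : ‖h z - x‖ ≤ 0 := by rw [h2]; exact le_max_right _ _
      have h5 : z = x := by
        rw [← sub_eq_zero]; exact norm_le_zero_iff.1 h3
      have h6 : h z = x := by
        rw [← sub_eq_zero]; exact norm_le_zero_iff.1 h4
      exact h1 z (h6.trans h5.symm)
  have hi : ∀ y, ‖y - x‖ < ρ → ρ < ‖h y - x‖ := by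
    intro y hy
    by_contra hcon
    push Not at hcon
    have h2 : ‖h y - x‖ = ρ := by
      refine le_antisymm hcon ?_
      rcases le_max_iff.1 (hz y) with h3 | h3
      · exact absurd hy (not_lt.2 h3)
      · exact h3
    have hcont : Continuous (fun ε : ℝ => ‖h.symm (h y + (ε : ℂ) * (x - h y)) - x‖) := by
      refine (Continuous.sub (h.symm.continuous.comp ?_) continuous_const).norm
      fun_prop
    have h0 : ‖h.symm (h y + ((0 : ℝ) : ℂ) * (x - h y)) - x‖ < ρ := by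
      simpa using hy
    have hev : ∀ᶠ (ε : ℝ) in 𝓝 (0 : ℝ), ‖h.symm (h y + (ε : ℂ) * (x - h y)) - x‖ < ρ :=
      (hcont.tendsto 0).eventually_lt_const h0
    have hev2 : ∀ᶠ (ε : ℝ) in 𝓝[>] (0 : ℝ),
        ‖h.symm (h y + (ε : ℂ) * (x - h y)) - x‖ < ρ ∧ 0 < ε ∧ ε < 1 := by
      filter_upwards [mem_nhdsWithin_of_mem_nhds hev, Ioo_mem_nhdsGT (zero_lt_one' ℝ)] with ε h3 h4
      exact ⟨h3, h4.1, h4.2⟩
    obtain ⟨ε, h3, h4, h5⟩ := hev2.exists
    have h6 := hz (h.symm (h y + (ε : ℂ) * (x - h y)))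
    rw [Homeomorph.apply_symm_apply] at h6
    have h7 : ‖h y + (ε : ℂ) * (x - h y) - x‖ < ρ := by
      have e : h y + (ε : ℂ) * (x - h y) - x = ((1 - ε : ℝ) : ℂ) * (h y - x) := by
        push_cast
        ring
      rw [e, norm_mul, Complex.norm_real, Real.norm_eq_abs,
        abs_of_nonneg (by linarith : (0 : ℝ) ≤ 1 - ε), h2]
      nlinarith
    exact absurd h6 (not_le.2 (max_lt h3 h7))
  have hii : ∀ y, ‖y - x‖ = ρ → ρ ≤ ‖h y - x‖ := by
    intro y hy
    by_contra hcon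
    push Not at hcon
    have hcont : Continuous (fun ε : ℝ => ‖h (y + (ε : ℂ) * (x - y)) - x‖) := by
      refine (Continuous.sub (h.continuous.comp ?_) continuous_const).norm
      fun_prop
    have h0 : ‖h (y + ((0 : ℝ) : ℂ) * (x - y)) - x‖ < ρ := by
      simpa using hcon
    have hev : ∀ᶠ (ε : ℝ) in 𝓝 (0 : ℝ), ‖h (y + (ε : ℂ) * (x - y)) - x‖ < ρ :=
      (hcont.tendsto 0).eventually_lt_const h0
    have hev2 : ∀ᶠ (ε : ℝ) in 𝓝[>] (0 : ℝ),
        ‖h (y + (ε : ℂ) * (x - y)) - x‖ < ρ ∧ 0 < ε ∧ ε < 1 := by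
      filter_upwards [mem_nhdsWithin_of_mem_nhds hev, Ioo_mem_nhdsGT (zero_lt_one' ℝ)] with ε h3 h4
      exact ⟨h3, h4.1, h4.2⟩
    obtain ⟨ε, h3, h4, h5⟩ := hev2.exists
    have h6 := hz (y + (ε : ℂ) * (x - y))
    have h7 : ‖y + (ε : ℂ) * (x - y) - x‖ < ρ := by
      have e : y + (ε : ℂ) * (x - y) - x = ((1 - ε : ℝ) : ℂ) * (y - x) := by
        push_cast
        ring
      rw [e, norm_mul, Complex.norm_real, Real.norm_eq_abs,
        abs_of_nonneg (by linarith : (0 : ℝ) ≤ 1 - ε), hy]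
      nlinarith
    exact absurd h6 (not_le.2 (max_lt h7 h3))
  have hz1 : ‖z - x‖ ≤ ρ := le_max_left _ _
  have hz2 : ‖h z - x‖ ≤ ρ := le_max_right _ _
  have hz3 : ‖z - x‖ = ρ := by
    refine le_antisymm hz1 ?_
    by_contra hcon
    push Not at hcon
    exact absurd (hi z hcon) (not_lt.2 hz2)
  exact ⟨z, ρ, hρpos, hz3, le_antisymm hz2 (hii z hz3), hi, hii⟩

theorem exists_arc (h : ℂ ≃ₜ ℂ) (hI : HomIso h) (h1 : NoFix h) (x : ℂ) :
    ∃ (k g : ℂ ≃ₜ ℂ) (z : ℂ), (∀ y, g y = k (h (k.symm y))) ∧ HomIso g ∧ NoFix g ∧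
      k x = z + (1 / 2 : ℝ) * (g z - z) ∧
      (∀ b : ℝ, 0 < b → b < 1 → ∀ a ∈ Icc (0 : ℝ) 1,
        g (z + b * (g z - z)) ≠ z + a * (g z - z)) ∧
      (∀ a ∈ Icc (0 : ℝ) 1, g (g z) = z + a * (g z - z) → g (g z) = z) := by
  obtain ⟨z, ρ, hρ, hz1, hz2, hi, hii⟩ := A6_min h h1 x
  have hzw : z ≠ h z := fun h2 => h1 z h2.symm
  have hx' : ‖z + ((1 / 2 : ℝ) : ℂ) * (h z - z) - x‖ < ρ :=
    A6_strict hz1.le hz2.le hzw (by norm_num) (by norm_num)
  obtain ⟨ψ, hψx, hψ⟩ : ∃ ψ : ℂ ≃ₜ ℂ, ψ x = z + ((1 / 2 : ℝ) : ℂ) * (h z - z) ∧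
      ∀ p, ρ ≤ ‖p - x‖ → ψ p = p := by
    by_cases hxx : x = z + ((1 / 2 : ℝ) : ℂ) * (h z - z)
    · exact ⟨Homeomorph.refl ℂ, hxx, fun p _ => rfl⟩
    · obtain ⟨ψ, -, -, h2, h3, -, -⟩ := push hxx (sub_pos.2 hx')
      refine ⟨ψ, h2, fun p hp => h3 p ?_⟩
      refine (le_infDist ⟨x, left_mem_segment ℝ _ _⟩).2 ?_
      intro q hq
      have h4 : ‖q - x‖ ≤ ‖z + ((1 / 2 : ℝ) : ℂ) * (h z - z) - x‖ := by
        rw [segment_eq_image'] at hq
        obtain ⟨θ, hθ, rfl⟩ := hq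
        rw [add_sub_cancel_left, norm_smul, Real.norm_eq_abs, abs_of_nonneg hθ.1]
        have := norm_nonneg (z + ((1 / 2 : ℝ) : ℂ) * (h z - z) - x)
        nlinarith [hθ.2]
      have h5 : ‖p - x‖ ≤ dist p q + ‖q - x‖ := by
        rw [Complex.dist_eq]
        have e : p - x = (p - q) + (q - x) := by ring
        rw [e]
        exact norm_add_le _ _
      linarith
  have hψs : ∀ p, ρ ≤ ‖p - x‖ → ψ.symm p = p := by
    intro p hp
    rw [Homeomorph.symm_apply_eq, hψ p hp]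
  have hin : ∀ y, ‖y - x‖ < ρ → ‖ψ.symm y - x‖ < ρ := by
    intro y hy
    by_contra hcon
    push Not at hcon
    have h2 := hψ _ hcon
    rw [Homeomorph.apply_symm_apply] at h2
    rw [← h2] at hcon
    exact absurd hy (not_lt.2 hcon)
  have hgz : ψ (h (ψ.symm z)) = h z := by
    rw [hψs z hz1.ge, hψ _ hz2.ge]
  have hNF : NoFix (fun y => ψ (h (ψ.symm y))) := by
    intro y hy
    have h2 : h (ψ.symm y) = ψ.symm y := by
      have h3 : ψ (h (ψ.symm y)) = y := hy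
      rw [Homeomorph.eq_symm_apply]
      exact h3
    exact h1 _ h2
  have hg1 : ∀ y, ‖y - x‖ < ρ → ρ < ‖ψ (h (ψ.symm y)) - x‖ := by
    intro y hy
    have h2 := hi _ (hin y hy)
    rw [hψ _ h2.le]
    exact h2
  have hg2 : ∀ y, ‖y - x‖ = ρ → ρ ≤ ‖ψ (h (ψ.symm y)) - x‖ := by
    intro y hy
    have h2 := hii _ hy
    rw [hψs y hy.ge, hψ _ h2]
    exact h2
  let g : ℂ ≃ₜ ℂ := (ψ.symm.trans h).trans ψ
  have hg : ∀ y, g y = ψ (h (ψ.symm y)) := fun y => rfl
  refine ⟨ψ, g, z, hg, homIso_conj hI ψ, hNF, ?_, ?_, ?_⟩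
  · rw [hg z, hgz]
    exact hψx
  · intro b hb0 hb1 a ha heq
    rw [hg z, hgz] at heq
    have h2 := A6_strict hz1.le hz2.le hzw hb0 hb1
    have h3 := hg1 _ h2
    rw [hg] at heq
    rw [heq] at h3
    exact absurd h3 (not_lt.2 (A6_weak hz1.le hz2.le ha))
  · intro a ha heq
    rw [hg z, hgz] at heq ⊢
    have h2 := hg2 _ hz2
    rw [hg] at heq ⊢
    rcases ha.1.lt_or_eq with h3 | h3
    · rcases ha.2.lt_or_eq with h4 | h4
      · exfalso
        rw [heq] at h2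
        exact absurd h2 (not_le.2 (A6_strict hz1.le hz2.le hzw h3 h4))
      · exfalso
        rw [h4] at heq
        refine hNF (h z) ?_
        have e : z + ((1 : ℝ) : ℂ) * (h z - z) = h z := by
          push_cast
          ring
        rw [e] at heq
        exact heq
    · rw [heq, ← h3]
      simp

end Pool.Agent.H25.PR
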