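import Pool.Agent.H25.PR.A6

/-!
# PR module A7: claim (K) (150 lines)

`n ≥ 3`; minimality `hmin`: no fixed point free homeomorphism in the class has a point with
`g^[m] y = y`, `1 ≤ m < n`. `al t = z + t (w - z)`, `w = g z`. Properties (a), (b) of the arc from A6.
Note `g (g z) ≠ z` by minimality (`2 < n`), so (b) says `g w` is not on the segment; together:
(1) `g (al b) = al a`, `a, b ∈ [0,1]` implies `b = 0 ∧ a = 1`.
Claim (K): `1 ≤ k ≤ n-1`, `g^[k] (al b) = al a`, `a, b ∈ [0,1]` implies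
`(k = 1 ∧ b = 0 ∧ a = 1) ∨ (k = n-1 ∧ b = 1 ∧ a = 0)`.
Proof by strong induction on `k`; `k = 1` is (1). Let `k ≥ 2`.
If `a = b`: `g^[k] (al b) = al b`, contradiction to `hmin`. If `a = 1, b = 0`:
`g^[k] z = g z`, injectivity: `g^[k-1] z = z`, contradiction. If `a = 0, b = 1`:
`g^[k] (g z) = z`, i.e. `g^[k+1] z = z`, so `k + 1 ≥ n`, `k = n-1`: second alternative. Otherwise
let `sg = segment ℝ (al a) (al b)` (compact). It is free: a point of it is `al b'` with `b'` between `a`
and `b`; `g (al b') = al a'` in `sg` would give `b' = 0`, `a' = 1` by (1), so `{a,b} = {0,1}`, excluded.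
The points `g^[i] (al b)`, `1 ≤ i < k`, are not in `sg`: `i = 1`: by (1) `b = 0` and `al 1 ∈ sg`, so
`a = 1`, excluded; `i ≥ 2`: by induction (alternatives: `i = 1` no; `i = n-1` no since `i < k ≤ n-1`).
Take `ε` from `free_nbhd` and `avoid_nbhd`, `N = {p | infDist p sg < ε}`, `ψ` = push from `al a` to `al b`.
`G = ψ ∘ g` is a homeomorphism in the class, without fixed point (`noFix_push`), `G^[i] (al b) = g^[i] (al b)`
for `i < k` (induction, `ψ` is the identity at the points `g^[i] (al b)`, `1 ≤ i < k`), and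
`G^[k] (al b) = ψ (al a) = al b`: contradiction to `hmin`.
-/

open Complex Set Metric Topology Filter

namespace Pool.Agent.H25.PR

/-- no periodic point of period `< n` in the whole class -/
def MinPer (n : ℕ) : Prop :=
  ∀ g : ℂ ≃ₜ ℂ, HomIso g → NoFix g → ∀ m : ℕ, 1 ≤ m → m < n → ∀ y, g^[m] y ≠ y

private theorem A7_seg {z w : ℂ} {a b : ℝ} {p : ℂ}
    (hp : p ∈ segment ℝ (z + (a : ℂ) * w) (z + (b : ℂ) * w)) :
    ∃ c : ℝ, min a b ≤ c ∧ c ≤ max a b ∧ p = z + (c : ℂ) * w := by
  obtain ⟨s, t, hs, ht, hst, rfl⟩ := hp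
  refine ⟨s * a + t * b, ?_, ?_, ?_⟩
  · have h1 : s * min a b ≤ s * a := mul_le_mul_of_nonneg_left (min_le_left _ _) hs
    have h2 : t * min a b ≤ t * b := mul_le_mul_of_nonneg_left (min_le_right _ _) ht
    have h3 : s * min a b + t * min a b = min a b := by rw [← add_mul, hst, one_mul]
    linarith
  · have h1 : s * a ≤ s * max a b := mul_le_mul_of_nonneg_left (le_max_left _ _) hs
    have h2 : t * b ≤ t * max a b := mul_le_mul_of_nonneg_left (le_max_right _ _) ht
    have h3 : s * max a b + t * max a b = max a b := by rw [← add_mul, hst, one_mul]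
    linarith
  · have h4 : (t : ℂ) = 1 - s := by
      have : t = 1 - s := by linarith
      rw [this]
      push_cast
      ring
    simp only [Complex.real_smul]
    push_cast
    rw [h4]
    ring

theorem claimK {n : ℕ} (hn : 3 ≤ n) (hmin : MinPer n) (g : ℂ ≃ₜ ℂ) (hI : HomIso g) (h1 : NoFix g)
    (z : ℂ)
    (ha : ∀ b : ℝ, 0 < b → b < 1 → ∀ a ∈ Icc (0 : ℝ) 1, g (z + b * (g z - z)) ≠ z + a * (g z - z))
    (hb : ∀ a ∈ Icc (0 : ℝ) 1, g (g z) = z + a * (g z - z) → g (g z) = z)
    (k : ℕ) (hk : 1 ≤ k) (hkn : k ≤ n - 1) (a b : ℝ) (ha' : a ∈ Icc (0 : ℝ) 1)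
    (hb' : b ∈ Icc (0 : ℝ) 1) (he : g^[k] (z + b * (g z - z)) = z + a * (g z - z)) :
    (k = 1 ∧ b = 0 ∧ a = 1) ∨ (k = n - 1 ∧ b = 1 ∧ a = 0) := by
  have hD : g z - z ≠ 0 := sub_ne_zero.2 (h1 z)
  have hinj : ∀ s t : ℝ, z + (s : ℂ) * (g z - z) = z + (t : ℂ) * (g z - z) → s = t := by
    intro s t h
    have h2 := mul_right_cancel₀ hD (add_left_cancel h)
    exact_mod_cast h2
  have L1 : ∀ a ∈ Icc (0 : ℝ) 1, ∀ b ∈ Icc (0 : ℝ) 1,
      g (z + (b : ℂ) * (g z - z)) = z + (a : ℂ) * (g z - z) → b = 0 ∧ a = 1 := by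
    intro a ha' b hb' he
    rcases hb'.1.eq_or_lt with h0 | h0
    · subst h0
      refine ⟨rfl, ?_⟩
      have h2 : z + ((1 : ℝ) : ℂ) * (g z - z) = z + (a : ℂ) * (g z - z) := by
        rw [← he]
        push_cast
        rw [zero_mul, add_zero]
        ring
      exact (hinj _ _ h2).symm
    · rcases hb'.2.eq_or_lt with h2 | h2
      · subst h2
        exfalso
        have h3 : z + ((1 : ℝ) : ℂ) * (g z - z) = g z := by push_cast; ring
        rw [h3] at he
        exact hmin g hI h1 2 (by norm_num) (by omega) z (hb a ha' he)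
      · exact absurd he (ha b h0 h2 a ha')
  induction k using Nat.strong_induction_on generalizing a with
  | _ k ih =>
    by_cases hk1 : k = 1
    · subst hk1
      left
      exact ⟨rfl, L1 a ha' b hb' he⟩
    have hk2 : 2 ≤ k := by omega
    by_cases hab : a = b
    · subst hab
      exact absurd he (hmin g hI h1 k hk (by omega) _)
    by_cases h10 : a = 1 ∧ b = 0
    · exfalso
      obtain ⟨rfl, rfl⟩ := h10
      obtain ⟨m, rfl⟩ : ∃ m, k = m + 1 := ⟨k - 1, by omega⟩
      rw [Function.iterate_succ_apply'] at he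
      have h3 : z + ((1 : ℝ) : ℂ) * (g z - z) = g z := by push_cast; ring
      rw [h3] at he
      have h4 := g.injective he
      have h5 : z + ((0 : ℝ) : ℂ) * (g z - z) = z := by push_cast; ring
      rw [h5] at h4
      exact hmin g hI h1 m (by omega) (by omega) z h4
    by_cases h01 : a = 0 ∧ b = 1
    · right
      obtain ⟨rfl, rfl⟩ := h01
      refine ⟨?_, rfl, rfl⟩
      by_contra hne
      have h3 : z + ((1 : ℝ) : ℂ) * (g z - z) = g z := by push_cast; ring
      have h5 : z + ((0 : ℝ) : ℂ) * (g z - z) = z := by push_cast; ring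
      rw [h3, h5, ← Function.iterate_succ_apply] at he
      exact hmin g hI h1 (k + 1) (by omega) (by omega) z he
    exfalso
    set sg : Set ℂ := segment ℝ (z + (a : ℂ) * (g z - z)) (z + (b : ℂ) * (g z - z)) with hsg
    have hmem : ∀ p ∈ sg, ∃ c : ℝ, c ∈ Icc (0 : ℝ) 1 ∧ min a b ≤ c ∧ c ≤ max a b ∧
        p = z + (c : ℂ) * (g z - z) := by
      intro p hp
      obtain ⟨c, hc1, hc2, hc3⟩ := A7_seg hp
      refine ⟨c, ⟨?_, ?_⟩, hc1, hc2, hc3⟩
      · exact (le_min ha'.1 hb'.1).trans hc1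
      · exact hc2.trans (max_le ha'.2 hb'.2)
    have hcomp : IsCompact sg := by
      rw [hsg, segment_eq_image]
      apply isCompact_Icc.image
      fun_prop
    have hne : sg.Nonempty := ⟨_, left_mem_segment ℝ _ _⟩
    have hfree : ∀ p ∈ sg, g p ∉ sg := by
      intro p hp hgp
      obtain ⟨b', hb1, hb2, hb3, rfl⟩ := hmem p hp
      obtain ⟨a', ha1, ha2, ha3, ha4⟩ := hmem _ hgp
      obtain ⟨r1, r2⟩ := L1 a' ha1 b' hb1 ha4
      subst r1
      subst r2
      have q1 : min a b = 0 := le_antisymm hb2 (le_min ha'.1 hb'.1)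
      have q2 : max a b = 1 := le_antisymm (max_le ha'.2 hb'.2) ha3
      rcases le_total a b with h | h
      · rw [min_eq_left h] at q1
        rw [max_eq_right h] at q2
        exact h01 ⟨q1, q2⟩
      · rw [min_eq_right h] at q1
        rw [max_eq_left h] at q2
        exact h10 ⟨q2, q1⟩
    have horb : ∀ i, 1 ≤ i → i < k → g^[i] (z + (b : ℂ) * (g z - z)) ∉ sg := by
      intro i hi1 hik hmi
      obtain ⟨a', ha1, ha2, ha3, ha4⟩ := hmem _ hmi
      rcases ih i hik hi1 (by omega) a' ha1 ha4 with ⟨_, r1, r2⟩ | ⟨r0, _, _⟩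
      · subst r1
        subst r2
        have q2 : max a 0 = 1 := le_antisymm (max_le ha'.2 zero_le_one) ha3
        rw [max_eq_left ha'.1] at q2
        exact h10 ⟨q2, rfl⟩
      · omega
    obtain ⟨ε₁, hε₁, hf1⟩ := free_nbhd g.continuous hcomp hne hfree
    set K' : Set ℂ := (fun i : ℕ => g^[i] (z + (b : ℂ) * (g z - z))) '' (Set.Ico 1 k) with hK'
    have hK'c : IsCompact K' := ((Set.finite_Ico 1 k).image _).isCompact
    have hdis : Disjoint sg K' := by
      rw [Set.disjoint_left]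
      rintro p hp ⟨i, hi, rfl⟩
      exact horb i hi.1 hi.2 hp
    obtain ⟨ε₂, hε₂, hf2⟩ := avoid_nbhd hcomp hne hK'c hdis
    have huv : z + (a : ℂ) * (g z - z) ≠ z + (b : ℂ) * (g z - z) := fun h => hab (hinj _ _ h)
    obtain ⟨ψ, hψI, _, hψ1, hψ2, _, _⟩ := push huv (lt_min hε₁ hε₂)
    have hGI : HomIso (⇑(g.trans ψ)) := homIso_comp (g := ⇑ψ) (h := ⇑g) hψI hI
    have hGN : NoFix (⇑(g.trans ψ)) := by
      have hN1 : ∀ p, p ∉ {p | infDist p sg < min ε₁ ε₂} → ψ p = p :=
        fun p hp => hψ2 p (not_lt.1 hp)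
      have hN2 : ∀ p ∈ {p | infDist p sg < min ε₁ ε₂},
          g p ∉ {p | infDist p sg < min ε₁ ε₂} := fun p hp hgp =>
        hf1 p (lt_of_lt_of_le hp (min_le_left _ _)) (lt_of_lt_of_le hgp (min_le_left _ _))
      exact noFix_push (h := ⇑g) (ψ := ⇑ψ) h1 ψ.injective hN1 hN2
    have hit : ∀ i, i < k → (⇑(g.trans ψ))^[i] (z + (b : ℂ) * (g z - z)) =
        g^[i] (z + (b : ℂ) * (g z - z)) := by
      intro i
      induction i with
      | zero => intro _; rfl
      | succ i ihi =>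
        intro hi
        rw [Function.iterate_succ_apply', ihi (by omega), Function.iterate_succ_apply']
        change ψ (g _) = _
        apply hψ2
        rw [← Function.iterate_succ_apply' (f := ⇑g)]
        have h6 := hf2 (g^[i + 1] (z + (b : ℂ) * (g z - z))) ⟨i + 1, ⟨by omega, hi⟩, rfl⟩
        exact (min_le_right _ _).trans (not_lt.1 h6)
    obtain ⟨m, rfl⟩ : ∃ m, k = m + 1 := ⟨k - 1, by omega⟩
    have hlast : (⇑(g.trans ψ))^[m + 1] (z + (b : ℂ) * (g z - z)) =
        z + (b : ℂ) * (g z - z) := by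
      rw [Function.iterate_succ_apply', hit m (by omega)]
      change ψ (g _) = _
      rw [← Function.iterate_succ_apply' (f := ⇑g), he, hψ1]
    exact hmin _ hGI hGN (m + 1) hk (by omega) _ hlast

end Pool.Agent.H25.PR
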