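import Pool.Agent.H25.PR.A7
import Pool.Agent.H25.PR.A3

/-!
# PR module A8: the two cases (220 lines)

Case I (`caseI`): `g^[n] z = z`. Let `c t = z + (clamp t) (w - z)` (`clamp t = max 0 (min t 1)`),
`x0 = z`. Apply `no_simple`. Let `0 ≤ s < s' ≤ n`, `i = ⌊s⌋₊`, `j = ⌊s'⌋₊`, `a = s - i`, `b = s' - j`
in `[0,1)`, and `g^[i] (al a) = g^[j] (al b)`, `i ≤ j`. Injectivity of `g^[i]`: `al a = g^[k] (al b)`,
`k = j - i`. `k = 0`: `a = b` (as `z ≠ w`), so `s = s'`, no. `1 ≤ k ≤ n-1`: by `claimK` `a = 1` or `b = 1`, no.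
`k ≥ n`: `j ≥ n` and `s' ≤ n` give `j = n`, `b = 0`, `i = 0`; `al a = g^[n] z = z`, so `a = 0`:
`s = 0`, `s' = n`.

Case II (`caseII`): `g^[n] z ≠ z`, but `g^[n] (al (1/2)) = al (1/2)`. Then the second alternative of
`claimK` is impossible (`g^[n-1] w = z` means `g^[n] z = z`), i.e.
(K') `1 ≤ k ≤ n-1`, `g^[k] (al b) = al a` → `k = 1 ∧ b = 0 ∧ a = 1`.
`S = {b ∈ [0,1] | ∃ a ∈ [0,1], g^[n] (al b) = al a}` is compact, contains `1/2`; `b0 = min S ≤ 1/2`,
`g^[n] (al b0) = al a0`. `a0 < 1`: else `g^[n] (al b0) = w = g z`, so `g^[n-1] (al b0) = z = al 0`,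
impossible by (K') (`n - 1 ≥ 2`).
If `a0 = b0` let `G = g`, `ψ = id`. Else `sg = segment ℝ (al a0) (al b0)`; it does not contain `w = al 1`
(`a0, b0 < 1`); it is free (a coincidence `g (al b') = al a'` in `sg` gives `a' = 1`), disjoint from
`g^[i] '' al[0,1]` for `1 ≤ i ≤ n-1` (by (K'), `i = 1` would need `a' = 1`). Take `ε` small
(`free_nbhd`, `avoid_nbhd` for these finitely many compact sets and for `{w}`), `ψ` the push from
`al a0` to `al b0`, `G = ψ ∘ g`: in the class, no fixed point.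
`G^[i] (al t) = g^[i] (al t)` for `i ≤ n-1`, `t ∈ [0,1]`, and `G^[n] (al t) = ψ (g^[n] (al t))`;
`G^[n] (al b0) = al b0`; `G z = w`.
Apply `no_simple` to `G`, `x0 = al b0`, `c t = al (b0 + t)` for `t ≤ 1 - b0` and `G (al (b0 + t - 1))` for
`t ≥ 1 - b0`, `t ≤ 1` (constant outside `[0,1]`; continuous since `G (al 0) = w = al 1`). For `s ∈ [0,n]`
`G^[⌊s⌋₊] (c (s - ⌊s⌋₊)) = G^[⌊s+b0⌋₊] (al (s + b0 - ⌊s+b0⌋₊))`. A coincidence at
`b0 ≤ s1 < s2 ≤ n + b0`, `s1 = i + a`, `s2 = j + b`: `al a = G^[k] (al b)`, `k = j - i`, `a, b ∈ [0,1)`.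
`k = 0`: `a = b`, no. `1 ≤ k ≤ n-1`: `g^[k] (al b) = al a`, (K') gives `a = 1`, no. `k = n` (larger is
impossible: `s2 - s1 ≤ n`): `i + b ≤ b0 < 1` so `i = 0`, `b ≤ b0 ≤ a`. If `b = b0` then
`al a = G^[n] (al b0) = al b0`, `a = b0`: the allowed coincidence. If `b < b0`:
`ψ (g^[n] (al b)) = al a` with `b0 ≤ a < 1`. By the line properties of the push (the imaginary
coordinate is preserved, `ψ` is increasing on the line, `ψ (al a0) = al b0`, `ψ w = w`),
`g^[n] (al b)` is `al a'` with `a'` between `a0` and `1`. (Write the push for `u = al a0`, `v = al b0`;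
its coordinate on the line is `(t - a0)/(b0 - a0)`; if `b0 < a0` the order is reversed, both cases give
`a0 ≤ a' ≤ 1`.) So `b ∈ S`, contradiction with `b < b0`.
-/

open Complex Set Metric Topology Filter

namespace Pool.Agent.H25.PR

private noncomputable def A8_al (z w : ℂ) (t : ℝ) : ℂ := z + t * (w - z)

private theorem A8_al_inj {z w : ℂ} (h : w ≠ z) {a b : ℝ} (he : A8_al z w a = A8_al z w b) :
    a = b := by
  unfold A8_al at he
  have h1 : (a : ℂ) * (w - z) = b * (w - z) := add_left_cancel he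
  have h2 : (a : ℂ) = b := mul_right_cancel₀ (sub_ne_zero.2 h) h1
  exact_mod_cast h2

private theorem A8_al_zero (z w : ℂ) : A8_al z w 0 = z := by simp [A8_al]

private theorem A8_al_one (z w : ℂ) : A8_al z w 1 = w := by simp [A8_al]

private theorem A8_al_cont (z w : ℂ) : Continuous (A8_al z w) := by
  unfold A8_al; fun_prop

private theorem A8_cmp {G : ℂ → ℂ} (hG : Function.Injective G) {i k : ℕ} {p q : ℂ}
    (h : G^[i] p = G^[i + k] q) : p = G^[k] q := by
  rw [Function.iterate_add_apply] at h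
  exact hG.iterate i h

theorem caseI {n : ℕ} (hn : 3 ≤ n) (hmin : MinPer n) (g : ℂ ≃ₜ ℂ) (hI : HomIso g) (h1 : NoFix g)
    (z : ℂ)
    (ha : ∀ b : ℝ, 0 < b → b < 1 → ∀ a ∈ Icc (0 : ℝ) 1, g (z + b * (g z - z)) ≠ z + a * (g z - z))
    (hb : ∀ a ∈ Icc (0 : ℝ) 1, g (g z) = z + a * (g z - z) → g (g z) = z)
    (hz : g^[n] z = z) : False := by
  have hw : g z ≠ z := h1 z
  have cc : Continuous (fun t : ℝ => A8_al z (g z) (max 0 (min t 1))) :=
    (A8_al_cont z (g z)).comp (by fun_prop)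
  refine no_simple g.continuous g.injective hI (n := n) (by omega) hz h1
    (fun y => hmin g hI h1 (n - 1) (by omega) (by omega) y)
    (c := fun t : ℝ => A8_al z (g z) (max 0 (min t 1))) cc ?_ ?_ ?_
  · simp [A8_al]
  · simp [A8_al]
  intro s s' h0 hss hsn he
  have h0' : 0 ≤ s' := h0.trans hss.le
  have f1 := Nat.floor_le h0
  have f2 := Nat.lt_floor_add_one s
  have f1' := Nat.floor_le h0'
  have f2' := Nat.lt_floor_add_one s'
  have e1 : max 0 (min (s - (⌊s⌋₊ : ℝ)) 1) = s - (⌊s⌋₊ : ℝ) := by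
    rw [min_eq_left (by linarith), max_eq_right (by linarith)]
  have e2 : max 0 (min (s' - (⌊s'⌋₊ : ℝ)) 1) = s' - (⌊s'⌋₊ : ℝ) := by
    rw [min_eq_left (by linarith), max_eq_right (by linarith)]
  simp only [e1, e2] at he
  obtain ⟨k, hk⟩ := Nat.exists_eq_add_of_le (Nat.floor_le_floor hss.le)
  rw [hk] at he
  have he' := A8_cmp g.injective he
  rw [← hk] at he'
  have hkr : (⌊s'⌋₊ : ℝ) = ⌊s⌋₊ + k := by rw [hk]; push_cast; ring
  rcases Nat.eq_zero_or_pos k with hk0 | hk0
  · subst hk0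
    have h := A8_al_inj hw he'
    push_cast at hkr
    linarith
  · rcases Nat.lt_or_ge k n with hkn | hkn
    · have hc := claimK hn hmin g hI h1 z ha hb k hk0 (by omega) (s - (⌊s⌋₊ : ℝ))
        (s' - (⌊s'⌋₊ : ℝ)) ⟨by linarith, by linarith⟩ ⟨by linarith, by linarith⟩ he'.symm
      rcases hc with ⟨-, -, h⟩ | ⟨-, h, -⟩
      · linarith
      · linarith
    · have hkn' : (n : ℝ) ≤ k := by exact_mod_cast hkn
      have hi0 : (0 : ℝ) ≤ (⌊s⌋₊ : ℝ) := Nat.cast_nonneg _
      have hs' : s' = n := by linarith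
      have hi : (⌊s⌋₊ : ℝ) = 0 := by linarith
      have hkk : (k : ℝ) = n := by linarith
      have hkk' : k = n := by exact_mod_cast hkk
      refine ⟨?_, hs'⟩
      have h2 : s' - (⌊s'⌋₊ : ℝ) = 0 := by linarith
      rw [h2, A8_al_zero, hkk', hz] at he'
      have h3 : A8_al z (g z) (s - (⌊s⌋₊ : ℝ)) = A8_al z (g z) 0 := by
        rw [he', A8_al_zero]
      have h4 := A8_al_inj hw h3
      linarith

/-- the final step of case II, for the pushed homeomorphism `G` -/
private theorem A8_fin {n : ℕ} (hn : 3 ≤ n) (hmin : MinPer n) (z w : ℂ) (hw : w ≠ z)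
    (G : ℂ ≃ₜ ℂ) (hI : HomIso G) (h1 : NoFix G) (hGz : G z = w) (b0 : ℝ) (hb0 : 0 ≤ b0)
    (hb1 : b0 < 1)
    (K : ∀ k : ℕ, 1 ≤ k → k ≤ n - 1 → ∀ a b : ℝ, a ∈ Ico (0 : ℝ) 1 → b ∈ Ico (0 : ℝ) 1 →
      G^[k] (A8_al z w b) ≠ A8_al z w a)
    (P2 : G^[n] (A8_al z w b0) = A8_al z w b0)
    (P3 : ∀ b : ℝ, 0 ≤ b → b < b0 → ∀ a : ℝ, b0 ≤ a → a < 1 →
      G^[n] (A8_al z w b) ≠ A8_al z w a) : False := by
  classical
  let c : ℝ → ℂ := fun t => if t ≤ 1 - b0 then A8_al z w (b0 + max 0 t)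
    else G (A8_al z w (b0 + min t 1 - 1))
  have cc : Continuous c := by
    refine Continuous.if_le ?_ ?_ continuous_id continuous_const ?_
    · exact (A8_al_cont z w).comp (by fun_prop)
    · exact G.continuous.comp ((A8_al_cont z w).comp (by fun_prop))
    · intro t ht
      have ht' : t = 1 - b0 := ht
      rw [ht', max_eq_right (by linarith), min_eq_left (by linarith)]
      have e1 : b0 + (1 - b0) = 1 := by ring
      have e2 : b0 + (1 - b0) - 1 = 0 := by ring
      rw [e2, e1, A8_al_zero, A8_al_one, hGz]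
  have c0 : c 0 = A8_al z w b0 := by
    simp only [c]
    rw [if_pos (by linarith), max_self, add_zero]
  have c1 : c 1 = G (A8_al z w b0) := by
    simp only [c]
    rcases eq_or_lt_of_le hb0 with h | h
    · rw [if_pos (by linarith), ← h, max_eq_right zero_le_one, zero_add, A8_al_one, A8_al_zero, hGz]
    · rw [if_neg (by linarith), min_self]
      congr 2
      ring
  -- the curve in terms of `al`
  have gam : ∀ s : ℝ, 0 ≤ s → G^[⌊s⌋₊] (c (s - ⌊s⌋₊)) =
      G^[⌊s + b0⌋₊] (A8_al z w (s + b0 - ⌊s + b0⌋₊)) := by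
    intro s hs
    have f1 := Nat.floor_le hs
    have f2 := Nat.lt_floor_add_one s
    rcases lt_or_ge (s - ⌊s⌋₊ + b0) 1 with hlt | hge
    · have hf : ⌊s + b0⌋₊ = ⌊s⌋₊ := by
        rw [Nat.floor_eq_iff (by linarith)]
        exact ⟨by linarith, by linarith⟩
      rw [hf]
      simp only [c]
      rw [if_pos (by linarith), max_eq_right (by linarith)]
      congr 2
      ring
    · have hf : ⌊s + b0⌋₊ = ⌊s⌋₊ + 1 := by
        rw [Nat.floor_eq_iff (by linarith)]
        push_cast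
        exact ⟨by linarith, by linarith⟩
      rw [hf, Function.iterate_succ_apply]
      congr 1
      simp only [c]
      push_cast
      rcases eq_or_lt_of_le hge with h | h
      · rw [if_pos (by linarith), max_eq_right (by linarith)]
        have e1 : b0 + (s - (⌊s⌋₊ : ℝ)) = 1 := by linarith
        have e2 : s + b0 - ((⌊s⌋₊ : ℝ) + 1) = 0 := by linarith
        rw [e1, e2, A8_al_zero, A8_al_one, hGz]
      · rw [if_neg (by linarith), min_eq_left (by linarith)]
        congr 2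
        ring
  refine no_simple G.continuous G.injective hI (n := n) (by omega) P2 h1
    (fun y => hmin G hI h1 (n - 1) (by omega) (by omega) y) cc c0 c1 ?_
  intro s s' h0 hss hsn he
  have h0' : 0 ≤ s' := h0.trans hss.le
  rw [gam s h0, gam s' h0'] at he
  have g1 : 0 ≤ s + b0 := by linarith
  have g1' : 0 ≤ s' + b0 := by linarith
  have f1 := Nat.floor_le g1
  have f2 := Nat.lt_floor_add_one (s + b0)
  have f1' := Nat.floor_le g1'
  have f2' := Nat.lt_floor_add_one (s' + b0)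
  obtain ⟨k, hk⟩ := Nat.exists_eq_add_of_le
    (Nat.floor_le_floor (show s + b0 ≤ s' + b0 by linarith))
  rw [hk] at he
  have he' := A8_cmp G.injective he
  rw [← hk] at he'
  have hkr : (⌊s' + b0⌋₊ : ℝ) = ⌊s + b0⌋₊ + k := by rw [hk]; push_cast; ring
  rcases Nat.eq_zero_or_pos k with hk0 | hk0
  · subst hk0
    have h := A8_al_inj hw he'
    push_cast at hkr
    linarith
  · rcases Nat.lt_or_ge k n with hkn | hkn
    · exact absurd he'.symm (K k hk0 (by omega) _ _ ⟨by linarith, by linarith⟩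
        ⟨by linarith, by linarith⟩)
    · have hkn' : (n : ℝ) ≤ k := by exact_mod_cast hkn
      have hi0 : (0 : ℝ) ≤ (⌊s + b0⌋₊ : ℝ) := Nat.cast_nonneg _
      have hk1 : k < n + 1 := by
        have : (k : ℝ) < n + 1 := by linarith
        exact_mod_cast this
      have hkk' : k = n := by omega
      have hi1 : ⌊s + b0⌋₊ < 1 := by
        have hkk : (k : ℝ) = n := by exact_mod_cast hkk'
        have : (⌊s + b0⌋₊ : ℝ) < 1 := by linarith
        exact_mod_cast this
      have hi : (⌊s + b0⌋₊ : ℝ) = 0 := by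
        have : ⌊s + b0⌋₊ = 0 := by omega
        rw [this]; simp
      rw [hkk'] at he' hkr
      rcases lt_or_ge (s' + b0 - (⌊s' + b0⌋₊ : ℝ)) b0 with hlt | hge
      · exact absurd he'.symm (P3 _ (by linarith) hlt _ (by linarith) (by linarith))
      · have hs' : s' = n := by linarith
        refine ⟨?_, hs'⟩
        have h2 : s' + b0 - (⌊s' + b0⌋₊ : ℝ) = b0 := by linarith
        rw [h2, P2] at he'
        have h4 := A8_al_inj hw he'
        linarith

theorem caseII {n : ℕ} (hn : 3 ≤ n) (hmin : MinPer n) (g : ℂ ≃ₜ ℂ) (hI : HomIso g) (h1 : NoFix g)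
    (z : ℂ)
    (ha : ∀ b : ℝ, 0 < b → b < 1 → ∀ a ∈ Icc (0 : ℝ) 1, g (z + b * (g z - z)) ≠ z + a * (g z - z))
    (hb : ∀ a ∈ Icc (0 : ℝ) 1, g (g z) = z + a * (g z - z) → g (g z) = z)
    (hz : g^[n] z ≠ z)
    (hm : g^[n] (z + (1 / 2 : ℝ) * (g z - z)) = z + (1 / 2 : ℝ) * (g z - z)) : False := by
  have hw : g z ≠ z := h1 z
  have K' : ∀ k : ℕ, 1 ≤ k → k ≤ n - 1 → ∀ a b : ℝ, a ∈ Icc (0 : ℝ) 1 → b ∈ Icc (0 : ℝ) 1 →
      g^[k] (A8_al z (g z) b) = A8_al z (g z) a → k = 1 ∧ b = 0 ∧ a = 1 := by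
    intro k hk hkn a b hA hB he
    rcases claimK hn hmin g hI h1 z ha hb k hk hkn a b hA hB he with h | ⟨h2, h3, h4⟩
    · exact h
    · exfalso
      rw [h2, h3, h4, A8_al_zero, A8_al_one, ← Function.iterate_succ_apply] at he
      have : (n - 1).succ = n := by omega
      rw [this] at he
      exact hz he
  have hgc : Continuous (g^[n]) := g.continuous.iterate n
  -- the least parameter which returns to the arc
  have hcl : IsClosed (A8_al z (g z) '' Icc (0 : ℝ) 1) :=
    (isCompact_Icc.image (A8_al_cont z (g z))).isClosed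
  have hSc : IsCompact (Icc (0 : ℝ) 1 ∩
      (fun b => g^[n] (A8_al z (g z) b)) ⁻¹' (A8_al z (g z) '' Icc (0 : ℝ) 1)) :=
    isCompact_Icc.inter_right (hcl.preimage (hgc.comp (A8_al_cont z (g z))))
  obtain ⟨b0, hb0S, hb0min⟩ := hSc.exists_isLeast
    ⟨1 / 2, ⟨by norm_num, by norm_num⟩, ⟨1 / 2, ⟨by norm_num, by norm_num⟩, by
      exact hm.symm⟩⟩
  obtain ⟨⟨hb00, hb01⟩, a0, ⟨ha00, ha01⟩, ha0⟩ := hb0S
  have hle : b0 ≤ 1 / 2 := hb0min ⟨⟨by norm_num, by norm_num⟩, ⟨1 / 2, ⟨by norm_num, by norm_num⟩,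
    hm.symm⟩⟩
  have hlt1 : b0 < 1 := by linarith
  have ha0' : g^[n] (A8_al z (g z) b0) = A8_al z (g z) a0 := ha0.symm
  have hmin0 : ∀ b : ℝ, 0 ≤ b → b < b0 → ∀ a ∈ Icc (0 : ℝ) 1,
      g^[n] (A8_al z (g z) b) ≠ A8_al z (g z) a := by
    intro b hb1 hb2 a hA he
    have := hb0min (a := b) ⟨⟨hb1, by linarith⟩, ⟨a, hA, he.symm⟩⟩
    linarith
  have ha0lt : a0 < 1 := by
    rcases eq_or_lt_of_le ha01 with h | h
    · exfalso
      have hn1 : n = (n - 1).succ := by omega
      rw [h, A8_al_one, hn1, Function.iterate_succ_apply'] at ha0'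
      have h2 := g.injective ha0'
      have h3 := K' (n - 1) (by omega) le_rfl 0 b0 ⟨le_rfl, zero_le_one⟩ ⟨hb00, hb01⟩
        (by rw [h2, A8_al_zero])
      linarith [h3.2.2]
    · exact h
  rcases eq_or_ne a0 b0 with hab | hab
  · -- no push is needed
    refine A8_fin hn hmin z (g z) hw g hI h1 rfl b0 hb00 hlt1 ?_ (by rw [ha0', hab]) ?_
    · intro k hk hkn a b hA hB he
      have := (K' k hk hkn a b ⟨hA.1, hA.2.le⟩ ⟨hB.1, hB.2.le⟩ he).2.2
      linarith [hA.2]
    · intro b hb1 hb2 a hA1 hA2 he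
      exact hmin0 b hb1 hb2 a ⟨by linarith, hA2.le⟩ he
  · have huv : A8_al z (g z) a0 ≠ A8_al z (g z) b0 := fun h => hab (A8_al_inj hw h)
    -- points of the segment
    have hseg : ∀ p ∈ segment ℝ (A8_al z (g z) a0) (A8_al z (g z) b0),
        ∃ t : ℝ, 0 ≤ t ∧ t < 1 ∧ p = A8_al z (g z) t := by
      rintro p ⟨x, y, hx, hy, hxy, rfl⟩
      refine ⟨x * a0 + y * b0, by positivity, ?_, ?_⟩
      · rcases eq_or_lt_of_le hx with h | h
        · rw [← h] at hxy ⊢
          have : y = 1 := by linarith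
          rw [this]; linarith
        · have h2 : x * a0 < x * 1 := mul_lt_mul_of_pos_left ha0lt h
          have h3 : y * b0 ≤ y * 1 := mul_le_mul_of_nonneg_left hlt1.le hy
          linarith
      · simp only [A8_al, Complex.real_smul]
        have hxy' : (x : ℂ) + y = 1 := by exact_mod_cast hxy
        push_cast
        linear_combination z * hxy'
    have hsgc : IsCompact (segment ℝ (A8_al z (g z) a0) (A8_al z (g z) b0)) := by
      rw [segment_eq_image_lineMap]
      exact isCompact_Icc.image (AffineMap.lineMap_continuous)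
    obtain ⟨ε1, hε1, hfree⟩ := free_nbhd (h := g) g.continuous hsgc ⟨_, left_mem_segment ℝ _ _⟩ (by
      intro p hp hgp
      obtain ⟨t, ht0, ht1, rfl⟩ := hseg p hp
      obtain ⟨t', ht0', ht1', he⟩ := hseg _ hgp
      have := (K' 1 le_rfl (by omega) t' t ⟨ht0', ht1'.le⟩ ⟨ht0, ht1.le⟩ he).2.2
      linarith)
    have hKc : IsCompact (⋃ i ∈ Finset.Icc 1 (n - 1),
        (fun b => g^[i] (A8_al z (g z) b)) '' Icc (0 : ℝ) 1) := by
      refine (Finset.Icc 1 (n - 1)).isCompact_biUnion fun i _ => ?_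
      exact isCompact_Icc.image ((g.continuous.iterate i).comp (A8_al_cont z (g z)))
    obtain ⟨ε2, hε2, havoid⟩ := avoid_nbhd hsgc ⟨_, left_mem_segment ℝ _ _⟩ hKc (by
      rw [Set.disjoint_left]
      intro p hp hp'
      obtain ⟨t, ht0, ht1, rfl⟩ := hseg p hp
      rw [Set.mem_iUnion₂] at hp'
      obtain ⟨i, hi, b, hbI, he⟩ := hp'
      rw [Finset.mem_Icc] at hi
      have := (K' i hi.1 hi.2 t b ⟨ht0, ht1.le⟩ hbI he).2.2
      linarith)
    have hav : ∀ i : ℕ, 1 ≤ i → i ≤ n - 1 → ∀ b ∈ Icc (0 : ℝ) 1,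
        ε2 ≤ infDist (g^[i] (A8_al z (g z) b))
          (segment ℝ (A8_al z (g z) a0) (A8_al z (g z) b0)) := by
      intro i hi hin b hbI
      refine not_lt.1 (havoid _ ?_)
      rw [Set.mem_iUnion₂]
      exact ⟨i, Finset.mem_Icc.2 ⟨hi, hin⟩, b, hbI, rfl⟩
    obtain ⟨ψ, hψI, -, hψuv, hψout, hψim, hψre⟩ := push huv (ε := min ε1 ε2) (lt_min hε1 hε2)
    let G : ℂ ≃ₜ ℂ := g.trans ψ
    have hGdef : ∀ p, G p = ψ (g p) := fun p => rfl
    have hGI : HomIso G := homIso_comp (g := ψ) (h := g) hψI hI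
    have hG1 : NoFix G := noFix_push (h := g) (ψ := ψ) h1 ψ.injective
      (N := {p | infDist p (segment ℝ (A8_al z (g z) a0) (A8_al z (g z) b0)) < min ε1 ε2})
      (fun p hp => hψout p (not_lt.1 hp)) (fun p hp hgp => hfree p
        (lt_of_lt_of_le hp (min_le_left _ _)) (lt_of_lt_of_le hgp (min_le_left _ _)))
    have hout : ∀ i : ℕ, 1 ≤ i → i ≤ n - 1 → ∀ b ∈ Icc (0 : ℝ) 1,
        ψ (g^[i] (A8_al z (g z) b)) = g^[i] (A8_al z (g z) b) := fun i hi hin b hbI =>
      hψout _ ((min_le_right _ _).trans (hav i hi hin b hbI))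
    have P1 : ∀ i : ℕ, i ≤ n - 1 → ∀ b ∈ Icc (0 : ℝ) 1,
        G^[i] (A8_al z (g z) b) = g^[i] (A8_al z (g z) b) := by
      intro i
      induction i with
      | zero => intro _ b _; rfl
      | succ i ih =>
        intro hi b hbI
        rw [Function.iterate_succ_apply', ih (by omega) b hbI, hGdef,
          ← Function.iterate_succ_apply' (g : ℂ → ℂ), hout (i + 1) (by omega) hi b hbI]
    have P1n : ∀ b ∈ Icc (0 : ℝ) 1,
        G^[n] (A8_al z (g z) b) = ψ (g^[n] (A8_al z (g z) b)) := by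
      intro b hbI
      have hn1 : n = (n - 1) + 1 := by omega
      rw [hn1, Function.iterate_succ_apply', P1 (n - 1) le_rfl b hbI, hGdef,
        ← Function.iterate_succ_apply' (g : ℂ → ℂ)]
    have hψw : ψ (g z) = g z := by
      have h := hout 1 le_rfl (by omega) 0 ⟨le_rfl, zero_le_one⟩
      rwa [A8_al_zero, Function.iterate_one] at h
    refine A8_fin hn hmin z (g z) hw G hGI hG1 (by rw [hGdef, hψw]) b0 hb00 hlt1 ?_ ?_ ?_
    · intro k hk hkn a b hA hB he
      rw [P1 k hkn b ⟨hB.1, hB.2.le⟩] at he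
      have := (K' k hk hkn a b ⟨hA.1, hA.2.le⟩ ⟨hB.1, hB.2.le⟩ he).2.2
      linarith [hA.2]
    · rw [P1n b0 ⟨hb00, hb01⟩, ha0', hψuv]
    · intro b hb1 hb2 a hA1 hA2 he
      rw [P1n b ⟨hb1, by linarith⟩] at he
      -- the line through the arc
      have hne : A8_al z (g z) b0 - A8_al z (g z) a0 ≠ 0 := sub_ne_zero.2 (Ne.symm huv)
      have hd : b0 - a0 ≠ 0 := sub_ne_zero.2 (Ne.symm hab)
      have hdC : ((b0 : ℂ) - a0) ≠ 0 := by exact_mod_cast hd
      have hwz : g z - z ≠ 0 := sub_ne_zero.2 hw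
      have coord : ∀ x : ℝ, (A8_al z (g z) x - A8_al z (g z) a0) /
          (A8_al z (g z) b0 - A8_al z (g z) a0) = (((x - a0) / (b0 - a0) : ℝ) : ℂ) := by
        intro x
        rw [div_eq_iff hne]
        push_cast
        simp only [A8_al]
        field_simp
        ring
      have line : ∀ x : ℝ, A8_al z (g z) a0 +
          (x : ℂ) * (A8_al z (g z) b0 - A8_al z (g z) a0) =
            A8_al z (g z) (a0 + x * (b0 - a0)) := by
        intro x
        simp only [A8_al]
        push_cast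
        ring
      have him := hψim (g^[n] (A8_al z (g z) b))
      rw [he, coord, Complex.ofReal_im] at him
      obtain ⟨s, hs⟩ : ∃ s : ℝ, (g^[n] (A8_al z (g z) b) - A8_al z (g z) a0) /
          (A8_al z (g z) b0 - A8_al z (g z) a0) = (s : ℂ) := by
        refine ⟨((g^[n] (A8_al z (g z) b) - A8_al z (g z) a0) /
          (A8_al z (g z) b0 - A8_al z (g z) a0)).re, Complex.ext (Complex.ofReal_re _).symm ?_⟩
        rw [← him, Complex.ofReal_im]
      have hp : g^[n] (A8_al z (g z) b) = A8_al z (g z) a0 +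
          (s : ℂ) * (A8_al z (g z) b0 - A8_al z (g z) a0) := by
        rw [div_eq_iff hne] at hs
        rw [← hs]; ring
      have hmono : ∀ x y : ℝ, ((ψ (A8_al z (g z) a0 + (x : ℂ) *
          (A8_al z (g z) b0 - A8_al z (g z) a0)) - A8_al z (g z) a0) /
          (A8_al z (g z) b0 - A8_al z (g z) a0)).re ≤ ((ψ (A8_al z (g z) a0 + (y : ℂ) *
          (A8_al z (g z) b0 - A8_al z (g z) a0)) - A8_al z (g z) a0) /
          (A8_al z (g z) b0 - A8_al z (g z) a0)).re → x ≤ y := by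
        intro x y hxy
        by_contra hc
        exact absurd hxy (not_le.2 (hψre y x (not_le.1 hc)))
      have v0 : ((ψ (A8_al z (g z) a0 + ((0 : ℝ) : ℂ) *
          (A8_al z (g z) b0 - A8_al z (g z) a0)) - A8_al z (g z) a0) /
          (A8_al z (g z) b0 - A8_al z (g z) a0)).re = 1 := by
        rw [line, zero_mul, add_zero, hψuv, div_self hne, Complex.one_re]
      have vs : ((ψ (A8_al z (g z) a0 + (s : ℂ) *
          (A8_al z (g z) b0 - A8_al z (g z) a0)) - A8_al z (g z) a0) /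
          (A8_al z (g z) b0 - A8_al z (g z) a0)).re = (a - a0) / (b0 - a0) := by
        rw [← hp, he, coord, Complex.ofReal_re]
      have v1 : ((ψ (A8_al z (g z) a0 + (((1 - a0) / (b0 - a0) : ℝ) : ℂ) *
          (A8_al z (g z) b0 - A8_al z (g z) a0)) - A8_al z (g z) a0) /
          (A8_al z (g z) b0 - A8_al z (g z) a0)).re = (1 - a0) / (b0 - a0) := by
        have e : a0 + (1 - a0) / (b0 - a0) * (b0 - a0) = 1 := by
          rw [div_mul_cancel₀ _ hd]; ring
        rw [line, e, A8_al_one, hψw]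
        have := coord 1
        rw [A8_al_one] at this
        rw [this, Complex.ofReal_re]
      have hfin : a0 ≤ a0 + s * (b0 - a0) ∧ a0 + s * (b0 - a0) ≤ 1 := by
        rcases lt_or_gt_of_ne hab with hlt | hgt
        · have hpos : 0 < b0 - a0 := by linarith
          have k1 : 0 ≤ s := by
            apply hmono
            rw [v0, vs, le_div_iff₀ hpos]
            linarith
          have k2 : s ≤ (1 - a0) / (b0 - a0) := by
            apply hmono
            rw [v1, vs]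
            exact div_le_div_of_nonneg_right (by linarith) hpos.le
          rw [le_div_iff₀ hpos] at k2
          exact ⟨by nlinarith [mul_nonneg k1 hpos.le], by linarith⟩
        · have hneg : b0 - a0 < 0 := by linarith
          have k1 : s ≤ 0 := by
            apply hmono
            rw [v0, vs, div_le_iff_of_neg hneg]
            linarith
          have k2 : (1 - a0) / (b0 - a0) ≤ s := by
            apply hmono
            rw [v1, vs]
            exact div_le_div_of_nonpos_of_le hneg.le (by linarith)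
          rw [div_le_iff_of_neg hneg] at k2
          exact ⟨by nlinarith [mul_nonneg (neg_nonneg.2 k1) (neg_nonneg.2 hneg.le)], by linarith⟩
      refine hmin0 b hb1 hb2 (a0 + s * (b0 - a0)) ⟨by linarith [hfin.1], hfin.2⟩ ?_
      rw [hp, line]

end Pool.Agent.H25.PR
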