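import Pool.Agent.H25.PR.A8

/-!
# PR module A9: Brouwer's lemma
-/

open Complex Set Metric Topology Filter

namespace Pool.Agent.H25.PR

theorem minPer (n : ℕ) : MinPer n := by
  induction n using Nat.strong_induction_on with
  | _ n ih =>
    intro g hI h1 m hm hmn y hy
    -- `m < n`; use the claim for `m` and derive a contradiction from a point of period `m`
    have hmin : MinPer m := ih m hmn
    rcases Nat.lt_or_ge m 3 with h3 | h3
    · interval_cases m
      · exact h1 y hy
      · exact no_period_two g.continuous g.injective hI h1 y hy
    · obtain ⟨k, G, z, hG, hGI, hG1, hkx, ha, hb⟩ := exists_arc g hI h1 y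
      have hit : ∀ i : ℕ, ∀ p, G^[i] p = k (g^[i] (k.symm p)) := by
        intro i
        induction i with
        | zero => intro p; simp
        | succ i ihh =>
          intro p
          rw [Function.iterate_succ_apply', ihh, hG, Function.iterate_succ_apply']
          simp
      by_cases hz : G^[m] z = z
      · exact caseI h3 hmin G hGI hG1 z ha hb hz
      · refine caseII h3 hmin G hGI hG1 z ha hb hz ?_
        rw [← hkx, hit]
        simp [hy]

/-- BROUWER'S LEMMA: a homeomorphism of the plane which is isotopic to the identity and has no
fixed point has no periodic point. -/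
theorem brouwer (h : ℂ ≃ₜ ℂ) (hI : HomIso h) (h1 : NoFix h) (n : ℕ) (hn : 1 ≤ n) (z : ℂ) :
    h^[n] z ≠ z :=
  minPer (n + 1) h hI h1 n hn (Nat.lt_succ_self n) z

end Pool.Agent.H25.PR
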