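import Pool.Agent.H25.PR.A4
import Pool.Agent.H25.PR.A5

/-!
# PR module B1: pushing along two segments, many disjoint pushes (150 lines)

`push2`: compose the push along `[u,c]` and the push along `[c,v]` (module A4; identity if the two ends
agree; `infDist p (segment ∪ segment) ≤ infDist p segment`, `Metric.infDist_le_infDist_of_subset`).

`pushes`: let `K a = segment (u a) (c a) ∪ segment (c a) (v a)` for `a < n`. Choose `ε > 0` with
`free_nbhd` (A5) for each `K a` and with `2 ε` at most the distance of `K a` and `K b` for `a ≠ b`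
(compact disjoint sets; finitely many conditions, take a minimum), so the open sets
`N a = {p | infDist p (K a) < ε}` are pairwise disjoint and `F` maps `N a` off `N a`.
Take `ψ a` from `push2` with this `ε` and let `Ψ 0 = id`, `Ψ (m+1) = ψ m ∘ Ψ m`. By induction on `m ≤ n`:
`Ψ m` is a homeomorphism, `HomIso`, `Ψ m p = p` if `p` is in no `N a`, `a < m`; `Ψ m` maps `N a` to `N a` for
every `a < n` (`push_mem` and disjointness), `Ψ m (u a) = v a` for `a < m`. Let `G = Ψ n ∘ F`.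
`NoFix G`: if `Ψ n (F z) = z` and `F z` is in no `N a` then `F z = z`; if `F z ∈ N a` then
`z = Ψ n (F z) ∈ N a`, but `F` maps `N a` off `N a`.
-/

open Complex Set Metric Topology Filter

namespace Pool.Agent.H25.PR

private theorem B1_comp {f g : ℂ ≃ₜ ℂ} (hg : HomIso g) (hf : HomIso f) : HomIso (f.trans g) := by
  have h := homIso_comp hg hf
  have e : (⇑g ∘ ⇑f : ℂ → ℂ) = ⇑(f.trans g) := rfl
  rw [← e]
  exact h

private theorem B1_push (u v : ℂ) {ε : ℝ} (hε : 0 < ε) :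
    ∃ ψ : ℂ ≃ₜ ℂ, HomIso ψ ∧ ψ u = v ∧ ∀ p, ε ≤ infDist p (segment ℝ u v) → ψ p = p := by
  by_cases h : u = v
  · refine ⟨Homeomorph.refl ℂ, homIso_id, h, fun _ _ => rfl⟩
  · obtain ⟨ψ, h1, -, h2, h3, -⟩ := push h hε
    exact ⟨ψ, h1, h2, h3⟩

theorem push2 (u c v : ℂ) {ε : ℝ} (hε : 0 < ε) :
    ∃ ψ : ℂ ≃ₜ ℂ, HomIso ψ ∧ ψ u = v ∧
      ∀ p, ε ≤ infDist p (segment ℝ u c ∪ segment ℝ c v) → ψ p = p := by
  obtain ⟨ψ1, h1, h2, h3⟩ := B1_push u c hε
  obtain ⟨ψ2, k1, k2, k3⟩ := B1_push c v hε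
  refine ⟨ψ1.trans ψ2, B1_comp k1 h1, ?_, fun p hp => ?_⟩
  · show ψ2 (ψ1 u) = v
    rw [h2, k2]
  · show ψ2 (ψ1 p) = p
    rw [h3 p (hp.trans (infDist_le_infDist_of_subset subset_union_left
      ⟨u, left_mem_segment ℝ u c⟩)), k3 p (hp.trans (infDist_le_infDist_of_subset
      subset_union_right ⟨c, left_mem_segment ℝ c v⟩))]

private theorem B1_compact_seg (u v : ℂ) : IsCompact (segment ℝ u v) := by
  rw [segment_eq_image_lineMap]
  exact isCompact_Icc.image AffineMap.lineMap_continuous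

private theorem B1_min (n : ℕ) (f : ℕ → ℝ) (hf : ∀ a, 0 < f a) :
    ∃ ε : ℝ, 0 < ε ∧ ∀ a < n, ε ≤ f a := by
  induction n with
  | zero => exact ⟨1, one_pos, fun a ha => absurd ha (Nat.not_lt_zero a)⟩
  | succ n ih =>
    obtain ⟨ε, hε, h⟩ := ih
    refine ⟨min ε (f n), lt_min hε (hf n), fun a ha => ?_⟩
    rcases Nat.lt_succ_iff_lt_or_eq.1 ha with h1 | h1
    · exact (min_le_left _ _).trans (h a h1)
    · rw [h1]
      exact min_le_right _ _

/-- the compositions -/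
private noncomputable def B1Psi (ψ : ℕ → ℂ ≃ₜ ℂ) : ℕ → ℂ ≃ₜ ℂ
  | 0 => Homeomorph.refl ℂ
  | m + 1 => (B1Psi ψ m).trans (ψ m)

theorem pushes (F : ℂ ≃ₜ ℂ) (hI : HomIso F) (h1 : NoFix F) (n : ℕ) (u c v : ℕ → ℂ)
    (hd : ∀ a < n, ∀ b < n, a ≠ b → Disjoint (segment ℝ (u a) (c a) ∪ segment ℝ (c a) (v a))
      (segment ℝ (u b) (c b) ∪ segment ℝ (c b) (v b)))
    (hf : ∀ a < n, ∀ z ∈ segment ℝ (u a) (c a) ∪ segment ℝ (c a) (v a),
      F z ∉ segment ℝ (u a) (c a) ∪ segment ℝ (c a) (v a)) :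
    ∃ G : ℂ ≃ₜ ℂ, HomIso G ∧ NoFix G ∧ ∀ a < n, ∀ x, F x = u a → G x = v a := by
  set K : ℕ → Set ℂ := fun a => segment ℝ (u a) (c a) ∪ segment ℝ (c a) (v a) with hK
  have hKc : ∀ a, IsCompact (K a) := fun a =>
    (B1_compact_seg _ _).union (B1_compact_seg _ _)
  have huK : ∀ a, u a ∈ K a := fun a => Or.inl (left_mem_segment ℝ _ _)
  have hvK : ∀ a, v a ∈ K a := fun a => Or.inr (right_mem_segment ℝ _ _)
  have hKn : ∀ a, (K a).Nonempty := fun a => ⟨u a, huK a⟩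
  -- constants
  have e1 : ∀ a, ∃ ε : ℝ, 0 < ε ∧
      (a < n → ∀ z, infDist z (K a) < ε → ¬ infDist (F z) (K a) < ε) := by
    intro a
    by_cases ha : a < n
    · obtain ⟨ε, hε, h⟩ := free_nbhd F.continuous (hKc a) (hKn a) (hf a ha)
      exact ⟨ε, hε, fun _ => h⟩
    · exact ⟨1, one_pos, fun h => absurd h ha⟩
  have e2 : ∀ a b, ∃ ε : ℝ, 0 < ε ∧
      (a < n → b < n → a ≠ b → ∀ z, infDist z (K a) < ε → ¬ infDist z (K b) < ε) := by
    intro a b
    by_cases ha : a < n ∧ b < n ∧ a ≠ b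
    · obtain ⟨ε, hε, h⟩ := avoid_nbhd (hKc a) (hKn a) (hKc b) (hd a ha.1 b ha.2.1 ha.2.2)
      refine ⟨ε / 2, half_pos hε, fun _ _ _ z hz hzb => ?_⟩
      obtain ⟨y, hy, hzy⟩ := (infDist_lt_iff (hKn b)).1 hzb
      apply h y hy
      have h2 : infDist y (K a) ≤ infDist z (K a) + dist y z := infDist_le_infDist_add_dist
      rw [dist_comm] at h2
      linarith
    · exact ⟨1, one_pos, fun h h' h'' => absurd ⟨h, h', h''⟩ ha⟩
  choose f1 hf1 hf1' using e1
  choose f2 hf2 hf2' using e2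
  obtain ⟨ε1, hε1, hε1'⟩ := B1_min n f1 hf1
  choose g hg hg' using fun a => B1_min n (f2 a) (hf2 a)
  obtain ⟨ε2, hε2, hε2'⟩ := B1_min n g hg
  obtain ⟨ε, hε, hεa, hεb⟩ : ∃ ε : ℝ, 0 < ε ∧ ε ≤ ε1 ∧ ε ≤ ε2 :=
    ⟨min ε1 ε2, lt_min hε1 hε2, min_le_left _ _, min_le_right _ _⟩
  set N : ℕ → Set ℂ := fun a => {p | infDist p (K a) < ε} with hN
  have hKN : ∀ a, ∀ p ∈ K a, p ∈ N a := by
    intro a p hp
    show infDist p (K a) < ε
    rw [infDist_zero_of_mem hp]
    exact hε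
  have hfree : ∀ a < n, ∀ z ∈ N a, F z ∉ N a := by
    intro a ha z hz hFz
    have h2 : ε ≤ f1 a := hεa.trans (hε1' a ha)
    exact hf1' a ha z (lt_of_lt_of_le hz h2) (lt_of_lt_of_le hFz h2)
  have hdisj : ∀ a < n, ∀ b < n, a ≠ b → ∀ z ∈ N a, z ∉ N b := by
    intro a ha b hb hab z hz hzb
    have h2 : ε ≤ f2 a b := hεb.trans ((hε2' a ha).trans (hg' a b hb))
    exact hf2' a b ha hb hab z (lt_of_lt_of_le hz h2) (lt_of_lt_of_le hzb h2)
  choose ψ hψI hψu hψN using fun a => push2 (u a) (c a) (v a) hε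
  have hψN' : ∀ a, ∀ p, p ∉ N a → ψ a p = p := by
    intro a p hp
    exact hψN a p (not_lt.1 hp)
  have hinv : ∀ m ≤ n, HomIso (B1Psi ψ m) ∧ (∀ p, (∀ a < m, p ∉ N a) → B1Psi ψ m p = p) ∧
      (∀ a < n, ∀ p ∈ N a, B1Psi ψ m p ∈ N a) ∧ ∀ a < m, B1Psi ψ m (u a) = v a := by
    intro m
    induction m with
    | zero =>
      intro _
      exact ⟨homIso_id, fun p _ => rfl, fun a _ p hp => hp,
        fun a ha => absurd ha (Nat.not_lt_zero a)⟩
    | succ m ih =>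
      intro hm
      obtain ⟨i1, i2, i3, i4⟩ := ih (by omega)
      have happ : ∀ p, B1Psi ψ (m + 1) p = ψ m (B1Psi ψ m p) := fun p => rfl
      refine ⟨B1_comp (hψI m) i1, fun p hp => ?_, fun a ha p hp => ?_, fun a ha => ?_⟩
      · rw [happ, i2 p (fun a ha => hp a (by omega)), hψN' m p (hp m (by omega))]
      · rw [happ]
        have h2 := i3 a ha p hp
        by_cases ham : a = m
        · rw [ham] at h2 ⊢
          exact push_mem (ψ m).injective (hψN' m) h2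
        · rw [hψN' m _ (hdisj a ha m (by omega) ham _ h2)]
          exact h2
      · rw [happ]
        rcases Nat.lt_succ_iff_lt_or_eq.1 ha with h2 | h2
        · rw [i4 a h2]
          exact hψN' m _ (hdisj a (by omega) m (by omega) (by omega) _ (hKN a _ (hvK a)))
        · subst h2
          rw [i2 (u a) (fun b hb => hdisj a (by omega) b (by omega) (by omega) _
            (hKN a _ (huK a)))]
          exact hψu a
  obtain ⟨i1, i2, i3, i4⟩ := hinv n le_rfl
  refine ⟨F.trans (B1Psi ψ n), B1_comp i1 hI, ?_, fun a ha x hx => ?_⟩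
  · intro z hz
    have hz' : B1Psi ψ n (F z) = z := hz
    by_cases hex : ∃ a < n, F z ∈ N a
    · obtain ⟨a, ha, hFa⟩ := hex
      have h2 := i3 a ha _ hFa
      rw [hz'] at h2
      exact hfree a ha z h2 hFa
    · push Not at hex
      rw [i2 (F z) hex] at hz'
      exact h1 z hz'
  · show B1Psi ψ n (F x) = v a
    rw [hx]
    exact i4 a ha

end Pool.Agent.H25.PR
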