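import Mathlib

/-!
# PR module B2: shortest closed walks of a relation (60 lines)

Take a closed walk of minimal length `m ≥ 1` (`Nat.find`) and make it periodic: `v a = w (a % m)`.
If `r (v a) (v b)` and `b` is not `a + 1` modulo `m`, let `k = (a + m * (b + 1) - b) % m`, i.e. the number
`k < m` with `b + k ≡ a` modulo `m`; then `k ≠ m - 1`, so `k + 1 < m`, and
`v b, v (b+1), ..., v (b+k) = v a, v b` is a closed walk of length `k + 1 < m`, contradiction.
-/

namespace Pool.Agent.H25.PR

theorem exists_min_cycle {ι : Type*} (r : ι → ι → Prop) (n : ℕ) (hn : 1 ≤ n) (w : ℕ → ι)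
    (hw : w n = w 0) (hr : ∀ a < n, r (w a) (w (a + 1))) :
    ∃ m : ℕ, 1 ≤ m ∧ ∃ v : ℕ → ι, (∀ a, v (a + m) = v a) ∧ (∀ a, r (v a) (v (a + 1))) ∧
      ∀ a b, r (v a) (v b) → b ≡ a + 1 [MOD m] := by
  classical
  have hex : ∃ m : ℕ, 1 ≤ m ∧ ∃ w : ℕ → ι, w m = w 0 ∧ ∀ a < m, r (w a) (w (a + 1)) :=
    ⟨n, hn, w, hw, hr⟩
  obtain ⟨h1, w', hw', hr'⟩ := Nat.find_spec hex
  have hmin : ∀ k, k < Nat.find hex →
      ¬ (1 ≤ k ∧ ∃ w : ℕ → ι, w k = w 0 ∧ ∀ a < k, r (w a) (w (a + 1))) :=
    fun k hk => Nat.find_min hex hk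
  generalize Nat.find hex = m at h1 hw' hr' hmin
  have hv1 : ∀ a, w' ((a + m) % m) = w' (a % m) := by
    intro a; rw [Nat.add_mod_right]
  have hv2 : ∀ a, r (w' (a % m)) (w' ((a + 1) % m)) := by
    intro a
    have hc : a % m < m := Nat.mod_lt _ (by omega)
    have h := hr' (a % m) hc
    rcases Nat.lt_or_ge (a % m + 1) m with h2 | h2
    · have : (a + 1) % m = a % m + 1 := by
        rw [Nat.add_mod_eq_add_mod_right 1 (Nat.mod_mod a m).symm, Nat.mod_eq_of_lt h2]
      rw [this]; exact h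
    · have h3 : a % m + 1 = m := by omega
      have : (a + 1) % m = 0 := by
        rw [Nat.add_mod_eq_add_mod_right 1 (Nat.mod_mod a m).symm, h3, Nat.mod_self]
      rw [this, ← hw', ← h3]
      rw [h3] at h ⊢
      exact h
  refine ⟨m, h1, fun a => w' (a % m), hv1, hv2, ?_⟩
  intro a b hab
  by_contra hne
  set k : ℕ := (a + m * (b + 1) - b) % m with hk
  have hkm : k < m := Nat.mod_lt _ (by omega)
  have hb : b ≤ m * (b + 1) := by nlinarith
  have hbk : b + k ≡ a [MOD m] := by
    have h4 : b + (a + m * (b + 1) - b) = a + m * (b + 1) := by omega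
    have h5 : b + k ≡ b + (a + m * (b + 1) - b) [MOD m] :=
      Nat.ModEq.add_left b (Nat.mod_modEq _ _)
    rw [h4] at h5
    refine h5.trans ?_
    unfold Nat.ModEq
    rw [Nat.add_mul_mod_self_left]
  have hk1 : k + 1 < m := by
    rcases Nat.lt_or_ge (k + 1) m with h | h
    · exact h
    · exfalso
      apply hne
      have h6 : k + 1 = m := by omega
      have h7 : b + k + 1 ≡ a + 1 [MOD m] := Nat.ModEq.add_right 1 hbk
      have h8 : b + k + 1 = b + m := by omega
      rw [h8] at h7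
      refine Nat.ModEq.trans ?_ h7
      unfold Nat.ModEq
      rw [Nat.add_mod_right]
  refine hmin (k + 1) hk1 ⟨by omega, fun c => if c ≤ k then w' ((b + c) % m) else w' (b % m), ?_, ?_⟩
  · simp
  · intro c hc
    have hck : c ≤ k := by omega
    rcases Nat.lt_or_ge c k with h | h
    · have h9 : c + 1 ≤ k := h
      simp only [hck, h9, if_true]
      exact hv2 (b + c)
    · have h10 : c = k := by omega
      have h11 : ¬ (c + 1 ≤ k) := by omega
      simp only [hck, h11, if_true, if_false]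
      have h12 : (b + c) % m = a % m := by rw [h10]; exact hbk
      rw [h12]
      exact hab

end Pool.Agent.H25.PR
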