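import Pool.Agent.H25.PR.B1
import Pool.Agent.H25.PR.B2
import Pool.Agent.H25.PR.A9

/-!
# PR module B3: LEMMA B (Franks lemma for convex bricks) (120 lines)

`brick_lemma`. Assume a closed walk; take `m`, `v` from `exists_min_cycle` for
`r i j := (F '' b i ∩ b j).Nonempty`. Choose `x0 a ∈ b (v a)` with `F (x0 a) ∈ b (v (a+1))`, put
`x a = x0 (a % m)` (then `x a ∈ b (v a)`, `F (x a) ∈ b (v (a+1))`, `x (a+m) = x a`, using `v` periodic),
`y a = F (x (a + m - 1)) ∈ b (v a)`, `c a` an interior point of `b (v a)`.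
`K a = [y a, c a] ∪ [c a, x a] ⊆ b (v a)`; every point of `K a` other than `y a`, `x a` is in the interior
of `b (v a)` (`Convex.openSegment_closure_interior_subset_interior` or
`Convex.openSegment_self_interior_subset_interior`).
For `a, b < m`, `a ≠ b`, `K a` is disjoint from `b (v b)`: an interior point of `b (v a)` is not in
`b (v b)` (`v a ≠ v b`: else `r (v (a+m-1)) (v b)`, so `b ≡ a`); if `x a ∈ b (v b)` then `F (x a)` shows
`r (v b) (v (a+1))`, so `a + 1 ≡ b + 1`; if `y a ∈ b (v b)` then `r (v (a+m-1)) (v b)`, so `b ≡ a + m`.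
So the `K a` are pairwise disjoint, and free because `b (v a)` is. `pushes` gives `G` with
`G (x (a + m - 1)) = x a` for `a < m`, so `G^[m] (x 0) = x m = x 0`, contradicting `brouwer`.
-/

open Complex Set Metric Topology Filter

namespace Pool.Agent.H25.PR

/-- LEMMA B: convex bricks with disjoint interiors which are free for a fixed point free `F` of class
`K`: there is no closed walk. -/
theorem brick_lemma {ι : Type*} (F : ℂ ≃ₜ ℂ) (hI : HomIso F) (h1 : NoFix F) (b : ι → Set ℂ)
    (hb : ∀ i, IsCompact (b i)) (hc : ∀ i, Convex ℝ (b i)) (hi : ∀ i, (interior (b i)).Nonempty)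
    (hd : ∀ i j, i ≠ j → Disjoint (interior (b i)) (b j)) (hf : ∀ i, Disjoint (F '' b i) (b i))
    (n : ℕ) (hn : 1 ≤ n) (w : ℕ → ι) (hw : ∀ a < n, (F '' b (w a) ∩ b (w (a + 1))).Nonempty) :
    w n ≠ w 0 := by
  intro hwn
  obtain ⟨m, hm, v, hvp, hvr, hvm⟩ := exists_min_cycle
    (fun i j => (F '' b i ∩ b j).Nonempty) n hn w hwn hw
  have hvk : ∀ k a, v (a + m * k) = v a := by
    intro k
    induction k with
    | zero => intro a; simp
    | succ k ih => intro a; rw [Nat.mul_succ, ← add_assoc, hvp, ih]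
  have hvmod : ∀ a, v (a % m) = v a := by
    intro a
    conv_rhs => rw [← Nat.mod_add_div a m]
    rw [hvk]
  have hvmod1 : ∀ a, v (a % m + 1) = v (a + 1) := by
    intro a
    have h : a + 1 = (a % m + 1) + m * (a / m) := by
      have := Nat.mod_add_div a m
      omega
    rw [h, hvk]
  have hx0 : ∀ a, ∃ z, z ∈ b (v a) ∧ F z ∈ b (v (a + 1)) := by
    intro a
    obtain ⟨q, ⟨z, hz, rfl⟩, hq⟩ := hvr a
    exact ⟨z, hz, hq⟩
  choose x0 hx0a hx0b using hx0
  obtain ⟨x, hxdef⟩ : ∃ x : ℕ → ℂ, ∀ a, x a = x0 (a % m) := ⟨fun a => x0 (a % m), fun _ => rfl⟩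
  have hxa : ∀ a, x a ∈ b (v a) := by
    intro a; rw [hxdef, ← hvmod a]; exact hx0a _
  have hxb : ∀ a, F (x a) ∈ b (v (a + 1)) := by
    intro a; rw [hxdef, ← hvmod1 a]; exact hx0b _
  have hxm : ∀ a a', a ≡ a' [MOD m] → x a = x a' := by
    intro a a' h; rw [hxdef, hxdef, h]
  obtain ⟨y, hydef⟩ : ∃ y : ℕ → ℂ, ∀ a, y a = F (x (a + m - 1)) := ⟨fun a => F (x (a + m - 1)), fun _ => rfl⟩
  have hsub : ∀ a, a + m - 1 + 1 = a + m := fun a => by omega
  have hya : ∀ a, y a ∈ b (v a) := by
    intro a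
    have h := hxb (a + m - 1)
    rw [hsub, hvp] at h
    rw [hydef]; exact h
  choose c0 hc0 using hi
  obtain ⟨c, hcdef⟩ : ∃ c : ℕ → ℂ, ∀ a, c a = c0 (v a) := ⟨fun a => c0 (v a), fun _ => rfl⟩
  have hca : ∀ a, c a ∈ interior (b (v a)) := by
    intro a; rw [hcdef]; exact hc0 _
  -- points of the two segments
  have hseg : ∀ a p, p ∈ segment ℝ (y a) (c a) ∪ segment ℝ (c a) (x a) →
      p ∈ interior (b (v a)) ∨ p = y a ∨ p = x a := by
    intro a p hp
    rcases hp with hp | hp
    · rw [← insert_endpoints_openSegment] at hp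
      rcases hp with rfl | rfl | hp
      · exact Or.inr (Or.inl rfl)
      · exact Or.inl (hca a)
      · exact Or.inl ((hc _).openSegment_self_interior_subset_interior (hya a) (hca a) hp)
    · rw [← insert_endpoints_openSegment] at hp
      rcases hp with rfl | rfl | hp
      · exact Or.inl (hca a)
      · exact Or.inr (Or.inr rfl)
      · rw [openSegment_symm] at hp
        exact Or.inl ((hc _).openSegment_self_interior_subset_interior (hxa a) (hca a) hp)
  have hsegb : ∀ a p, p ∈ segment ℝ (y a) (c a) ∪ segment ℝ (c a) (x a) → p ∈ b (v a) := by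
    intro a p hp
    rcases hseg a p hp with h | rfl | rfl
    · exact interior_subset h
    · exact hya a
    · exact hxa a
  have hlt : ∀ a a', a < m → a' < m → a ≡ a' [MOD m] → a = a' := by
    intro a a' ha ha' h
    exact Nat.ModEq.eq_of_lt_of_lt h ha ha'
  have hpred : ∀ a a', a < m → a' < m → (F '' b (v (a + m - 1)) ∩ b (v a')).Nonempty → a = a' := by
    intro a a' ha ha' h
    have h1 := hvm _ _ h
    rw [hsub] at h1
    refine hlt a a' ha ha' ?_
    refine Nat.ModEq.symm (h1.trans ?_)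
    unfold Nat.ModEq
    rw [Nat.add_mod_right]
  have hKd : ∀ a < m, ∀ a' < m, a ≠ a' → ∀ p,
      p ∈ segment ℝ (y a) (c a) ∪ segment ℝ (c a) (x a) → p ∉ b (v a') := by
    intro a ha a' ha' hne p hp hpb
    rcases hseg a p hp with h | rfl | rfl
    · by_cases hv : v a = v a'
      · refine hne (hpred a a' ha ha' ⟨y a, ⟨x (a + m - 1), hxa _, (hydef a).symm⟩, ?_⟩)
        rw [← hv]; exact hya a
      · exact Set.disjoint_left.1 (hd _ _ hv) h hpb
    · exact hne (hpred a a' ha ha' ⟨y a, ⟨x (a + m - 1), hxa _, (hydef a).symm⟩, hpb⟩)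
    · have h2 : (F '' b (v a') ∩ b (v (a + 1))).Nonempty := ⟨F (x a), ⟨x a, hpb, rfl⟩, hxb a⟩
      have h3 := hvm _ _ h2
      exact hne (hlt a a' ha ha' (Nat.ModEq.add_right_cancel' 1 h3))
  obtain ⟨G, hGI, hG1, hG⟩ := pushes F hI h1 m y c x
    (by
      intro a ha a' ha' hne
      rw [Set.disjoint_left]
      intro p hp hp'
      exact hKd a ha a' ha' hne p hp (hsegb a' p hp'))
    (by
      intro a ha z hz hz'
      exact Set.disjoint_left.1 (hf (v a)) ⟨z, hsegb a z hz, rfl⟩ (hsegb a _ hz'))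
  have hstep : ∀ j, G (x j) = x (j + 1) := by
    intro j
    have hlt' : (j + 1) % m < m := Nat.mod_lt _ (by omega)
    have h := hG ((j + 1) % m) hlt' (x ((j + 1) % m + m - 1)) (hydef _).symm
    have h4 : (j + 1) % m + m - 1 ≡ j [MOD m] := by
      have h5 : (j + 1) % m + m - 1 + 1 ≡ j + 1 [MOD m] := by
        rw [hsub]
        refine Nat.ModEq.trans ?_ (Nat.mod_modEq (j + 1) m)
        unfold Nat.ModEq
        rw [Nat.add_mod_right]
      exact Nat.ModEq.add_right_cancel' 1 h5
    rw [hxm _ _ h4, hxm _ _ (Nat.mod_modEq (j + 1) m)] at h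
    exact h
  have hit : ∀ j, G^[j] (x 0) = x j := by
    intro j
    induction j with
    | zero => rfl
    | succ j ih => rw [Function.iterate_succ_apply', ih, hstep]
  refine brouwer G hGI hG1 m hm (x 0) ?_
  rw [hit]
  apply hxm
  unfold Nat.ModEq
  simp

end Pool.Agent.H25.PR
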