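import Mathlib

/-!
# PR (MP_3addf4_an), definitions of part A
Plane homeomorphisms isotopic to the identity, angle changes along paths.
Paper: /team-store/h25_pr_paper.md
-/

open Complex Set Metric Topology Filter

namespace Pool.Agent.H25.PR

/-- `h` is isotopic to the identity through injective continuous maps of the plane. -/
def HomIso (h : ℂ → ℂ) : Prop :=
  ∃ H : ℝ → ℂ → ℂ, Continuous (fun p : ℝ × ℂ => H p.1 p.2) ∧
    (∀ t, Function.Injective (H t)) ∧ (∀ z, H 0 z = z) ∧ ∀ z, H 1 z = h z

/-- no fixed point -/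
def NoFix (h : ℂ → ℂ) : Prop := ∀ z, h z ≠ z

/-- `θ` is a continuous argument of `f` -/
def IsArg {X : Type*} [TopologicalSpace X] (f : X → ℂ) (θ : X → ℝ) : Prop :=
  Continuous θ ∧ ∀ x, f x = ‖f x‖ * cexp (θ x * I)

open Classical in
/-- change of the argument of `P` from `a` to `b` (junk value `0` if `P` has no continuous
argument) -/
noncomputable def darg (P : ℝ → ℂ) (a b : ℝ) : ℝ :=
  if h : ∃ θ : ℝ → ℝ, IsArg P θ then h.choose b - h.choose a else 0

end Pool.Agent.H25.PR
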