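import Pool.Agent.H25.PR.Defs

/-!
# PR module E1: calculus of pairs (150 lines)

Elementary facts on `DPair`, `APair`. `Dsk` is convex with nonempty interior, so
`UniqueDiffOn ℝ Dsk` (`Convex.uniqueDiffOn`, `uniqueDiffOn_closedBall`?). Chain rule:
`fderivWithin_comp`, `ContDiffOn.comp`. For `APair.symm`: differentiate `f (f' z) = z` on `Dsk`
(`fderivWithin_congr`, `fderivWithin_id`), so the two derivatives are inverse to each other and the
determinants multiply to `1` (`ContinuousLinearMap.det`, `LinearMap.det_comp`).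
`iterate`: induction with `comp`.
-/

open Complex Set Metric Topology Filter

namespace Pool.Agent.H25.PR

theorem uniqueDsk : UniqueDiffOn ℝ Dsk := by
  refine uniqueDiffOn_convex (convex_closedBall (0 : ℂ) 1) ?_
  rw [interior_closedBall (0 : ℂ) one_ne_zero]
  exact ⟨0, by simp⟩

theorem DPair.symm {n : ℕ∞} {f f' : ℂ → ℂ} (h : DPair n f f') : DPair n f' f :=
  ⟨h.maps', h.maps, h.right, h.left, h.smooth', h.smooth⟩

theorem DPair.of_le {m n : ℕ∞} {f f' : ℂ → ℂ} (h : DPair n f f') (hmn : m ≤ n) :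
    DPair m f f' :=
  ⟨h.maps, h.maps', h.left, h.right, h.smooth.of_le (by exact_mod_cast hmn),
    h.smooth'.of_le (by exact_mod_cast hmn)⟩

theorem DPair.comp {n : ℕ∞} {f f' g g' : ℂ → ℂ} (h : DPair n f f') (k : DPair n g g') :
    DPair n (fun z => f (g z)) (fun z => g' (f' z)) := by
  refine ⟨h.maps.comp k.maps, k.maps'.comp h.maps', fun z hz => ?_, fun z hz => ?_,
    h.smooth.comp k.smooth k.maps, k.smooth'.comp h.smooth' h.maps'⟩
  · rw [h.left _ (k.maps hz), k.left _ hz]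
  · rw [k.right _ (h.maps' hz), h.right _ hz]

theorem fderivWithin_comp_Dsk {f g : ℂ → ℂ} {z : ℂ} (hz : z ∈ Dsk)
    (hf : DifferentiableWithinAt ℝ f Dsk (g z)) (hg : DifferentiableWithinAt ℝ g Dsk z)
    (hm : MapsTo g Dsk Dsk) :
    fderivWithin ℝ (fun w => f (g w)) Dsk z
      = (fderivWithin ℝ f Dsk (g z)).comp (fderivWithin ℝ g Dsk z) :=
  (hf.hasFDerivWithinAt.comp z hg.hasFDerivWithinAt hm).fderivWithin (uniqueDsk z hz)

theorem DPair.diff {n : ℕ∞} (hn : 1 ≤ n) {f f' : ℂ → ℂ} (h : DPair n f f') {z : ℂ}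
    (hz : z ∈ Dsk) : DifferentiableWithinAt ℝ f Dsk z := by
  have h1 : ContDiffOn ℝ 1 f Dsk := h.smooth.of_le (by exact_mod_cast hn)
  exact h1.differentiableOn one_ne_zero z hz

theorem DPair.fderiv_symm {n : ℕ∞} (hn : 1 ≤ n) {f f' : ℂ → ℂ} (h : DPair n f f') {z : ℂ}
    (hz : z ∈ Dsk) :
    (fderivWithin ℝ f' Dsk (f z)).comp (fderivWithin ℝ f Dsk z)
      = ContinuousLinearMap.id ℝ ℂ ∧
    (fderivWithin ℝ f Dsk z).comp (fderivWithin ℝ f' Dsk (f z))
      = ContinuousLinearMap.id ℝ ℂ := by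
  have key : ∀ (g g' : ℂ → ℂ), DPair n g g' → ∀ w ∈ Dsk,
      (fderivWithin ℝ g' Dsk (g w)).comp (fderivWithin ℝ g Dsk w)
        = ContinuousLinearMap.id ℝ ℂ := by
    intro g g' k w hw
    rw [← fderivWithin_comp_Dsk hw (k.symm.diff hn (k.maps hw)) (k.diff hn hw) k.maps]
    rw [fderivWithin_congr (f := fun w => w) (f₁ := fun w => g' (g w))
      (fun x hx => k.left x hx) (k.left w hw)]
    exact fderivWithin_fun_id (uniqueDsk w hw)
  refine ⟨key f f' h z hz, ?_⟩
  have h2 := key f' f h.symm (f z) (h.maps hz)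
  rw [h.left z hz] at h2
  exact h2

theorem det_comp_clm (A B : ℂ →L[ℝ] ℂ) : (A.comp B).det = A.det * B.det := by
  have : ((A.comp B : ℂ →L[ℝ] ℂ) : ℂ →ₗ[ℝ] ℂ) = (A : ℂ →ₗ[ℝ] ℂ) ∘ₗ (B : ℂ →ₗ[ℝ] ℂ) := rfl
  rw [ContinuousLinearMap.det, this, LinearMap.det_comp]

theorem APair.symm {n : ℕ∞} (hn : 1 ≤ n) {f f' : ℂ → ℂ} (h : APair n f f') : APair n f' f := by
  refine ⟨h.toDPair.symm, fun z hz => ?_⟩
  have h1 := (h.toDPair.fderiv_symm hn (h.maps' hz)).1
  rw [h.right z hz] at h1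
  have h2 := congrArg ContinuousLinearMap.det h1
  rw [det_comp_clm, h.area _ (h.maps' hz), mul_one] at h2
  rw [h2]
  simp [ContinuousLinearMap.det]

theorem APair.of_le {m n : ℕ∞} {f f' : ℂ → ℂ} (h : APair n f f') (hmn : m ≤ n) :
    APair m f f' := ⟨h.toDPair.of_le hmn, h.area⟩

theorem APair.comp {n : ℕ∞} (hn : 1 ≤ n) {f f' g g' : ℂ → ℂ} (h : APair n f f')
    (k : APair n g g') : APair n (fun z => f (g z)) (fun z => g' (f' z)) := by
  refine ⟨h.toDPair.comp k.toDPair, fun z hz => ?_⟩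
  rw [fderivWithin_comp_Dsk hz (h.toDPair.diff hn (k.maps hz)) (k.toDPair.diff hn hz) k.maps,
    det_comp_clm, h.area _ (k.maps hz), k.area _ hz, mul_one]

theorem APair.id (n : ℕ∞) : APair n (fun z => z) (fun z => z) := by
  refine ⟨⟨fun z hz => hz, fun z hz => hz, fun z _ => rfl, fun z _ => rfl, contDiffOn_id,
    contDiffOn_id⟩, fun z hz => ?_⟩
  rw [fderivWithin_fun_id (uniqueDsk z hz)]
  simp [ContinuousLinearMap.det]

theorem APair.iterate {n : ℕ∞} (hn : 1 ≤ n) {f f' : ℂ → ℂ} (h : APair n f f') (k : ℕ) :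
    APair n (f^[k]) (f'^[k]) := by
  induction k with
  | zero => exact APair.id n
  | succ k ih =>
    have h1 := ih.comp hn h
    have h2 : (fun z => f'  (f'^[k] z)) = f'^[k + 1] := by
      funext z
      rw [Function.iterate_succ_apply']
    rw [h2] at h1
    exact h1

/-- changing the functions outside the disc -/
theorem APair.congr {n : ℕ∞} {f f' g g' : ℂ → ℂ} (h : APair n f f')
    (hg : ∀ z ∈ Dsk, g z = f z) (hg' : ∀ z ∈ Dsk, g' z = f' z) : APair n g g' := by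
  refine ⟨⟨fun z hz => ?_, fun z hz => ?_, fun z hz => ?_, fun z hz => ?_,
    h.smooth.congr hg, h.smooth'.congr hg'⟩, fun z hz => ?_⟩
  · rw [hg z hz]; exact h.maps hz
  · rw [hg' z hz]; exact h.maps' hz
  · rw [hg z hz, hg' _ (h.maps hz), h.left z hz]
  · rw [hg' z hz, hg _ (h.maps' hz), h.right z hz]
  · rw [fderivWithin_congr hg (hg z hz)]
    exact h.area z hz

/-- the derivative at `0` of an iterate of a map whose derivative at `0` is a rotation -/
theorem fderiv_iterate_zero {f f' : ℂ → ℂ} {n : ℕ∞} (hn : 1 ≤ n) (h : APair n f f') (h0 : f 0 = 0)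
    {α : ℝ} (hd : ∀ v : ℂ, fderivWithin ℝ f Dsk 0 v = e α * v) (q : ℕ) (v : ℂ) :
    fderivWithin ℝ (f^[q]) Dsk 0 v = e (q * α) * v := by
  have hz : (0 : ℂ) ∈ Dsk := by simp
  induction q generalizing v with
  | zero =>
    have h1 : (f^[0] : ℂ → ℂ) = fun z => z := rfl
    rw [h1, fderivWithin_fun_id (uniqueDsk 0 hz)]
    simp [e]
  | succ q ih =>
    have h1 : (f^[q + 1] : ℂ → ℂ) = fun z => f^[q] (f z) := rfl
    have hq := (h.iterate hn q).toDPair
    rw [h1, fderivWithin_comp_Dsk hz (hq.diff hn (h.maps hz)) (h.toDPair.diff hn hz) h.maps,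
      ContinuousLinearMap.comp_apply, hd, h0]
    have h2 : fderivWithin ℝ (f^[q]) Dsk 0 (e α * v) = e (q * α) * (e α * v) := ih (e α * v)
    rw [h2, ← mul_assoc]
    congr 1
    rw [e, e, e, ← Complex.exp_add]
    congr 1
    push_cast
    ring

end Pool.Agent.H25.PR
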