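import Pool.Agent.H25.PR.E1

/-!
# PR module E2: twist maps (140 lines)

`φ z = c + (z - c) * exp (i X(|z-c|^2))` with `X s = t * (s - 1/16) * Real.smoothTransition (8 * (1/4 - s))`
(`X = 0` for `s ≥ 1/4`; the cutoff is `1` for `s ≤ 1/8`, so `X (1/16) = 0`, `X' (1/16) = t`), inverse with `-X`.
`|z - c|^2 = Complex.normSq (z - c)`; everything is `C^∞` on all of `ℂ` over `ℝ`
(`Real.smoothTransition.contDiff`). With `w = z - c`, `s = |w|^2`:
`Dφ(z) v = exp (i X s) * (v + i w X'(s) * 2 Re (conj w * v))`, whose determinant is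
`|exp|^2 * (1 + 2 X'(s) Re (conj w * (i w))) = 1`; at `z = 0`, `w = -c`, `s = 1/16`:
`Dφ(0) v = v + 2 t Re(conj c * v) * (i c)`. If `‖z‖ ≥ 3/4` then `‖z-c‖ ≥ 1/2` and `φ z = z`; if
`‖z - c‖ < 1/2` then `‖φ z - c‖ = ‖z - c‖ < 1/2`, so `‖φ z‖ < 3/4`.
`fderivWithin = fderiv` on `Dsk` (`uniqueDsk`).
A convenient way for the determinant of `v ↦ v + g(v) u` (`g` real linear): matrix in the basis `1, I`
(`Complex.basisOneI`, `LinearMap.det_toLin` or `LinearMap.det_eq_det_toMatrix_of_finset`), or a lemma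
`det (v ↦ a * v + b * conj v) = |a|^2 - |b|^2`.
-/

open Complex Set Metric Topology Filter

namespace Pool.Agent.H25.PR

/-- determinant of a real linear map of the complex plane -/
theorem det_eq (A : ℂ →L[ℝ] ℂ) : A.det = (A 1).re * (A I).im - (A 1).im * (A I).re := by
  rw [ContinuousLinearMap.det, ← LinearMap.det_toMatrix Complex.basisOneI, Matrix.det_fin_two]
  simp only [LinearMap.toMatrix_apply, Complex.coe_basisOneI, Complex.coe_basisOneI_repr,
    ContinuousLinearMap.coe_coe, Matrix.cons_val_zero, Matrix.cons_val_one]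
  ring

private noncomputable def E2X (t s : ℝ) : ℝ :=
  t * (s - 1 / 16) * Real.smoothTransition (8 * (1 / 4 - s))

private theorem E2X_smooth (t : ℝ) : ContDiff ℝ ((⊤ : ℕ∞) : WithTop ℕ∞) (E2X t) := by
  unfold E2X
  have h1 : ContDiff ℝ ((⊤ : ℕ∞) : WithTop ℕ∞) (fun s : ℝ => Real.smoothTransition (8 * (1 / 4 - s))) :=
    Real.smoothTransition.contDiff.comp (by fun_prop)
  exact (by fun_prop : ContDiff ℝ ((⊤ : ℕ∞) : WithTop ℕ∞) (fun s : ℝ => t * (s - 1 / 16))).mul h1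

private theorem E2X_zero (t : ℝ) {s : ℝ} (hs : 1 / 4 ≤ s) : E2X t s = 0 := by
  rw [E2X, Real.smoothTransition.zero_of_nonpos (by linarith), mul_zero]

private theorem E2X_deriv (t : ℝ) : HasDerivAt (E2X t) t (1 / 16) := by
  have h1 : HasDerivAt (fun s : ℝ => t * (s - 1 / 16)) t (1 / 16) := by
    have := ((hasDerivAt_id (1 / 16 : ℝ)).sub_const (1 / 16)).const_mul t
    simpa using this
  refine h1.congr_of_eventuallyEq ?_
  filter_upwards [Iio_mem_nhds (show (1 / 16 : ℝ) < 1 / 8 by norm_num)] with s hs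
  have hs' : s < 1 / 8 := hs
  rw [E2X, Real.smoothTransition.one_of_one_le (by linarith), mul_one]

private noncomputable def E2N (c z : ℂ) : ℝ := (z.re - c.re) ^ 2 + (z.im - c.im) ^ 2

private theorem E2N_eq (c z : ℂ) : E2N c z = ‖z - c‖ ^ 2 := by
  rw [E2N, ← Complex.normSq_eq_norm_sq, Complex.normSq_apply, sub_re, sub_im]
  ring

private noncomputable def E2f (c : ℂ) (t : ℝ) (z : ℂ) : ℂ :=
  c + (z - c) * cexp (I * (E2X t (E2N c z) : ℝ))

private theorem E2f_norm (c : ℂ) (t : ℝ) (z : ℂ) : ‖E2f c t z - c‖ = ‖z - c‖ := by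
  rw [E2f, add_sub_cancel_left, norm_mul, mul_comm I, Complex.norm_exp_ofReal_mul_I, mul_one]

private theorem E2f_inv (c : ℂ) (t : ℝ) (z : ℂ) : E2f c (-t) (E2f c t z) = z := by
  have h1 : E2N c (E2f c t z) = E2N c z := by
    rw [E2N_eq, E2N_eq, E2f_norm]
  have h2 : E2X (-t) (E2N c z) = -E2X t (E2N c z) := by
    rw [E2X, E2X]; ring
  rw [E2f, h1, h2, E2f, add_sub_cancel_left, mul_assoc, ← Complex.exp_add]
  push_cast
  have h3 : I * (E2X t (E2N c z) : ℂ) + I * -(E2X t (E2N c z) : ℂ) = 0 := by ring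
  rw [h3, Complex.exp_zero, mul_one]
  ring

private theorem E2f_far (c : ℂ) (t : ℝ) {z : ℂ} (hz : 1 / 2 ≤ ‖z - c‖) : E2f c t z = z := by
  have h1 : (1 / 4 : ℝ) ≤ E2N c z := by
    rw [E2N_eq]
    nlinarith
  rw [E2f, E2X_zero t h1]
  simp

private theorem E2f_smooth (c : ℂ) (t : ℝ) : ContDiff ℝ ((⊤ : ℕ∞) : WithTop ℕ∞) (E2f c t) := by
  have hre : ContDiff ℝ ((⊤ : ℕ∞) : WithTop ℕ∞) (fun z : ℂ => z.re) := Complex.reCLM.contDiff
  have him : ContDiff ℝ ((⊤ : ℕ∞) : WithTop ℕ∞) (fun z : ℂ => z.im) := Complex.imCLM.contDiff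
  have hN : ContDiff ℝ ((⊤ : ℕ∞) : WithTop ℕ∞) (E2N c) := by
    unfold E2N
    fun_prop
  have hX : ContDiff ℝ ((⊤ : ℕ∞) : WithTop ℕ∞) (fun z => ((E2X t (E2N c z) : ℝ) : ℂ)) :=
    Complex.ofRealCLM.contDiff.comp ((E2X_smooth t).comp hN)
  have hE : ContDiff ℝ ((⊤ : ℕ∞) : WithTop ℕ∞) (fun z => cexp (I * (E2X t (E2N c z) : ℝ))) :=
    (contDiff_const.mul hX).cexp
  exact contDiff_const.add ((contDiff_id.sub contDiff_const).mul hE)

private theorem E2f_fderiv (c : ℂ) (t : ℝ) (z : ℂ) {k : ℝ}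
    (hk : HasDerivAt (E2X t) k (E2N c z)) :
    ∃ L : ℂ →L[ℝ] ℂ, HasFDerivAt (E2f c t) L z ∧ ∀ v : ℂ, L v =
      cexp (I * (E2X t (E2N c z) : ℝ)) * (v + I * (z - c) *
        ((k * (2 * (z.re - c.re) * v.re + 2 * (z.im - c.im) * v.im) : ℝ) : ℂ)) := by
  have hre : HasFDerivAt (fun z : ℂ => z.re) Complex.reCLM z := Complex.reCLM.hasFDerivAt
  have him : HasFDerivAt (fun z : ℂ => z.im) Complex.imCLM z := Complex.imCLM.hasFDerivAt
  have hN := ((hre.sub_const c.re).pow 2).add ((him.sub_const c.im).pow 2)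
  have hXN := hk.comp_hasFDerivAt z hN
  have hX := Complex.ofRealCLM.hasFDerivAt.comp z hXN
  have hE := (hX.const_mul I).cexp
  have hW := (hasFDerivAt_id (𝕜 := ℝ) z).sub_const c
  have hP := (hW.mul hE).const_add c
  refine ⟨_, hP, ?_⟩
  intro v
  simp only [id, Function.comp_apply, _root_.add_apply,
    _root_.smul_apply, ContinuousLinearMap.comp_apply, Complex.ofRealCLM_apply,
    Complex.reCLM_apply, Complex.imCLM_apply, smul_eq_mul, ContinuousLinearMap.id_apply, E2N]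
  push_cast
  ring

private theorem E2f_det (c : ℂ) (t : ℝ) (z : ℂ) : (fderiv ℝ (E2f c t) z).det = 1 := by
  have hd : HasDerivAt (E2X t) (deriv (E2X t) (E2N c z)) (E2N c z) :=
    ((E2X_smooth t).differentiable (by simp)).differentiableAt.hasDerivAt
  obtain ⟨L, hL, hv⟩ := E2f_fderiv c t z hd
  rw [hL.fderiv, det_eq, hv, hv]
  set k := deriv (E2X t) (E2N c z) with hk
  set E := cexp (I * (E2X t (E2N c z) : ℝ)) with hE
  have hn : E.re * E.re + E.im * E.im = 1 := by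
    have h1 : ‖E‖ = 1 := by
      rw [hE, mul_comm I, Complex.norm_exp_ofReal_mul_I]
    have h2 := Complex.normSq_eq_norm_sq E
    rw [h1, Complex.normSq_apply] at h2
    linarith
  simp only [mul_re, mul_im, add_re, add_im, one_re, one_im, I_re, I_im, ofReal_re, ofReal_im,
    sub_re, sub_im]
  linear_combination hn

theorem twist (c : ℂ) (hc : ‖c‖ = 1 / 4) (t : ℝ) :
    ∃ h h' : ℂ → ℂ, APair ⊤ h h' ∧ h 0 = 0 ∧
      (∀ v : ℂ, fderivWithin ℝ h Dsk 0 v
        = v + 2 * t * (((starRingEnd ℂ) c * v).re : ℂ) * (I * c)) ∧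
      (∀ z, 3 / 4 ≤ ‖z‖ → h z = z) ∧ ∀ z, 3 / 4 ≤ ‖z‖ → h' z = z := by
  have hfar : ∀ (s : ℝ) (z : ℂ), 3 / 4 ≤ ‖z‖ → E2f c s z = z := by
    intro s z hz
    refine E2f_far c s ?_
    have h1 := norm_sub_norm_le z c
    rw [hc] at h1
    linarith
  have hmaps : ∀ s : ℝ, MapsTo (E2f c s) Dsk Dsk := by
    intro s z hz
    rcases le_total (1 / 2) ‖z - c‖ with h1 | h1
    · rw [E2f_far c s h1]
      exact hz
    · rw [mem_closedBall_zero_iff]
      have h2 : ‖E2f c s z‖ ≤ ‖E2f c s z - c‖ + ‖c‖ := by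
        have := norm_add_le (E2f c s z - c) c
        rwa [sub_add_cancel] at this
      rw [E2f_norm, hc] at h2
      linarith
  have h0 : E2f c t 0 = 0 := by
    have h1 : E2N c 0 = 1 / 16 := by
      rw [E2N_eq, zero_sub, norm_neg, hc]; norm_num
    rw [E2f, h1, E2X]
    simp
  have hinv : ∀ z, E2f c t (E2f c (-t) z) = z := by
    intro z
    have := E2f_inv c (-t) z
    rwa [neg_neg] at this
  have h0mem : (0 : ℂ) ∈ Dsk := by simp
  refine ⟨E2f c t, E2f c (-t), ⟨⟨hmaps t, hmaps (-t), fun z _ => E2f_inv c t z, fun z _ => hinv z,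
    (E2f_smooth c t).contDiffOn, (E2f_smooth c (-t)).contDiffOn⟩,
    ?_⟩, h0, ?_, hfar t, hfar (-t)⟩
  · intro z hz
    have hd : DifferentiableAt ℝ (E2f c t) z :=
      ((E2f_smooth c t).differentiable (by simp)).differentiableAt
    rw [hd.fderivWithin (uniqueDsk z hz)]
    exact E2f_det c t z
  · intro v
    have h1 : E2N c 0 = 1 / 16 := by
      rw [E2N_eq, zero_sub, norm_neg, hc]; norm_num
    have hk : HasDerivAt (E2X t) t (E2N c 0) := by
      rw [h1]
      exact E2X_deriv t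
    obtain ⟨L, hL, hv⟩ := E2f_fderiv c t 0 hk
    rw [hL.hasFDerivWithinAt.fderivWithin (uniqueDsk 0 h0mem), hv, h1]
    have h2 : E2X t (1 / 16) = 0 := by rw [E2X]; ring
    rw [h2]
    simp only [ofReal_zero, mul_zero, Complex.exp_zero, one_mul, zero_re, zero_im, zero_sub,
      mul_re, conj_re, conj_im]
    push_cast
    ring

end Pool.Agent.H25.PR
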