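import Pool.Agent.H25.PR.E2

/-!
# PR module E3: every matrix in SL2(R) is the derivative at 0 of an area preserving diffeomorphism (120 lines)

Let `Real P` be the conclusion of the theorem for `P`. `Real` is closed under composition (`APair.comp`,
`fderivWithin_comp_Dsk`; note `h 0 = 0`). `twist (1/4) (8 a)` realises `U a : x + i y ↦ x + i (y + a x)` and
`twist (I/4) (-8 b)` realises `L b : x + i y ↦ (x + b y) + i y`
(`(conj (I/4) * v).re = v.im / 4`, `I * (I/4) = -1/4`).
`P` with `P.det = 1`: let `a = (P 1).re`, `c = (P 1).im`, `b = (P I).re`, `d = (P I).im`, `a d - b c = 1`.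
If `c ≠ 0`: `P = L ((a-1)/c) ∘ U c ∘ L ((d-1)/c)`. If `c = 0` then `d ≠ 0` and `P = (P ∘ U 1) ∘ U (-1)`,
where `P ∘ U 1` has lower left entry `d ≠ 0`. Two real linear maps agree if they agree at `1` and `I`.
-/

open Complex Set Metric Topology Filter

namespace Pool.Agent.H25.PR

/-- the linear map is realised -/
private def Rlz (P : ℂ →L[ℝ] ℂ) : Prop :=
  ∃ h h' : ℂ → ℂ, APair ⊤ h h' ∧ h 0 = 0 ∧ fderivWithin ℝ h Dsk 0 = P ∧
    (∀ z, 3 / 4 ≤ ‖z‖ → h z = z) ∧ ∀ z, 3 / 4 ≤ ‖z‖ → h' z = z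

private theorem e3_comp {P Q : ℂ →L[ℝ] ℂ} (hP : Rlz P) (hQ : Rlz Q) : Rlz (P.comp Q) := by
  obtain ⟨h, h', hp, h0, hd, h1, h2⟩ := hP
  obtain ⟨g, g', gp, g0, gd, g1, g2⟩ := hQ
  have hz : (0 : ℂ) ∈ Dsk := by simp
  refine ⟨fun z => h (g z), fun z => g' (h' z), hp.comp le_top gp, ?_, ?_, ?_, ?_⟩
  · show h (g 0) = 0
    rw [g0, h0]
  · rw [fderivWithin_comp_Dsk hz, g0, hd, gd]
    · rw [g0]
      exact (hp.smooth 0 hz).differentiableWithinAt (by simp)
    · exact (gp.smooth 0 hz).differentiableWithinAt (by simp)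
    · exact gp.maps
  · intro z hz
    show h (g z) = z
    rw [g1 z hz, h1 z hz]
  · intro z hz
    show g' (h' z) = z
    rw [h2 z hz, g2 z hz]

private theorem e3_apply (P : ℂ →L[ℝ] ℂ) (v : ℂ) : P v = v.re • P 1 + v.im • P I := by
  have h1 : v = v.re • (1 : ℂ) + v.im • I := by
    apply Complex.ext <;> simp
  conv_lhs => rw [h1]
  rw [map_add, map_smul, map_smul]

private theorem e3_ext {P Q : ℂ →L[ℝ] ℂ} (h1 : P 1 = Q 1) (h2 : P I = Q I) : P = Q := by
  ext v
  rw [e3_apply P, e3_apply Q, h1, h2]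

/-- the linear map with given values at `1` and `I` -/
private noncomputable def mk (p q : ℂ) : ℂ →L[ℝ] ℂ :=
  Complex.reCLM.smulRight p + Complex.imCLM.smulRight q

private theorem mk_apply (p q v : ℂ) : mk p q v = v.re • p + v.im • q := rfl

private theorem mk_one (p q : ℂ) : mk p q 1 = p := by
  rw [mk_apply]
  simp

private theorem mk_I (p q : ℂ) : mk p q I = q := by
  rw [mk_apply]
  simp

private theorem e3_U (a : ℝ) : Rlz (mk (1 + a * I) I) := by
  obtain ⟨h, h', hp, h0, hd, h1, h2⟩ := twist (1 / 4) (by norm_num) (8 * a)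
  refine ⟨h, h', hp, h0, ?_, h1, h2⟩
  ext v
  rw [hd, mk_apply]
  apply Complex.ext
  · simp
  · simp
    ring

private theorem e3_L (b : ℝ) : Rlz (mk 1 (b + I)) := by
  obtain ⟨h, h', hp, h0, hd, h1, h2⟩ := twist (I / 4) (by simp) (-8 * b)
  refine ⟨h, h', hp, h0, ?_, h1, h2⟩
  have e : (starRingEnd ℂ) (I / 4) = ((-1 / 4 : ℝ) : ℂ) * I := by
    rw [map_div₀, conj_I, show (starRingEnd ℂ) 4 = 4 from Complex.conj_ofNat 4]
    push_cast
    ring
  ext v
  rw [hd, mk_apply, e]
  apply Complex.ext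
  · simp
    ring
  · simp

private theorem e3_ne {P : ℂ →L[ℝ] ℂ}
    (hP : (P 1).re * (P I).im - (P 1).im * (P I).re = 1) (hc : (P 1).im ≠ 0) : Rlz P := by
  have key : P = (mk 1 ((((P 1).re - 1) / (P 1).im : ℝ) + I)).comp
      ((mk (1 + (P 1).im * I) I).comp (mk 1 ((((P I).im - 1) / (P 1).im : ℝ) + I))) := by
    apply e3_ext
    · rw [ContinuousLinearMap.comp_apply, ContinuousLinearMap.comp_apply, mk_one, mk_one,
        mk_apply]
      apply Complex.ext
      · simp
        field_simp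
        ring
      · simp
    · rw [ContinuousLinearMap.comp_apply, ContinuousLinearMap.comp_apply, mk_I, mk_apply,
        mk_apply]
      apply Complex.ext
      · simp
        field_simp
        linarith
      · simp
        field_simp
        ring
  rw [key]
  exact e3_comp (e3_L _) (e3_comp (e3_U _) (e3_L _))

theorem realise (P : ℂ →L[ℝ] ℂ) (hP : P.det = 1) :
    ∃ h h' : ℂ → ℂ, APair ⊤ h h' ∧ h 0 = 0 ∧ fderivWithin ℝ h Dsk 0 = P ∧
      (∀ z, 3 / 4 ≤ ‖z‖ → h z = z) ∧ ∀ z, 3 / 4 ≤ ‖z‖ → h' z = z := by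
  change Rlz P
  rw [det_eq] at hP
  by_cases hc : (P 1).im = 0
  · have hd : (P I).im ≠ 0 := by
      intro hd
      rw [hc, hd] at hP
      norm_num at hP
    have h1 : Rlz (P.comp (mk (1 + (1 : ℝ) * I) I)) := by
      have e1 : P.comp (mk (1 + (1 : ℝ) * I) I) 1 = P 1 + P I := by
        rw [ContinuousLinearMap.comp_apply, mk_one]
        simp
      have e2 : P.comp (mk (1 + (1 : ℝ) * I) I) I = P I := by
        rw [ContinuousLinearMap.comp_apply, mk_I]
      apply e3_ne
      · rw [e1, e2, add_re, add_im]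
        linarith
      · rw [e1, add_im, hc, zero_add]
        exact hd
    have key : P = (P.comp (mk (1 + (1 : ℝ) * I) I)).comp (mk (1 + (-1 : ℝ) * I) I) := by
      apply e3_ext
      · rw [ContinuousLinearMap.comp_apply, ContinuousLinearMap.comp_apply, mk_one]
        congr 1
        rw [mk_apply]
        apply Complex.ext <;> simp
      · rw [ContinuousLinearMap.comp_apply, ContinuousLinearMap.comp_apply, mk_I, mk_I]
    rw [key]
    exact e3_comp h1 (e3_U (-1))
  · exact e3_ne hP hc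

end Pool.Agent.H25.PR
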