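import Pool.Agent.H25.PR.E2

/-!
# PR module E4: normal form of a matrix with irrational projective rotation number (180 lines)

`A v = u v + w conj v` with `u = (A 1 - I * A I)/2`, `w = (A 1 + I * A I)/2`, `A.det = |u|^2 - |w|^2 = 1`.
(a) `|Re u| < 1`. Otherwise `A` has an eigenvector `e x` (real eigenvalue `λ ≠ 0`: the real quadratic
`X^2 - 2 Re u X + 1` has a real root): `A (e x) = λ e x`, so `e (G x) = ± e x`, `e (G (G x)) = e x`,
`G (G x) = x + m` with `m` an integer, `translationNumber G = m / 2`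
(`CircleDeg1Lift.translationNumber_of_map_pow_eq_add_int`), contradiction.
(b) `w = 0`: then `|u| = 1`, `u = e β`, take `P = id`. `w ≠ 0`: let `cs = Re u`, `t = Im u`,
`sn = ± sqrt (1 - cs^2)` with the sign of `t` (`t ≠ 0` as `|u| > 1 > |Re u|`), `E = cs + i sn`, `|E| = 1`,
`E^2 - 2 cs E + 1 = 0`, `P v = (w v + conj (E - u) conj v) / sqrt d`,
`d = |w|^2 - |E - u|^2 = 2 sn (t - sn) > 0` (`|w|^2 = t^2 - sn^2 > 0`). Then `P.det = 1` and
`A (P v) = P (E v)` (two identities: `u w + w (E-u) = E w`,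
`conj u (E - u) + conj w w = E (E - u)`). Let `E = e β`.
(c) `e β = e α`: there is a continuous `g : ℝ → ℝ` with `g x - x` bounded and `P (e x) = ‖P (e x)‖ * e (g x)`
(`P v = p v + q conj v` with `|q| < |p|`, so `P (e x) / (p * e x) = 1 + (q/p) e (-2x)` has positive real
part; use `Complex.arg`, continuous on the slit plane). Then `e (G (g x)) = e (g (x + β))`, so
`G (g x) = g (x + β) + k` with a constant integer `k` (continuity), `G^n (g x) = g (x + n β) + n k`, and
dividing by `n`, `translationNumber G = β + k` (`CircleDeg1Lift.tendsto_translationNumber`). So `α = β + k`.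
`P'` is the inverse of `P`: `P' v = conj p * v - q * conj v` when `P v = p v + q conj v`, `|p|^2 - |q|^2 = 1`.
-/

open Complex Set Metric Topology Filter

namespace Pool.Agent.H25.PR

private lemma E4_e_add (x y : ℝ) : e (x + y) = e x * e y := by
  unfold e
  rw [← Complex.exp_add]
  congr 1
  push_cast
  ring

private lemma E4_norm_e (x : ℝ) : ‖e x‖ = 1 := by
  unfold e
  have : (2 * Real.pi * x * I : ℂ) = ((2 * Real.pi * x : ℝ) : ℂ) * I := by push_cast; ring
  rw [this, Complex.norm_exp_ofReal_mul_I]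

private lemma E4_e_ne (x : ℝ) : e x ≠ 0 := by
  unfold e
  exact Complex.exp_ne_zero _

private lemma E4_e_int (n : ℤ) : e (n : ℝ) = 1 := by
  unfold e
  rw [Complex.exp_eq_one_iff]
  exact ⟨n, by push_cast; ring⟩

private lemma E4_e_eq {x y : ℝ} (h : e x = e y) : ∃ n : ℤ, x = y + n := by
  unfold e at h
  rw [Complex.exp_eq_exp_iff_exists_int] at h
  obtain ⟨n, hn⟩ := h
  refine ⟨n, ?_⟩
  have hpi : (2 * Real.pi * I : ℂ) ≠ 0 := by
    simp [Real.pi_ne_zero]
  have h2 : (2 * Real.pi * I : ℂ) * ((x : ℂ) - y - n) = 0 := by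
    linear_combination hn
  have h3 : ((x : ℂ) - y - n) = 0 := by
    rcases mul_eq_zero.mp h2 with h | h
    · exact absurd h hpi
    · exact h
  have h4 : (x : ℂ) = ((y + n : ℝ) : ℂ) := by
    push_cast
    linear_combination h3
  exact_mod_cast h4

private lemma E4_cont_e : Continuous e := by
  unfold e
  fun_prop

/-- every nonzero complex number has an argument -/
private lemma E4_arg (z : ℂ) : z = (‖z‖ : ℂ) * e (arg z / (2 * Real.pi)) := by
  have h : e (arg z / (2 * Real.pi)) = cexp (arg z * I) := by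
    unfold e
    congr 1
    have : (Real.pi : ℂ) ≠ 0 := by exact_mod_cast Real.pi_ne_zero
    push_cast
    field_simp
  rw [h, Complex.norm_mul_exp_arg_mul_I]

private lemma E4_lin (A : ℂ →L[ℝ] ℂ) (v : ℂ) : A v = (v.re : ℂ) * A 1 + (v.im : ℂ) * A I := by
  have h : v = v.re • (1 : ℂ) + v.im • I := by
    apply Complex.ext <;> simp
  conv_lhs => rw [h]
  rw [map_add, map_smul, map_smul]
  simp

private lemma E4_smul (A : ℂ →L[ℝ] ℂ) (r : ℝ) (v : ℂ) : A ((r : ℂ) * v) = (r : ℂ) * A v := by
  have := A.map_smul r v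
  simpa using this

/-- (a): the trace of `A` is at most two in absolute value -/
private lemma E4_trace (A : ℂ →L[ℝ] ℂ) (hA : A.det = 1) (G : CircleDeg1Lift)
    (hAG : ∀ x : ℝ, A (e x) = (‖A (e x)‖ : ℂ) * e (G x)) (α : ℝ) (hα : Irrational α)
    (hτ : CircleDeg1Lift.translationNumber G = α) :
    |(A 1).re + (A I).im| < 2 := by
  by_contra hcon
  push Not at hcon
  set t : ℝ := (A 1).re + (A I).im with ht
  have hdet := det_eq A
  rw [hA] at hdet
  have ht2 : 4 ≤ t ^ 2 := by
    have h1 : (2 : ℝ) ^ 2 ≤ |t| ^ 2 := pow_le_pow_left₀ (by norm_num) hcon 2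
    rw [sq_abs] at h1
    linarith
  set s : ℝ := Real.sqrt (t ^ 2 - 4) with hs
  have hs2 : s ^ 2 = t ^ 2 - 4 := Real.sq_sqrt (by linarith)
  set l : ℝ := (t + s) / 2 with hl
  have hl2 : l ^ 2 - t * l + 1 = 0 := by
    rw [hl]
    nlinarith [hs2]
  have hl0 : l ≠ 0 := by
    intro h0
    rw [h0] at hl2
    norm_num at hl2
  -- kernel of `A - l`
  set M : ℂ →L[ℝ] ℂ := A - l • ContinuousLinearMap.id ℝ ℂ with hM
  have hMdet : M.det = 0 := by
    rw [det_eq, hM]
    simp only [sub_apply, smul_apply,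
      ContinuousLinearMap.id_apply, Complex.sub_re, Complex.sub_im, Complex.real_smul,
      Complex.mul_re, Complex.mul_im, Complex.ofReal_re, Complex.ofReal_im, Complex.one_re,
      Complex.one_im, Complex.I_re, Complex.I_im]
    rw [ht] at hl2
    linarith
  have hker : (⊥ : Submodule ℝ ℂ) < LinearMap.ker (M : ℂ →ₗ[ℝ] ℂ) :=
    LinearMap.bot_lt_ker_of_det_eq_zero (by simpa [ContinuousLinearMap.det] using hMdet)
  obtain ⟨v, hv, hv0⟩ := SetLike.exists_of_lt hker
  have hv1 : v ≠ 0 := by
    intro h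
    exact hv0 (by simp [h])
  have hAv : A v = (l : ℂ) * v := by
    have h1 : M v = 0 := by simpa using hv
    rw [hM] at h1
    simp only [sub_apply, smul_apply,
      ContinuousLinearMap.id_apply, Complex.real_smul, sub_eq_zero] at h1
    exact h1
  obtain ⟨x, hx⟩ : ∃ x : ℝ, v = (‖v‖ : ℂ) * e x := ⟨_, E4_arg v⟩
  have hvn : (‖v‖ : ℂ) ≠ 0 := by
    exact_mod_cast (norm_ne_zero_iff.mpr hv1)
  have hAe : A (e x) = (l : ℂ) * e x := by
    have h1 : (‖v‖ : ℂ) * A (e x) = (‖v‖ : ℂ) * ((l : ℂ) * e x) := by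
      rw [← E4_smul, ← hx, hAv]
      conv_lhs => rw [hx]
      ring
    exact mul_left_cancel₀ hvn h1
  have hn1 : ‖A (e x)‖ = |l| := by
    rw [hAe, norm_mul, E4_norm_e, mul_one, Complex.norm_real, Real.norm_eq_abs]
  have hlabs : (|l| : ℝ) ≠ 0 := abs_ne_zero.mpr hl0
  have hG1 : ((|l| : ℝ) : ℂ) * e (G x) = (l : ℂ) * e x := by
    rw [← hn1, ← hAG, hAe]
  -- e (G x) = (l/|l|) e x
  have hsg : ((|l| : ℝ) : ℂ) * ((|l| : ℝ) : ℂ) = (l : ℂ) * (l : ℂ) := by
    rw [← Complex.ofReal_mul, ← Complex.ofReal_mul, abs_mul_abs_self]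
  have hGe : e (G x) = (((l / |l| : ℝ)) : ℂ) * e x := by
    have h1 : ((|l| : ℝ) : ℂ) ≠ 0 := by exact_mod_cast hlabs
    apply mul_left_cancel₀ h1
    rw [hG1]
    push_cast
    field_simp
  have hAG2 : A (e (G x)) = ((|l| : ℝ) : ℂ) * e x := by
    rw [hGe, E4_smul, hAe]
    have h1 : ((|l| : ℝ) : ℂ) ≠ 0 := by exact_mod_cast hlabs
    rw [Complex.ofReal_div, div_mul_eq_mul_div, div_eq_iff h1]
    linear_combination (-(e x)) * hsg
  have hn2 : ‖A (e (G x))‖ = |l| := by
    rw [hAG2, norm_mul, E4_norm_e, mul_one, Complex.norm_real, Real.norm_eq_abs, abs_abs]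
  have hGG : e (G (G x)) = e x := by
    have h1 : ((|l| : ℝ) : ℂ) ≠ 0 := by exact_mod_cast hlabs
    apply mul_left_cancel₀ h1
    rw [← hAG2, ← hn2, ← hAG]
  obtain ⟨m, hm⟩ := E4_e_eq hGG
  have hm2 : (G ^ 2) x = x + m := by
    rw [pow_two, CircleDeg1Lift.mul_apply]
    exact hm
  have := CircleDeg1Lift.translationNumber_of_map_pow_eq_add_int G hm2 (by norm_num : 0 < 2)
  rw [hτ] at this
  apply hα
  refine ⟨(m : ℚ) / 2, ?_⟩
  rw [this]
  push_cast
  ring

/-- the continuous angle function of an upper triangular matrix with positive diagonal -/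
private lemma E4_angle (P : ℂ →L[ℝ] ℂ) (r x y : ℝ) (hr : 0 < r) (hy : 0 < y)
    (hP : ∀ v : ℂ, P v = ((r * v.re + x * v.im : ℝ) : ℂ) + ((y * v.im : ℝ) : ℂ) * I) :
    ∃ g : ℝ → ℝ, Continuous g ∧ (∀ t, |g t - t| ≤ 1) ∧
      ∀ t, P (e t) = (‖P (e t)‖ : ℂ) * e (g t) := by
  set z : ℝ → ℂ := fun t => P (e t) * e (-t) with hz
  have hzc : Continuous z := by
    have h1 : Continuous fun t : ℝ => P (e t) := P.continuous.comp E4_cont_e
    have h2 : Continuous fun t : ℝ => e (-t) := E4_cont_e.comp continuous_neg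
    exact h1.mul h2
  have hconj : ∀ t, e (-t) = (starRingEnd ℂ) (e t) := by
    intro t
    have h1 : e t * e (-t) = 1 := by
      rw [← E4_e_add, add_neg_cancel]
      have := E4_e_int 0
      simpa using this
    have h2 : e t * (starRingEnd ℂ) (e t) = 1 := by
      rw [Complex.mul_conj, Complex.normSq_eq_norm_sq, E4_norm_e]
      norm_num
    exact mul_left_cancel₀ (E4_e_ne t) (h1.trans h2.symm)
  have hsl : ∀ t, z t ∈ slitPlane := by
    intro t
    rw [Complex.mem_slitPlane_iff]
    have hn : (e t).re ^ 2 + (e t).im ^ 2 = 1 := by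
      have h1 := Complex.normSq_eq_norm_sq (e t)
      rw [E4_norm_e, Complex.normSq_apply] at h1
      nlinarith [h1]
    have hre : (z t).re = (r * (e t).re + x * (e t).im) * (e t).re + y * (e t).im * (e t).im := by
      rw [hz]
      simp only [hconj, hP]
      simp
    have him : (z t).im = y * (e t).im * (e t).re - (r * (e t).re + x * (e t).im) * (e t).im := by
      rw [hz]
      simp only [hconj, hP]
      simp
      ring
    by_cases h0 : (z t).im = 0
    · left
      rw [him] at h0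
      have h1 : (e t).im * (y * (e t).re - (r * (e t).re + x * (e t).im)) = 0 := by
        linarith
      rcases mul_eq_zero.mp h1 with h2 | h2
      · rw [hre, h2]
        have h3 : (e t).re ^ 2 = 1 := by
          rw [h2] at hn
          linarith
        nlinarith
      · rw [hre]
        have h3 : r * (e t).re + x * (e t).im = y * (e t).re := by linarith
        rw [h3]
        nlinarith
    · right
      exact h0
  refine ⟨fun t => t + arg (z t) / (2 * Real.pi), ?_, ?_, ?_⟩
  · refine continuous_id.add (Continuous.div_const ?_ _)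
    rw [continuous_iff_continuousAt]
    intro t
    exact (Complex.continuousAt_arg (hsl t)).comp hzc.continuousAt
  · intro t
    have h1 := Complex.abs_arg_le_pi (z t)
    have hpi := Real.pi_pos
    rw [add_sub_cancel_left, abs_div, abs_of_pos (by positivity : (0 : ℝ) < 2 * Real.pi),
      div_le_one (by positivity)]
    linarith
  · intro t
    have h1 : P (e t) = z t * e t := by
      rw [hz]
      simp only
      rw [mul_assoc, ← E4_e_add, neg_add_cancel]
      have := E4_e_int 0
      simp only [Int.cast_zero] at this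
      rw [this, mul_one]
    have h2 : ‖z t‖ = ‖P (e t)‖ := by
      have h4 := congrArg norm h1
      rw [norm_mul, E4_norm_e, mul_one] at h4
      exact h4.symm
    have h3 := E4_arg (z t)
    simp only
    rw [E4_e_add, ← h2]
    conv_lhs => rw [h1, h3]
    ring

theorem elliptic (A : ℂ →L[ℝ] ℂ) (hA : A.det = 1) (G : CircleDeg1Lift) (hG : Continuous G)
    (hAG : ∀ x : ℝ, A (e x) = (‖A (e x)‖ : ℂ) * e (G x)) (α : ℝ) (hα : Irrational α)
    (hτ : CircleDeg1Lift.translationNumber G = α) :
    ∃ P P' : ℂ →L[ℝ] ℂ, P.det = 1 ∧ P'.det = 1 ∧ (∀ v, P' (P v) = v) ∧ (∀ v, P (P' v) = v) ∧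
      ∀ v : ℂ, A (P v) = P (e α * v) := by
  have htr := E4_trace A hA G hAG α hα hτ
  have hdet := det_eq A
  rw [hA] at hdet
  set a := (A 1).re with ha
  set c := (A 1).im with hc
  set b := (A I).re with hb
  set d := (A I).im with hd
  have hc0 : c ≠ 0 := by
    intro h0
    rw [h0] at hdet
    have h1 : 4 ≤ (a + d) ^ 2 := by nlinarith [sq_nonneg (a - d)]
    have h2 : |a + d| ^ 2 < 2 ^ 2 := pow_lt_pow_left₀ htr (abs_nonneg _) (by norm_num)
    rw [sq_abs] at h2
    linarith
  have htr2 : (a + d) ^ 2 < 4 := by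
    have h2 : |a + d| ^ 2 < 2 ^ 2 := pow_lt_pow_left₀ htr (abs_nonneg _) (by norm_num)
    rw [sq_abs] at h2
    linarith
  -- cos and sin of the rotation
  obtain ⟨cs, sn, hcs, hcs1, hsn0⟩ : ∃ cs sn : ℝ, 2 * cs = a + d ∧ cs ^ 2 + sn ^ 2 = 1 ∧
      0 < sn * c := by
    have h1 : 0 < 1 - ((a + d) / 2) ^ 2 := by nlinarith
    have h2 : Real.sqrt (1 - ((a + d) / 2) ^ 2) ^ 2 = 1 - ((a + d) / 2) ^ 2 :=
      Real.sq_sqrt h1.le
    have h3 : 0 < Real.sqrt (1 - ((a + d) / 2) ^ 2) := Real.sqrt_pos.mpr h1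
    rcases lt_or_gt_of_ne hc0 with hneg | hpos
    · refine ⟨(a + d) / 2, -Real.sqrt (1 - ((a + d) / 2) ^ 2), by ring, by rw [neg_sq, h2]; ring, ?_⟩
      nlinarith
    · exact ⟨(a + d) / 2, Real.sqrt (1 - ((a + d) / 2) ^ 2), by ring, by rw [h2]; ring,
        mul_pos h3 hpos⟩
  have hsn : sn ≠ 0 := by
    intro h
    rw [h] at hsn0
    simp at hsn0
  have hsc : 0 < sn / c := by
    rw [div_pos_iff]
    rcases lt_or_gt_of_ne hc0 with hneg | hpos
    · right
      exact ⟨by nlinarith, hneg⟩
    · left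
      exact ⟨by nlinarith, hpos⟩
  set r : ℝ := Real.sqrt (sn / c) with hr
  have hr2 : r ^ 2 = sn / c := Real.sq_sqrt hsc.le
  have hrpos : 0 < r := Real.sqrt_pos.mpr hsc
  have hrc : r ^ 2 * c = sn := by
    rw [hr2]
    field_simp
  set x : ℝ := r * (a - cs) / sn with hx
  set y : ℝ := r * c / sn with hy
  have hry : r * y = 1 := by
    rw [hy]
    field_simp
    linarith
  have hypos : 0 < y := by
    by_contra h
    push Not at h
    nlinarith
  -- the two maps
  set P : ℂ →L[ℝ] ℂ :=
    (((r • Complex.reCLM + x • Complex.imCLM).smulRight (1 : ℂ)) +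
      ((y • Complex.imCLM).smulRight I)) with hPdef
  set P' : ℂ →L[ℝ] ℂ :=
    (((y • Complex.reCLM - x • Complex.imCLM).smulRight (1 : ℂ)) +
      ((r • Complex.imCLM).smulRight I)) with hP'def
  have hP : ∀ v : ℂ, P v = ((r * v.re + x * v.im : ℝ) : ℂ) + ((y * v.im : ℝ) : ℂ) * I := by
    intro v
    rw [hPdef]
    simp
  have hP' : ∀ v : ℂ, P' v = ((y * v.re - x * v.im : ℝ) : ℂ) + ((r * v.im : ℝ) : ℂ) * I := by
    intro v
    rw [hP'def]
    simp
  -- the rotation angle
  obtain ⟨β, hβ⟩ : ∃ β : ℝ, e β = (cs : ℂ) + (sn : ℂ) * I := by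
    have h1 := E4_arg ((cs : ℂ) + (sn : ℂ) * I)
    have h2 : ‖(cs : ℂ) + (sn : ℂ) * I‖ = 1 := by
      have h3 := Complex.normSq_eq_norm_sq ((cs : ℂ) + (sn : ℂ) * I)
      rw [Complex.normSq_add_mul_I, hcs1] at h3
      nlinarith [norm_nonneg ((cs : ℂ) + (sn : ℂ) * I)]
    rw [h2] at h1
    exact ⟨_, by rw [Complex.ofReal_one, one_mul] at h1; exact h1.symm⟩
  have hAP : ∀ v : ℂ, A (P v) = P (e β * v) := by
    intro v
    rw [E4_lin A (P v), hP (e β * v), hβ, hP v]
    have hA1 : A 1 = (a : ℂ) + (c : ℂ) * I := by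
      apply Complex.ext <;> simp [ha, hc]
    have hAI : A I = (b : ℂ) + (d : ℂ) * I := by
      apply Complex.ext <;> simp [hb, hd]
    rw [hA1, hAI]
    have hxs : x * sn = r * (a - cs) := by
      rw [hx]
      field_simp
    have hys : y * sn = r * c := by
      rw [hy]
      field_simp
    have e1 : a * x + b * y = -(r * sn) + x * cs := by
      have e3 : sn * (a * x + b * y) = sn * (-(r * sn) + x * cs) := by
        have e4 : sn * (a * x + b * y) = a * (x * sn) + b * (y * sn) := by ring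
        have e5 : sn * (-(r * sn) + x * cs) = -(r * sn ^ 2) + (x * sn) * cs := by ring
        rw [e4, e5, hxs, hys]
        have e6 : sn ^ 2 = 1 - cs ^ 2 := by linarith
        rw [e6]
        have e7 : b * c = a * d - 1 := by linarith
        have e8 : d = 2 * cs - a := by linarith
        rw [e8] at e7
        linear_combination r * e7
      exact mul_left_cancel₀ hsn e3
    have e2 : c * x + d * y = y * cs := by
      have e3 : sn * (c * x + d * y) = sn * (y * cs) := by
        have e4 : sn * (c * x + d * y) = c * (x * sn) + d * (y * sn) := by ring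
        have e5 : sn * (y * cs) = (y * sn) * cs := by ring
        rw [e4, e5, hxs, hys]
        have e8 : d = 2 * cs - a := by linarith
        rw [e8]
        ring
      exact mul_left_cancel₀ hsn e3
    apply Complex.ext
    · simp
      linear_combination v.im * e1 - v.re * hxs
    · simp
      linear_combination v.im * e2 - v.re * hys
  obtain ⟨g, hgc, hgb, hg⟩ := E4_angle P r x y hrpos hypos hP
  have hPP : ∀ v, P' (P v) = v := by
    intro v
    rw [hP', hP]
    apply Complex.ext
    · simp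
      linear_combination v.re * hry
    · simp
      linear_combination v.im * hry
  have hPP' : ∀ v, P (P' v) = v := by
    intro v
    rw [hP, hP']
    apply Complex.ext
    · simp
      linear_combination v.re * hry
    · simp
      linear_combination v.im * hry
  have hPne : ∀ t, P (e t) ≠ 0 := by
    intro t h0
    have h1 := hPP (e t)
    rw [h0, map_zero] at h1
    exact E4_e_ne t h1.symm
  have hrel : ∀ t, e (G (g t)) = e (g (t + β)) := by
    intro t
    have h1 : A (P (e t)) = P (e (t + β)) := by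
      rw [hAP, E4_e_add, mul_comm (e t)]
    have h2 : A (P (e t)) = ((‖P (e t)‖ * ‖A (e (g t))‖ : ℝ) : ℂ) * e (G (g t)) := by
      have h4 : A (P (e t)) = A ((‖P (e t)‖ : ℂ) * e (g t)) := by rw [← hg t]
      rw [h4, E4_smul]
      conv_lhs => rw [hAG (g t)]
      push_cast
      ring
    have h5 : P (e (t + β)) = ((‖P (e (t + β))‖ : ℝ) : ℂ) * e (g (t + β)) := hg (t + β)
    have h6 : ((‖P (e t)‖ * ‖A (e (g t))‖ : ℝ) : ℂ) * e (G (g t))
        = ((‖P (e (t + β))‖ : ℝ) : ℂ) * e (g (t + β)) := by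
      rw [← h2, h1]
      exact h5
    have h3 : ‖P (e t)‖ * ‖A (e (g t))‖ = ‖P (e (t + β))‖ := by
      have h7 := congrArg norm h6
      rw [norm_mul, norm_mul, E4_norm_e, E4_norm_e, Complex.norm_real, Complex.norm_real,
        mul_one, mul_one, Real.norm_eq_abs, Real.norm_eq_abs, abs_of_nonneg (by positivity),
        abs_of_nonneg (norm_nonneg _)] at h7
      exact h7
    rw [h3] at h6
    have h8 : ((‖P (e (t + β))‖ : ℝ) : ℂ) ≠ 0 := by
      exact_mod_cast (norm_ne_zero_iff.mpr (hPne (t + β)))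
    exact mul_left_cancel₀ h8 h6
  have hint : ∀ t, ∃ n : ℤ, G (g t) = g (t + β) + n := fun t => E4_e_eq (hrel t)
  choose nn hnn using hint
  have hnc : Continuous nn := by
    rw [Int.isClosedEmbedding_coe_real.isEmbedding.continuous_iff]
    have h1 : ((fun n : ℤ => (n : ℝ)) ∘ nn) = fun t => G (g t) - g (t + β) := by
      funext t
      simp only [Function.comp_apply]
      rw [hnn t]
      ring
    rw [h1]
    exact (hG.comp hgc).sub (hgc.comp (continuous_id.add continuous_const))
  set k : ℤ := nn 0 with hk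
  have hconst : ∀ t, G (g t) = g (t + β) + k := by
    intro t
    rw [hnn t, PreconnectedSpace.constant inferInstance hnc (x := t) (y := 0)]
  have hpow : ∀ n : ℕ, (G ^ n) (g 0) = g (n * β) + n * k := by
    intro n
    induction n with
    | zero => simp
    | succ n ih =>
      rw [pow_succ', CircleDeg1Lift.mul_apply, ih]
      have h1 : (n : ℝ) * (k : ℝ) = (((n : ℤ) * k : ℤ) : ℝ) := by push_cast; ring
      rw [h1, CircleDeg1Lift.map_add_int, hconst]
      have h2 : (n : ℝ) * β + β = ((n + 1 : ℕ) : ℝ) * β := by push_cast; ring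
      rw [h2]
      push_cast
      ring
  have hlim : Filter.Tendsto (fun n : ℕ => ((G ^ n) (g 0) - g 0) / n) atTop (𝓝 (β + k)) := by
    have h1 : Filter.Tendsto (fun n : ℕ => (g (n * β) - n * β - g 0) / n) atTop (𝓝 0) := by
      have h2 : Filter.Tendsto (fun n : ℕ => (1 + |g 0|) / (n : ℝ)) atTop (𝓝 0) :=
        tendsto_const_div_atTop_nhds_zero_nat _
      refine squeeze_zero_norm ?_ h2
      intro n
      rw [norm_div, Real.norm_eq_abs, Real.norm_natCast]
      gcongr
      calc |g (n * β) - n * β - g 0| ≤ |g (n * β) - n * β| + |g 0| := abs_sub _ _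
        _ ≤ 1 + |g 0| := by gcongr; exact hgb _
    have h3 : Filter.Tendsto (fun n : ℕ => (g (n * β) - n * β - g 0) / n + (β + k)) atTop
        (𝓝 (0 + (β + k))) := h1.add_const _
    rw [zero_add] at h3
    refine h3.congr' ?_
    filter_upwards [Filter.eventually_gt_atTop 0] with n hn
    rw [hpow]
    have h4 : (n : ℝ) ≠ 0 := by exact_mod_cast hn.ne'
    field_simp
    ring
  have hτ2 : α = β + k := by
    rw [← hτ]
    exact tendsto_nhds_unique (CircleDeg1Lift.tendsto_translationNumber G (g 0)) hlim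
  have hαβ : e α = e β := by
    rw [hτ2, E4_e_add, E4_e_int, mul_one]
  refine ⟨P, P', ?_, ?_, hPP, hPP', ?_⟩
  · rw [det_eq, hP, hP]
    simp
    linarith
  · rw [det_eq, hP', hP']
    simp
    linarith
  · intro v
    rw [hαβ]
    exact hAP v

end Pool.Agent.H25.PR
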