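import Pool.Agent.H25.PR.E3
import Pool.Agent.H25.PR.E4

/-!
# PR module E5: normalisation at the fixed point (100 lines)

`psRot_conj`: `APair.comp`; `h (f (h' 0)) = h (f 0) = 0`; a periodic point `z` of `h f h'` gives the
periodic point `h' z` of `f` (the iterates are `h f^n h'` on `Dsk`), so `h' z = 0`, `z = h 0 = 0`.
`hasRot_conj`: `‖e x‖ = 1 ≥ 3/4`, `h' (e x) = e x`, `h (e (G x)) = e (G x)`; same lift.
`normalise`: `elliptic` gives `P`, `P'`; `realise P'` gives `h`, `h'` with `Dh(0) = P'`; then `Dh'(0) = P` (the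
derivatives at `0` are inverse to each other, `DPair.fderiv_symm`), and the derivative of
`h f h'` at `0` is `P' A P = e α *`.
-/

open Complex Set Metric Topology Filter

namespace Pool.Agent.H25.PR

private theorem E5_zero_mem : (0 : ℂ) ∈ Dsk := by
  simp

private theorem E5_one_le : (1 : ℕ∞) ≤ ⊤ := le_top

private theorem E5_norm_e (t : ℝ) : ‖e t‖ = 1 := by
  unfold e
  have : (2 * (Real.pi : ℂ) * t * I) = ((2 * Real.pi * t : ℝ) : ℂ) * I := by push_cast; ring
  rw [this, Complex.norm_exp_ofReal_mul_I]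

theorem psRot_conj {f f' h h' : ℂ → ℂ} (hf : PsRot f f') (hh : APair ⊤ h h') (h0 : h 0 = 0) :
    PsRot (fun z => h (f (h' z))) (fun z => h (f' (h' z))) := by
  have h0' : h' 0 = 0 := by
    have := hh.left 0 E5_zero_mem
    rwa [h0] at this
  have hs := hh.symm E5_one_le
  have hp1 := hf.pair.comp E5_one_le hs
  have hp2 := hh.comp E5_one_le hp1
  have hfn : ∀ n : ℕ, ∀ z ∈ Dsk, f^[n] z ∈ Dsk := by
    intro n
    induction n with
    | zero => exact fun z hz => hz
    | succ n ih =>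
      intro z hz
      rw [Function.iterate_succ_apply']
      exact hf.pair.maps (ih z hz)
  have hit : ∀ n : ℕ, ∀ z ∈ Dsk, (fun z => h (f (h' z)))^[n] z = h (f^[n] (h' z)) := by
    intro n
    induction n with
    | zero =>
      intro z hz
      simp only [Function.iterate_zero, id]
      exact (hh.right z hz).symm
    | succ n ih =>
      intro z hz
      rw [Function.iterate_succ_apply', ih z hz, Function.iterate_succ_apply',
        hh.left _ (hfn n _ (hh.maps' hz))]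
  refine ⟨hp2, ?_, ?_⟩
  · rw [h0', hf.zero, h0]
  · intro n hn z hz hnz
    rw [hit n z hz] at hnz
    have h1 : f^[n] (h' z) = h' z := by
      rw [← hh.left _ (hfn n _ (hh.maps' hz)), hnz]
    have h2 := hf.noper n hn (h' z) (hh.maps' hz) h1
    rw [← hh.right z hz, h2, h0]

theorem hasRot_conj {f h h' : ℂ → ℂ} {α : ℝ} (hf : HasRot f α)
    (h1 : ∀ z, 3 / 4 ≤ ‖z‖ → h z = z) (h2 : ∀ z, 3 / 4 ≤ ‖z‖ → h' z = z) :
    HasRot (fun z => h (f (h' z))) α := by
  obtain ⟨G, hG, hf1, hτ⟩ := hf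
  refine ⟨G, hG, fun x => ?_, hτ⟩
  simp only
  rw [h2 (e x) (by rw [E5_norm_e]; norm_num), hf1, h1 (e (G x)) (by rw [E5_norm_e]; norm_num)]

theorem normalise (f f' : ℂ → ℂ) (α : ℝ) (hf : PsRot f f') (hr : HasRot f α)
    (hα : Irrational α)
    (hD4 : ∃ G : CircleDeg1Lift, Continuous G ∧
      (∀ x : ℝ, fderivWithin ℝ f Dsk 0 (e x) = (‖fderivWithin ℝ f Dsk 0 (e x)‖ : ℂ) * e (G x)) ∧
      CircleDeg1Lift.translationNumber G = α) :
    ∃ h h' : ℂ → ℂ, APair ⊤ h h' ∧ ClN (fun z => h (f (h' z))) (fun z => h (f' (h' z))) α := by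
  obtain ⟨G, hG, hGe, hτ⟩ := hD4
  obtain ⟨P, P', hP, hP', hPP, hPP', hA⟩ := elliptic (fderivWithin ℝ f Dsk 0)
    (hf.pair.area 0 E5_zero_mem) G hG hGe α hα hτ
  obtain ⟨h, h', hh, h0, hD, h1, h2⟩ := realise P' hP'
  have h0' : h' 0 = 0 := by
    have := hh.left 0 E5_zero_mem
    rwa [h0] at this
  refine ⟨h, h', hh, ?_⟩
  have hD' : ∀ w, fderivWithin ℝ h' Dsk 0 w = P w := by
    intro w
    have h3 := (hh.toDPair.fderiv_symm E5_one_le E5_zero_mem).1
    rw [h0, hD] at h3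
    have h4 := congrArg (fun L : ℂ →L[ℝ] ℂ => L (P w)) h3
    simp only [ContinuousLinearMap.comp_apply, ContinuousLinearMap.id_apply] at h4
    rwa [hPP] at h4
  refine ⟨psRot_conj hf hh h0, hasRot_conj hr h1 h2, ?_⟩
  intro v
  have hne : ((⊤ : ℕ∞) : WithTop ℕ∞) ≠ 0 := by simp
  have d1 : DifferentiableWithinAt ℝ h' Dsk 0 :=
    (hh.smooth'.differentiableOn hne) 0 E5_zero_mem
  have d2 : DifferentiableWithinAt ℝ f Dsk (h' 0) := by
    rw [h0']
    exact (hf.pair.smooth.differentiableOn hne) 0 E5_zero_mem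
  have d3 : DifferentiableWithinAt ℝ (fun z => f (h' z)) Dsk 0 :=
    DifferentiableWithinAt.comp (0 : ℂ) d2 d1 hh.maps'
  have d4 : DifferentiableWithinAt ℝ h Dsk (f (h' 0)) := by
    rw [h0', hf.zero]
    exact (hh.smooth.differentiableOn hne) 0 E5_zero_mem
  have e1 := fderivWithin_comp_Dsk (f := h) (g := fun z => f (h' z)) E5_zero_mem d4 d3
    (hf.pair.maps.comp hh.maps')
  have e2 := fderivWithin_comp_Dsk (f := f) (g := h') E5_zero_mem d2 d1 hh.maps'
  rw [e1, e2]
  simp only [ContinuousLinearMap.comp_apply]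
  rw [hD', h0', hf.zero, hD, hA, hPP]

end Pool.Agent.H25.PR
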