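import Pool.Agent.H25.PR.Iface
import Pool.Agent.H25.PR.E1

/-!
# PR module I0: small facts on `CNear`, `CBd`, `CTo` (150 lines)

Everything follows from the definitions, `uniqueDsk`, `iteratedFDerivWithin` of a sum or difference
(`iteratedFDerivWithin_sub_apply`? or `iteratedFDerivWithin_add_apply`, `iteratedFDerivWithin_neg_apply`)
and `iteratedFDerivWithin_congr`. `CTo.iterate`: induction with `F_comp`. `rot_near`: `w ↦ e a * w - e b * w`
is linear with norm `≤ ‖e a - e b‖`, so its iterated derivatives on `Dsk` are bounded by `‖e a - e b‖`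
(order `0`: `‖w‖ ≤ 1`; order `1`; order `≥ 2`: zero), or use `F_bd` for `w ↦ w` and
`iteratedFDerivWithin_const_smul`-type lemmas.
-/

open Complex Set Metric Topology Filter

namespace Pool.Agent.H25.PR

open Iface

theorem CNear.mono {s s' : ℕ} {ε ε' : ℝ} {f g : ℂ → ℂ} (h : CNear s ε f g) (hs : s' ≤ s)
    (hε : ε ≤ ε') : CNear s' ε' f g := by
  intro i hi z hz
  exact (h i (hi.trans hs) z hz).trans_le hε

theorem CNear.congr {s : ℕ} {ε : ℝ} {f g f' g' : ℂ → ℂ} (h : CNear s ε f g)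
    (hf : ∀ z ∈ Dsk, f' z = f z) (hg : ∀ z ∈ Dsk, g' z = g z) : CNear s ε f' g' := by
  intro i hi z hz
  have h1 : EqOn (fun w => f' w - g' w) (fun w => f w - g w) Dsk := by
    intro w hw
    change f' w - g' w = f w - g w
    rw [hf w hw, hg w hw]
  rw [iteratedFDerivWithin_congr h1 hz i]
  exact h i hi z hz

theorem CNear.symm {s : ℕ} {ε : ℝ} {f g : ℂ → ℂ} (h : CNear s ε f g) : CNear s ε g f := by
  intro i hi z hz
  have h1 : (fun w => g w - f w) = -(fun w => f w - g w) := by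
    funext w
    simp
  rw [h1, iteratedFDerivWithin_neg_apply uniqueDsk hz, norm_neg]
  exact h i hi z hz

theorem CNear.trans {s : ℕ} {ε ε' : ℝ} {f g k : ℂ → ℂ} (hf : ContDiffOn ℝ s f Dsk)
    (hg : ContDiffOn ℝ s g Dsk) (hk : ContDiffOn ℝ s k Dsk) (h : CNear s ε f g)
    (h' : CNear s ε' g k) : CNear s (ε + ε') f k := by
  intro i hi z hz
  have hi' : ((i : ℕ) : WithTop ℕ∞) ≤ (s : WithTop ℕ∞) := by exact_mod_cast hi
  have h1 : (fun w => f w - k w) = (fun w => f w - g w) + (fun w => g w - k w) := by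
    funext w
    simp
  have h2 : ContDiffWithinAt ℝ i (fun w => f w - g w) Dsk z :=
    ((hf.of_le hi').sub (hg.of_le hi')) z hz
  have h3 : ContDiffWithinAt ℝ i (fun w => g w - k w) Dsk z :=
    ((hg.of_le hi').sub (hk.of_le hi')) z hz
  rw [h1, iteratedFDerivWithin_add_apply h2 h3 uniqueDsk hz]
  exact (norm_add_le _ _).trans_lt (add_lt_add (h i hi z hz) (h' i hi z hz))

theorem CBd.mono {m m' : ℕ} {M M' : ℝ} {f : ℂ → ℂ} (h : CBd m M f) (hm : m' ≤ m)
    (hM : M ≤ M') : CBd m' M' f := by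
  intro i hi z hz
  exact (h i (hi.trans hm) z hz).trans hM

theorem CTo.mono {s s' : ℕ} {fn : ℕ → ℂ → ℂ} {g : ℂ → ℂ} (h : CTo s fn g) (hs : s' ≤ s) :
    CTo s' fn g := by
  intro ε hε
  filter_upwards [h ε hε] with n hn
  exact hn.mono hs le_rfl

theorem CTo.subseq {s : ℕ} {fn : ℕ → ℂ → ℂ} {g : ℂ → ℂ} (h : CTo s fn g) {φ : ℕ → ℕ}
    (hφ : StrictMono φ) : CTo s (fun n => fn (φ n)) g := by
  intro ε hε
  exact hφ.tendsto_atTop.eventually (h ε hε)

theorem CTo.const (s : ℕ) (g : ℂ → ℂ) : CTo s (fun _ => g) g := by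
  intro ε hε
  refine Filter.Eventually.of_forall fun n => ?_
  intro i hi z hz
  have h1 : (fun w => g w - g w) = fun _ : ℂ => (0 : ℂ) := by
    funext w
    simp
  rw [h1]
  have h2 : iteratedFDerivWithin ℝ i (fun _ : ℂ => (0 : ℂ)) Dsk z = 0 := by
    simp
  rw [h2, norm_zero]
  exact hε

theorem CTo.congr {s : ℕ} {fn fn' : ℕ → ℂ → ℂ} {g g' : ℂ → ℂ} (h : CTo s fn g)
    (hf : ∀ n, ∀ z ∈ Dsk, fn' n z = fn n z) (hg : ∀ z ∈ Dsk, g' z = g z) : CTo s fn' g' := by
  intro ε hε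
  filter_upwards [h ε hε] with n hn
  exact hn.congr (hf n) hg

/-- two sequences with the same limit are eventually close -/
theorem CTo.near {s : ℕ} {fn gn : ℕ → ℂ → ℂ} {g : ℂ → ℂ} (h : CTo s fn g) (h' : CTo s gn g)
    (hf : ∀ n, ContDiffOn ℝ s (fn n) Dsk) (hf' : ∀ n, ContDiffOn ℝ s (gn n) Dsk)
    (hg : ContDiffOn ℝ s g Dsk) {ε : ℝ} (hε : 0 < ε) : ∀ᶠ n in atTop, CNear s ε (fn n) (gn n) := by
  filter_upwards [h (ε / 2) (half_pos hε), h' (ε / 2) (half_pos hε)] with n h1 h2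
  have h3 := h1.trans (hf n) hg (hf' n) h2.symm
  rwa [add_halves] at h3

private theorem I0_iter {s : ℕ} {f f' : ℂ → ℂ} (hf : DPair s f f') (q : ℕ) :
    ContDiffOn ℝ s (f^[q]) Dsk := by
  induction q with
  | zero => exact contDiffOn_id
  | succ q ih =>
    rw [Function.iterate_succ']
    exact ContDiffOn.comp hf.smooth ih (hf.maps.iterate q)

theorem CTo.iterate {s : ℕ} {fn fn' : ℕ → ℂ → ℂ} {g g' : ℂ → ℂ} (h : CTo s fn g)
    (hf : ∀ n, DPair s (fn n) (fn' n)) (hg : DPair s g g') (q : ℕ) :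
    CTo s (fun n => (fn n)^[q]) (g^[q]) := by
  induction q with
  | zero => exact CTo.const s id
  | succ q ih =>
    have h1 := F_comp s fn (fun n => (fn n)^[q]) g (g^[q]) (fun n => (hf n).smooth) hg.smooth
      (fun n => I0_iter (hf n) q) (I0_iter hg q) (fun n => (hf n).maps.iterate q)
      (hg.maps.iterate q) h ih
    refine CTo.congr h1 (fun n z _ => ?_) (fun z _ => ?_)
    · rw [Function.iterate_succ_apply']
    · rw [Function.iterate_succ_apply']

theorem rot_smooth (α : ℝ) (n : ℕ∞) : ContDiffOn ℝ n (fun z => e α * z) Dsk := by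
  exact (contDiff_const.mul contDiff_id).contDiffOn

theorem rot_tendsto (s : ℕ) (αn : ℕ → ℝ) (α : ℝ) (h : Tendsto αn atTop (𝓝 α)) :
    CTo s (fun n z => e (αn n) * z) (fun z => e α * z) := by
  intro ε hε
  obtain ⟨M, hM⟩ := F_bd s (fun z : ℂ => z) contDiffOn_id
  have hlim : Tendsto (fun n => ‖e (αn n) - e α‖ * M) atTop (𝓝 0) := by
    have h1 : Continuous e := by
      unfold e
      fun_prop
    have h2 : Tendsto (fun n => e (αn n)) atTop (𝓝 (e α)) := (h1.tendsto α).comp h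
    have h3 : Tendsto (fun n => ‖e (αn n) - e α‖) atTop (𝓝 0) := by
      have h4 := (h2.sub_const (e α)).norm
      rwa [sub_self, norm_zero] at h4
    have h5 := h3.mul_const (M : ℝ)
    rwa [zero_mul] at h5
  filter_upwards [hlim.eventually (gt_mem_nhds hε)] with n hn
  intro i hi z hz
  have h1 : (fun w => e (αn n) * w - e α * w)
      = (ContinuousLinearMap.mul ℝ ℂ (e (αn n) - e α)) ∘ (fun w : ℂ => w) := by
    funext w
    simp
  rw [h1]
  have h2 := ContinuousLinearMap.norm_iteratedFDerivWithin_comp_left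
    (ContinuousLinearMap.mul ℝ ℂ (e (αn n) - e α)) (f := fun w : ℂ => w) (s := Dsk) (x := z)
    (N := (i : WithTop ℕ∞)) (n := i) (contDiffOn_id z hz) uniqueDsk hz le_rfl
  refine (h2.trans ?_).trans_lt hn
  rw [ContinuousLinearMap.opNorm_mul_apply]
  exact mul_le_mul_of_nonneg_left (hM i hi z hz) (norm_nonneg _)

end Pool.Agent.H25.PR
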