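import Pool.Agent.H25.PR.I0

/-!
# PR module I1: near a rational rotation number the `q`-th iterate is near the identity (120 lines)

By contradiction: for every `n` there are `fn n`, `fn' n`, `αn n` in the class with
`|αn n - p/q| < 1/(n+1)` and a point `zn n` where the norm is `> η`. Write `m = s + 1`, `s ≥ 1`. `F_cpt` for
`fn` and then for `fn'` along the subsequence: `fn → g`, `fn' → g'` in `C^s`; `F_lim`: `DPair s g g'`.
`D6` (with `F_der` for the uniform convergence, `CTo.mono`): `g^[q] z = z` on `Dsk`.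
`CTo.iterate`: `fn^[q] → g^[q]` in `C^s`, so in `C^1`; `F_der`: the derivatives converge uniformly to
`fderivWithin ℝ (g^[q]) Dsk z = fderivWithin ℝ (fun z => z) Dsk z = id` (`fderivWithin_congr`),
contradiction to the points `zn n`.
-/

open Complex Set Metric Topology Filter

namespace Pool.Agent.H25.PR

open Iface

theorem near_id (p : ℤ) (q : ℕ) (hq : 1 ≤ q) (m : ℕ) (hm : 2 ≤ m) (M η : ℝ) (hη : 0 < η) :
    ∃ δ : ℝ, 0 < δ ∧ ∀ (f f' : ℂ → ℂ) (α : ℝ), ClN f f' α → Irrational α → CBd m M f →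
      CBd m M f' → |α - (p : ℝ) / q| < δ →
      ∀ z ∈ Dsk, ‖fderivWithin ℝ (f^[q]) Dsk z - ContinuousLinearMap.id ℝ ℂ‖ ≤ η := by
  by_contra hcon
  push Not at hcon
  obtain ⟨s, rfl⟩ : ∃ s, m = s + 1 := ⟨m - 1, by omega⟩
  have hs : 1 ≤ s := by omega
  have hδ : ∀ n : ℕ, (0 : ℝ) < 1 / ((n : ℝ) + 1) := fun n => by positivity
  choose fn fn' αn hcl hirr hb hb' hα zn hzn hbig using fun n : ℕ => hcon _ (hδ n)
  have hsm : ∀ n (k : ℕ), ContDiffOn ℝ k (fn n) Dsk := fun n k =>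
    (hcl n).pair.smooth.of_le (by exact_mod_cast le_top)
  have hsm' : ∀ n (k : ℕ), ContDiffOn ℝ k (fn' n) Dsk := fun n k =>
    (hcl n).pair.smooth'.of_le (by exact_mod_cast le_top)
  obtain ⟨φ, g, hφ, hg, hto⟩ := F_cpt s M fn (fun n => hsm n _) hb
  obtain ⟨ψ, g', hψ, hg', hto'⟩ := F_cpt s M (fun n => fn' (φ n)) (fun n => hsm' _ _)
    (fun n => hb' _)
  have hto2 : CTo s (fun n => fn (φ (ψ n))) g := hto.subseq hψ
  have hp : ∀ n, DPair s (fn (φ (ψ n))) (fn' (φ (ψ n))) := fun n =>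
    (hcl _).pair.toDPair.of_le le_top
  have hpg : DPair s g g' := F_lim s _ _ g g' hp hg hg' hto2 hto'
  have hto1 : CTo 1 (fun n => fn (φ (ψ n))) g := hto2.mono hs
  have hg1 : ContDiffOn ℝ 1 g Dsk := hg.of_le (by exact_mod_cast hs)
  have hu := (F_der _ g (fun n => hsm _ 1) hg1 hto1).1
  have hα0 : Tendsto αn atTop (𝓝 ((p : ℝ) / q)) := by
    rw [tendsto_iff_norm_sub_tendsto_zero]
    refine squeeze_zero (fun n => norm_nonneg _) (fun n => (hα n).le) ?_
    exact tendsto_one_div_add_atTop_nhds_zero_nat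
  have hα1 : Tendsto (fun n => αn (φ (ψ n))) atTop (𝓝 ((p : ℝ) / q)) :=
    hα0.comp (hφ.tendsto_atTop.comp hψ.tendsto_atTop)
  have hid := D6 _ _ _ g p q hq (fun n => (hcl (φ (ψ n))).toPsRot) (fun n => (hcl _).rot)
    (fun n => hirr _) hu hα1
  have hit : CTo s (fun n => (fn (φ (ψ n)))^[q]) (g^[q]) := hto2.iterate hp hpg q
  have hit1 : CTo 1 (fun n => (fn (φ (ψ n)))^[q]) (g^[q]) := hit.mono hs
  have hc1 : ∀ n, ContDiffOn ℝ 1 ((fn (φ (ψ n)))^[q]) Dsk := fun n =>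
    (((hcl (φ (ψ n))).pair.of_le (m := 1) le_top).iterate le_rfl q).smooth
  have hc2 : ContDiffOn ℝ 1 (g^[q]) Dsk := contDiffOn_id.congr fun z hz => hid z hz
  have hder := (F_der _ _ hc1 hc2 hit1).2
  have hev := (Metric.tendstoUniformlyOn_iff.mp hder) η hη
  obtain ⟨n, hn⟩ := hev.exists
  have h1 := hn (zn (φ (ψ n))) (hzn _)
  have h2 : fderivWithin ℝ (g^[q]) Dsk (zn (φ (ψ n))) = ContinuousLinearMap.id ℝ ℂ := by
    have h3 : fderivWithin ℝ (g^[q]) Dsk (zn (φ (ψ n))) =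
        fderivWithin ℝ (fun z => z) Dsk (zn (φ (ψ n))) :=
      fderivWithin_congr (fun z hz => hid z hz) (hid _ (hzn _))
    rw [h3]
    exact fderivWithin_fun_id (uniqueDsk _ (hzn _))
  rw [h2, dist_eq_norm, norm_sub_rev] at h1
  exact absurd h1 (not_lt.mpr (hbig (φ (ψ n))).le)

end Pool.Agent.H25.PR
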