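import Pool.Agent.H25.PR.I1

/-!
# PR module I2: the main local statement (250 lines; may be split)

By contradiction, with `δ' = 1/(n+1)`: a sequence `αn → Pn/Q` of irrational numbers and `fn n`, `fn' n` in the
class which are not good. For large `n`, `|αn n - p/q| < δ` (drop finitely many). As in I1:
`fn → g`, `fn' → g'` in `C^(s+1)` along a subsequence, `DPair (s+1) g g'`; `F_der`: the derivatives converge
uniformly, so `det Dg = 1` (`det` is continuous; use `det_eq` of E2), `Dg(0) v = e (Pn/Q) * v`, `g 0 = 0`.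
`D6`: `g^[Q] z = z` on `Dsk`.
Let `F = g^[q]`, `F' = g'^[q]`: `APair (s+1) F F'` (`APair.iterate`), `F 0 = 0`,
`DF(0) v = e (q * (Pn/Q)) * v = e (1/Q + p) * v = e (1/Q) * v` (`fderiv_iterate_zero`), `F^[Q] z = z` on `Dsk`,
`‖DF - 1‖ ≤ 1/1000` as the limit of `hδ` (`CTo.iterate`, `F_der`).
`G` with `m = s + 1 ≥ 2`: `h`, `h'` with `h F = e (1/Q) h`; `H` with `m = s`: `k`, `k'`, `kn`, `kn'`,
`k (F z) = e (1/Q) * k z`, so `k (F^[P] z) = e (P/Q) * k z = e (Pn/Q) * k z` (`P ≡ Pn` modulo `Q`), and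
`F^[P] = g^[q P] = g` on `Dsk` (`q P ≡ 1` modulo `Q`). So `k (g (k' z)) = e (Pn/Q) * z` and
`g z = k' (e (Pn/Q) * k z)` on `Dsk`. `F_comp` twice: `kn n ∘ fn n ∘ kn' n → k g k' = R` and
`kn' n ∘ R_(αn n) ∘ kn n → k' R k = g` in `C^s`; `rot_tendsto`, `CTo.near`, `CTo.congr`: for large `n`
both are `ε`-close: contradiction.
-/

open Complex Set Metric Topology Filter

namespace Pool.Agent.H25.PR

open Iface

/-- every map of the class with rotation number `α` and bounds `M` is `ε`-good in `C^s` -/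
def GoodAt (s : ℕ) (ε M α : ℝ) : Prop :=
  ∀ f f' : ℂ → ℂ, ClN f f' α → CBd (s + 2) M f → CBd (s + 2) M f' →
    ∃ h h' : ℂ → ℂ, APair ⊤ h h' ∧ CNear s ε (fun z => h (f (h' z))) (fun z => e α * z) ∧
      CNear s ε f (fun z => h' (e α * h z))

private theorem i2_norm_e (t : ℝ) : ‖e t‖ = 1 := by
  unfold e
  have h : (2 * (Real.pi : ℂ) * t * I) = ((2 * Real.pi * t : ℝ) : ℂ) * I := by
    push_cast
    ring
  rw [h, Complex.norm_exp_ofReal_mul_I]

private theorem i2_e_add_int (x : ℝ) (m : ℤ) : e (x + m) = e x := by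
  unfold e
  have h : (2 * (Real.pi : ℂ) * ((x + m : ℝ) : ℂ) * I) =
      2 * (Real.pi : ℂ) * x * I + m * (2 * Real.pi * I) := by
    push_cast
    ring
  rw [h, Complex.exp_add, Complex.exp_int_mul_two_pi_mul_I, mul_one]

private theorem i2_e_add (x y : ℝ) : e (x + y) = e x * e y := by
  unfold e
  rw [← Complex.exp_add]
  congr 1
  push_cast
  ring

private theorem i2_e_cont : Continuous e := by
  unfold e
  fun_prop

private theorem i2_sm {f f' : ℂ → ℂ} {n : ℕ∞} (h : DPair n f f') (m : ℕ) (hm : (m : ℕ∞) ≤ n) :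
    ContDiffOn ℝ m f Dsk := h.smooth.of_le (by exact_mod_cast hm)

private theorem i2_rot_maps (a : ℝ) {z : ℂ} (hz : z ∈ Dsk) : e a * z ∈ Dsk := by
  rw [mem_closedBall_zero_iff] at hz ⊢
  rw [norm_mul, i2_norm_e, one_mul]
  exact hz

/-- algebra of the iterates: if `g^[Q] = id` and `q P ≡ 1` then `(g^[q])^[P] = g` -/
private theorem i2_iter {g : ℂ → ℂ} {q Q P : ℕ} (hQ : 2 ≤ Q) (hP : q * P ≡ 1 [MOD Q])
    (hm : MapsTo g Dsk Dsk) (hper : ∀ z ∈ Dsk, g^[Q] z = z) {z : ℂ} (hz : z ∈ Dsk) :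
    (g^[q])^[P] z = g z := by
  have h1 : ∀ t : ℕ, g^[Q * t] z = z := by
    intro t
    rw [Function.iterate_mul]
    exact Function.iterate_fixed (hper z hz) t
  have h2 : q * P % Q = 1 := by
    have := hP
    unfold Nat.ModEq at this
    rw [this]
    exact Nat.mod_eq_of_lt (by omega)
  have h3 : q * P = 1 + Q * (q * P / Q) := by
    have := Nat.mod_add_div (q * P) Q
    omega
  rw [← Function.iterate_mul, h3, Function.iterate_add_apply, h1, Function.iterate_one]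

private theorem i2_period {g : ℂ → ℂ} {q Q : ℕ} (hper : ∀ z ∈ Dsk, g^[Q] z = z) {z : ℂ}
    (hz : z ∈ Dsk) : (g^[q])^[Q] z = z := by
  rw [← Function.iterate_mul, mul_comm, Function.iterate_mul]
  exact Function.iterate_fixed (hper z hz) q

private theorem i2_kiter {k F : ℂ → ℂ} {Q : ℕ} (hF : MapsTo F Dsk Dsk)
    (hk : ∀ z ∈ Dsk, k (F z) = e (1 / Q) * k z) (P : ℕ) {z : ℂ} (hz : z ∈ Dsk) :
    k (F^[P] z) = e ((P : ℝ) * (1 / Q)) * k z := by
  induction P generalizing z with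
  | zero =>
    have : e (((0 : ℕ) : ℝ) * (1 / Q)) = 1 := by
      unfold e
      simp
    rw [this, one_mul]
    rfl
  | succ P ih =>
    rw [Function.iterate_succ_apply, ih (hF hz), hk z hz, ← mul_assoc, ← i2_e_add]
    congr 2
    push_cast
    ring

/-- the limit of the `C^(s+1)` pairs -/
private theorem i2_core (s : ℕ) (hs : 1 ≤ s) (ε : ℝ) (hε : 0 < ε) (Pn : ℤ) (q Q P : ℕ)
    (p : ℤ) (hQ : 2 ≤ Q) (hP : q * P ≡ 1 [MOD Q]) (hPn : (q : ℤ) * Pn = 1 + p * Q)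
    (hcong : (P : ℤ) ≡ Pn [ZMOD Q]) (F F' : ℕ → ℂ → ℂ) (A : ℕ → ℝ) (g g' : ℂ → ℂ)
    (hcl : ∀ n, ClN (F n) (F' n) (A n)) (hirr : ∀ n, Irrational (A n))
    (hA : Tendsto A atTop (𝓝 ((Pn : ℝ) / Q)))
    (hg : ContDiffOn ℝ (s + 1 : ℕ) g Dsk) (hg' : ContDiffOn ℝ (s + 1 : ℕ) g' Dsk)
    (hF : CTo (s + 1) F g) (hF' : CTo (s + 1) F' g')
    (hnear : ∀ n, ∀ z ∈ Dsk,
      ‖fderivWithin ℝ ((F n)^[q]) Dsk z - ContinuousLinearMap.id ℝ ℂ‖ ≤ 1 / 1000) :
    ∃ (n : ℕ) (h h' : ℂ → ℂ), APair ⊤ h h' ∧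
      CNear s ε (fun z => h (F n (h' z))) (fun z => e (A n) * z) ∧
      CNear s ε (F n) (fun z => h' (e (A n) * h z)) := by
  have h0mem : (0 : ℂ) ∈ Dsk := by simp
  have hQ0 : (Q : ℝ) ≠ 0 := by
    have : 0 < Q := by omega
    positivity
  have hone : (1 : ℕ∞) ≤ ((s + 1 : ℕ) : ℕ∞) := by exact_mod_cast (by omega : 1 ≤ s + 1)
  have hd : ∀ n, DPair ((s + 1 : ℕ) : ℕ∞) (F n) (F' n) := fun n =>
    (hcl n).pair.toDPair.of_le le_top
  have hgg : DPair ((s + 1 : ℕ) : ℕ∞) g g' := F_lim (s + 1) F F' g g' hd hg hg' hF hF'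
  -- uniform convergence
  obtain ⟨hu, hud⟩ := F_der F g (fun n => i2_sm (hd n) 1 hone) (i2_sm hgg 1 hone)
    (hF.mono (by omega))
  have hper : ∀ z ∈ Dsk, g^[Q] z = z := D6 F F' A g Pn Q (by omega)
    (fun n => (hcl n).toPsRot) (fun n => (hcl n).rot) hirr hu hA
  have hder : ∀ v : ℂ, fderivWithin ℝ g Dsk 0 v = e ((Pn : ℝ) / Q) * v := by
    intro v
    have h1 := (hud.tendsto_at h0mem)
    have h2 : Tendsto (fun n => fderivWithin ℝ (F n) Dsk 0 v) atTop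
        (𝓝 (fderivWithin ℝ g Dsk 0 v)) :=
      ((ContinuousLinearMap.apply ℝ ℂ v).continuous.tendsto _).comp h1
    have h3 : Tendsto (fun n => fderivWithin ℝ (F n) Dsk 0 v) atTop
        (𝓝 (e ((Pn : ℝ) / Q) * v)) := by
      have h4 : (fun n => fderivWithin ℝ (F n) Dsk 0 v) = fun n => e (A n) * v :=
        funext fun n => (hcl n).der v
      rw [h4]
      exact ((i2_e_cont.tendsto _).comp hA).mul_const v
    exact tendsto_nhds_unique h2 h3
  have hg0 : g 0 = 0 := by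
    have h1 := hu.tendsto_at h0mem
    have h2 : (fun n => F n 0) = fun _ => (0 : ℂ) := funext fun n => (hcl n).zero
    rw [h2] at h1
    exact (tendsto_nhds_unique h1 tendsto_const_nhds)
  have harea : ∀ z ∈ Dsk, (fderivWithin ℝ g Dsk z).det = 1 := by
    intro z hz
    have h1 := hud.tendsto_at hz
    have h2 : Tendsto (fun n => (fderivWithin ℝ (F n) Dsk z).det) atTop
        (𝓝 (fderivWithin ℝ g Dsk z).det) :=
      (ContinuousLinearMap.continuous_det.tendsto _).comp h1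
    have h3 : (fun n => (fderivWithin ℝ (F n) Dsk z).det) = fun _ => (1 : ℝ) :=
      funext fun n => (hcl n).pair.area z hz
    rw [h3] at h2
    exact (tendsto_nhds_unique h2 tendsto_const_nhds)
  have hga : APair ((s + 1 : ℕ) : ℕ∞) g g' := ⟨hgg, harea⟩
  -- the iterate
  have hFq : APair ((s + 1 : ℕ) : ℕ∞) (g^[q]) (g'^[q]) := hga.iterate hone q
  have hFq0 : g^[q] 0 = 0 := Function.iterate_fixed hg0 q
  have hFqd : ∀ v : ℂ, fderivWithin ℝ (g^[q]) Dsk 0 v = e (1 / Q) * v := by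
    intro v
    rw [fderiv_iterate_zero hone hga hg0 hder q v]
    congr 1
    have h1 : ((q : ℝ) * ((Pn : ℝ) / Q)) = 1 / Q + (p : ℤ) := by
      have h2 : (q : ℝ) * Pn = 1 + p * Q := by exact_mod_cast hPn
      field_simp
      linarith
    rw [h1, i2_e_add_int]
  have hFqn : ∀ z ∈ Dsk, ‖fderivWithin ℝ (g^[q]) Dsk z - ContinuousLinearMap.id ℝ ℂ‖
      ≤ 1 / 1000 := by
    intro z hz
    have h1 := hF.iterate hd hgg q
    obtain ⟨-, h2⟩ := F_der (fun n => (F n)^[q]) (g^[q])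
      (fun n => i2_sm (((hcl n).pair.iterate le_top q).toDPair) 1 le_top)
      (i2_sm hFq.toDPair 1 hone) (h1.mono (by omega))
    have h3 := h2.tendsto_at hz
    have h4 := (h3.sub_const (ContinuousLinearMap.id ℝ ℂ)).norm
    exact le_of_tendsto h4 (Eventually.of_forall fun n => hnear n z hz)
  obtain ⟨h, h', hh, hdet, hrot⟩ := G (s + 1) (by omega) Q hQ (g^[q]) (g'^[q]) hFq hFq0 hFqd
    (fun z hz => i2_period hper hz) hFqn
  obtain ⟨k, k', kn, kn', hk, hkF, hkn, hkt, hkt'⟩ := H s hs Q hQ (g^[q]) (g'^[q]) hFq h h' hh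
    hdet hrot
  -- `k g = e (Pn / Q) k`
  have hkg : ∀ z ∈ Dsk, k (g z) = e ((Pn : ℝ) / Q) * k z := by
    intro z hz
    rw [← i2_iter hQ hP hgg.maps hper hz, i2_kiter hFq.maps hkF P hz]
    congr 1
    obtain ⟨t, ht⟩ := hcong.symm.dvd
    have h1 : ((P : ℝ) * (1 / Q)) = (Pn : ℝ) / Q + (t : ℤ) := by
      have h2 : (P : ℝ) - Pn = Q * t := by exact_mod_cast ht
      field_simp
      linarith
    rw [h1, i2_e_add_int]
  have e1 : ∀ z ∈ Dsk, e ((Pn : ℝ) / Q) * z = k (g (k' z)) := by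
    intro z hz
    rw [hkg _ (hk.maps' hz), hk.right z hz]
  have e2 : ∀ z ∈ Dsk, g z = k' (e ((Pn : ℝ) / Q) * k z) := by
    intro z hz
    rw [← hkg z hz, hk.left _ (hgg.maps hz)]
  have hs1 : ((s : ℕ) : ℕ∞) ≤ ((s + 1 : ℕ) : ℕ∞) := by exact_mod_cast Nat.le_succ s
  -- smoothness
  have sF : ∀ n, ContDiffOn ℝ s (F n) Dsk := fun n => i2_sm (hcl n).pair.toDPair s le_top
  have sg : ContDiffOn ℝ s g Dsk := i2_sm hgg s hs1
  have skn : ∀ n, ContDiffOn ℝ s (kn n) Dsk := fun n => i2_sm (hkn n).toDPair s le_top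
  have skn' : ∀ n, ContDiffOn ℝ s (kn' n) Dsk := fun n => i2_sm (hkn n).toDPair.symm s le_top
  have sk : ContDiffOn ℝ s k Dsk := i2_sm hk s le_rfl
  have sk' : ContDiffOn ℝ s k' Dsk := i2_sm hk.symm s le_rfl
  have srot : ∀ a : ℝ, ContDiffOn ℝ s (fun z : ℂ => e a * z) Dsk := fun a =>
    (rot_smooth a s).of_le (by exact_mod_cast le_refl s)
  -- first convergence
  have c1 : CTo s (fun n z => F n (kn' n z)) (fun z => g (k' z)) :=
    F_comp s F kn' g k' sF sg skn' sk' (fun n => (hkn n).maps') hk.maps' (hF.mono (by omega)) hkt'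
  have m1 : ∀ n, MapsTo (fun z => F n (kn' n z)) Dsk Dsk := fun n =>
    (hcl n).pair.maps.comp (hkn n).maps'
  have m1' : MapsTo (fun z => g (k' z)) Dsk Dsk := hgg.maps.comp hk.maps'
  have s1 : ∀ n, ContDiffOn ℝ s (fun z => F n (kn' n z)) Dsk := fun n =>
    (sF n).comp (skn' n) (hkn n).maps'
  have s1' : ContDiffOn ℝ s (fun z => g (k' z)) Dsk := sg.comp sk' hk.maps'
  have c2 : CTo s (fun n z => kn n (F n (kn' n z))) (fun z => k (g (k' z))) :=
    F_comp s kn (fun n z => F n (kn' n z)) k (fun z => g (k' z)) skn sk s1 s1' m1 m1' hkt c1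
  have c3 : CTo s (fun n z => kn n (F n (kn' n z))) (fun z => e ((Pn : ℝ) / Q) * z) :=
    c2.congr (fun _ _ _ => rfl) e1
  have n1 := c3.near (rot_tendsto s A _ hA) (fun n => (skn n).comp (s1 n) (m1 n))
    (fun n => srot _) (srot _) hε
  -- second convergence
  have c4 : CTo s (fun n z => e (A n) * kn n z) (fun z => e ((Pn : ℝ) / Q) * k z) :=
    F_comp s (fun n z => e (A n) * z) kn (fun z => e ((Pn : ℝ) / Q) * z) k (fun n => srot _)
      (srot _) skn sk (fun n => (hkn n).maps) hk.maps (rot_tendsto s A _ hA) hkt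
  have m4 : ∀ n, MapsTo (fun z => e (A n) * kn n z) Dsk Dsk := fun n z hz =>
    i2_rot_maps _ ((hkn n).maps hz)
  have m4' : MapsTo (fun z => e ((Pn : ℝ) / Q) * k z) Dsk Dsk := fun z hz =>
    i2_rot_maps _ (hk.maps hz)
  have s4 : ∀ n, ContDiffOn ℝ s (fun z => e (A n) * kn n z) Dsk := fun n =>
    (srot _).comp (skn n) (hkn n).maps
  have s4' : ContDiffOn ℝ s (fun z => e ((Pn : ℝ) / Q) * k z) Dsk :=
    (srot _).comp sk hk.maps
  have c5 : CTo s (fun n z => kn' n (e (A n) * kn n z))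
      (fun z => k' (e ((Pn : ℝ) / Q) * k z)) :=
    F_comp s kn' (fun n z => e (A n) * kn n z) k' (fun z => e ((Pn : ℝ) / Q) * k z) skn' sk' s4
      s4' m4 m4' hkt' c4
  have c6 : CTo s (fun n z => kn' n (e (A n) * kn n z)) g := c5.congr (fun _ _ _ => rfl) e2
  have n2 := (hF.mono (Nat.le_succ s)).near c6 sF (fun n => (skn' n).comp (s4 n) (m4 n)) sg hε
  obtain ⟨n, h1, h2⟩ := (n1.and n2).exists
  exact ⟨n, kn n, kn' n, hkn n, h1, h2⟩

theorem local_good (s : ℕ) (hs : 1 ≤ s) (ε M : ℝ) (hε : 0 < ε) (p Pn : ℤ) (q Q P : ℕ)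
    (hq : 1 ≤ q) (hQ : 2 ≤ Q) (hP : q * P ≡ 1 [MOD Q]) (hPn : (q : ℤ) * Pn = 1 + p * Q)
    (hcong : (P : ℤ) ≡ Pn [ZMOD Q]) (δ : ℝ)
    (hδ : ∀ (f f' : ℂ → ℂ) (α : ℝ), ClN f f' α → Irrational α → CBd (s + 2) M f →
      CBd (s + 2) M f' → |α - (p : ℝ) / q| < δ →
      ∀ z ∈ Dsk, ‖fderivWithin ℝ (f^[q]) Dsk z - ContinuousLinearMap.id ℝ ℂ‖ ≤ 1 / 1000)
    (hcl : |(Pn : ℝ) / Q - (p : ℝ) / q| < δ) :
    ∃ δ' : ℝ, 0 < δ' ∧ ∀ α : ℝ, Irrational α → |α - (Pn : ℝ) / Q| < δ' → GoodAt s ε M α := by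
  by_contra hcon
  push Not at hcon
  have hpos : ∀ n : ℕ, 0 < min (1 / ((n : ℝ) + 1)) (δ - |(Pn : ℝ) / Q - (p : ℝ) / q|) := by
    intro n
    exact lt_min (by positivity) (by linarith)
  have hseq : ∀ n : ℕ, ∃ (α : ℝ) (f f' : ℂ → ℂ), Irrational α ∧
      |α - (Pn : ℝ) / Q| < min (1 / ((n : ℝ) + 1)) (δ - |(Pn : ℝ) / Q - (p : ℝ) / q|) ∧
      ClN f f' α ∧ CBd (s + 2) M f ∧ CBd (s + 2) M f' ∧
      ∀ h h' : ℂ → ℂ, APair ⊤ h h' → CNear s ε (fun z => h (f (h' z))) (fun z => e α * z) →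
        ¬ CNear s ε f (fun z => h' (e α * h z)) := by
    intro n
    obtain ⟨α, h1, h2, h3⟩ := hcon _ (hpos n)
    unfold GoodAt at h3
    push Not at h3
    obtain ⟨f, f', h4, h5, h6, h7⟩ := h3
    exact ⟨α, f, f', h1, h2, h4, h5, h6, h7⟩
  choose α f f' hirr hα hclN hb hb' hbad using hseq
  have hαt : Tendsto α atTop (𝓝 ((Pn : ℝ) / Q)) := by
    rw [tendsto_iff_dist_tendsto_zero]
    refine squeeze_zero (fun n => dist_nonneg) (fun n => ?_) tendsto_one_div_add_atTop_nhds_zero_nat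
    rw [Real.dist_eq]
    exact (hα n).le.trans (min_le_left _ _)
  have hsm : ∀ n, ContDiffOn ℝ (s + 1 + 1 : ℕ) (f n) Dsk := fun n =>
    i2_sm (hclN n).pair.toDPair _ le_top
  have hsm' : ∀ n, ContDiffOn ℝ (s + 1 + 1 : ℕ) (f' n) Dsk := fun n =>
    i2_sm (hclN n).pair.toDPair.symm _ le_top
  obtain ⟨φ, g, hφ, hg, hgt⟩ := F_cpt (s + 1) M f hsm hb
  obtain ⟨ψ, g', hψ, hg', hgt'⟩ := F_cpt (s + 1) M (fun n => f' (φ n)) (fun n => hsm' _)
    (fun n => hb' _)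
  have hθ : StrictMono fun n => φ (ψ n) := hφ.comp hψ
  obtain ⟨n, h, h', h1, h2, h3⟩ := i2_core s hs ε hε Pn q Q P p hQ hP hPn hcong
    (fun n => f (φ (ψ n))) (fun n => f' (φ (ψ n))) (fun n => α (φ (ψ n))) g g'
    (fun n => hclN _) (fun n => hirr _) (hαt.comp hθ.tendsto_atTop) hg hg'
    (hgt.subseq hψ) hgt' (fun n z hz => by
      refine hδ _ _ _ (hclN _) (hirr _) (hb _) (hb' _) ?_ z hz
      have h4 := (hα (φ (ψ n))).trans_le (min_le_right _ _)
      have h5 := abs_sub_le (α (φ (ψ n))) ((Pn : ℝ) / Q) ((p : ℝ) / q)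
      linarith)
  exact hbad _ h h' h1 h2 h3

end Pool.Agent.H25.PR
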