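import Pool.Agent.H25.PR.I2

/-!
# PR module I3: neighbouring fractions, density (100 lines)

`farey`: `Int.gcd_eq_gcd_ab`-type lemma gives `P0`, `Q0` with `q P0 - p Q0 = 1`; take `Pn = P0 + p t`,
`Q = Q0 + q t` with `t` a large natural number, `Q ≥ 2`; `Pn/Q - p/q = 1/(q Q)` is in `(0, δ)`; `P` = the
nonnegative residue of `Pn` modulo `Q` (`Int.toNat (Pn % Q)`).
`dense_good`: rationals are dense; near `p/q` (`q = r.den`, `p = r.num`) take `δ1` from `near_id` with `m = s + 2`,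
`η = 1/1000`, then `farey` with `δ = min δ1 (distance)`, `local_good`: the ball around `Pn/Q` of radius `δ'` is in
the set, so `Pn/Q` is in the interior.
-/

open Complex Set Metric Topology Filter

namespace Pool.Agent.H25.PR

open Iface

theorem farey (p : ℤ) (q : ℕ) (hq : 1 ≤ q) (hc : Int.gcd p q = 1) (δ : ℝ) (hδ : 0 < δ) :
    ∃ (Pn : ℤ) (Q P : ℕ), 2 ≤ Q ∧ (q : ℤ) * Pn = 1 + p * Q ∧ q * P ≡ 1 [MOD Q] ∧
      (P : ℤ) ≡ Pn [ZMOD Q] ∧ |(Pn : ℝ) / Q - (p : ℝ) / q| < δ := by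
  obtain ⟨a, b, hab⟩ := Int.isCoprime_iff_gcd_eq_one.2 hc
  obtain ⟨t, ht⟩ : ∃ t : ℕ, t = a.natAbs + ⌈1 / δ⌉₊ + 2 := ⟨_, rfl⟩
  have ha : (a : ℤ) ≤ (a.natAbs : ℤ) := Int.le_natAbs
  have hq' : (1 : ℤ) ≤ (q : ℤ) := by exact_mod_cast hq
  have ht0 : (0 : ℤ) ≤ (t : ℤ) := Int.natCast_nonneg _
  have hqt : (t : ℤ) ≤ q * t := by nlinarith
  have hQZ : (⌈1 / δ⌉₊ : ℤ) + 2 ≤ -a + q * t := by
    have ht' : (t : ℤ) = (a.natAbs : ℤ) + (⌈1 / δ⌉₊ : ℤ) + 2 := by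
      rw [ht]; push_cast; ring
    linarith
  obtain ⟨Q, hQ⟩ : ∃ Q : ℕ, (Q : ℤ) = -a + q * t :=
    ⟨(-a + q * t).toNat, Int.toNat_of_nonneg (le_trans (by positivity) hQZ)⟩
  have hQ1 : ⌈1 / δ⌉₊ + 2 ≤ Q := by
    rw [← hQ] at hQZ
    exact_mod_cast hQZ
  have hQ2 : 2 ≤ Q := by omega
  have hQne : (Q : ℤ) ≠ 0 := by
    have : (2 : ℤ) ≤ Q := by exact_mod_cast hQ2
    omega
  have hPn : (q : ℤ) * (b + p * t) = 1 + p * Q := by
    rw [hQ]
    linear_combination hab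
  obtain ⟨P, hP⟩ : ∃ P : ℕ, (P : ℤ) = (b + p * t) % Q :=
    ⟨((b + p * t) % Q).toNat, Int.toNat_of_nonneg (Int.emod_nonneg _ hQne)⟩
  have hcong : (P : ℤ) ≡ b + p * t [ZMOD Q] := by
    rw [hP]
    exact Int.mod_modEq _ _
  refine ⟨b + p * t, Q, P, hQ2, hPn, ?_, hcong, ?_⟩
  · have h1 : ((q * P : ℕ) : ℤ) ≡ ((1 : ℕ) : ℤ) [ZMOD Q] := by
      push_cast
      refine (hcong.mul_left (q : ℤ)).trans ?_
      rw [hPn]
      simp
    exact Int.natCast_modEq_iff.1 h1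
  · have hQr : (0 : ℝ) < (Q : ℝ) := by
      have : 0 < Q := by omega
      exact_mod_cast this
    have hqr : (1 : ℝ) ≤ (q : ℝ) := by exact_mod_cast hq
    have hqr0 : (0 : ℝ) < (q : ℝ) := by linarith
    have h1 : ((b + p * t : ℤ) : ℝ) / Q - (p : ℝ) / q = 1 / (Q * q) := by
      rw [div_sub_div _ _ hQr.ne' hqr0.ne']
      congr 1
      have h2 : (q : ℝ) * ((b + p * t : ℤ) : ℝ) = 1 + p * Q := by exact_mod_cast hPn
      linarith
    rw [h1, abs_of_pos (by positivity)]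
    have h3 : 1 / δ < Q := by
      have h4 : 1 / δ ≤ (⌈1 / δ⌉₊ : ℝ) := Nat.le_ceil _
      have h5 : ((⌈1 / δ⌉₊ : ℝ)) + 2 ≤ Q := by exact_mod_cast hQ1
      linarith
    rw [div_lt_iff₀ (by positivity)]
    rw [div_lt_iff₀ hδ] at h3
    nlinarith [mul_pos hδ hQr]

theorem dense_good (s : ℕ) (hs : 1 ≤ s) (ε M : ℝ) (hε : 0 < ε) :
    Dense (interior {α : ℝ | Irrational α → GoodAt s ε M α}) := by
  rw [Metric.dense_iff]
  intro x r hr
  obtain ⟨y, hy1, hy2⟩ := exists_rat_btwn (show x < x + r / 2 by linarith)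
  have hyd : (y : ℝ) = (y.num : ℝ) / (y.den : ℝ) := Rat.cast_def y
  have hq : 1 ≤ y.den := y.den_pos
  have hc : Int.gcd y.num y.den = 1 := by
    have := y.reduced
    rw [Nat.Coprime] at this
    rw [Int.gcd, Int.natAbs_natCast]
    exact this
  obtain ⟨δ1, hδ1, H⟩ := near_id y.num y.den hq (s + 2) (by omega) M (1 / 1000) (by norm_num)
  obtain ⟨Pn, Q, P, hQ, hPn, hP, hcong, hcl⟩ := farey y.num y.den hq hc (min δ1 (r / 2))
    (lt_min hδ1 (by linarith))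
  obtain ⟨δ', hδ', hgood⟩ := local_good s hs ε M hε y.num Pn y.den Q P hq hQ hP hPn hcong δ1 H
    (hcl.trans_le (min_le_left _ _))
  refine ⟨(Pn : ℝ) / Q, ?_, ?_⟩
  · rw [Metric.mem_ball, Real.dist_eq]
    have h1 : |(Pn : ℝ) / Q - (y : ℝ)| < r / 2 := by
      rw [hyd]
      exact hcl.trans_le (min_le_right _ _)
    rw [abs_lt] at h1 ⊢
    constructor <;> linarith [h1.1, h1.2]
  · rw [mem_interior_iff_mem_nhds, Metric.mem_nhds_iff]
    refine ⟨δ', hδ', fun α hα hirr => ?_⟩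
    rw [Metric.mem_ball, Real.dist_eq] at hα
    exact hgood α hirr hα

end Pool.Agent.H25.PR
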