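import Pool.Agent.H25.PR.I3
import Pool.Agent.H25.PR.E5

/-!
# PR module I4: the theorem (150 lines)

`good_residual`: countable intersection over `s`, `M`, `N` natural (`eventually_countable_forall`,
`residual` contains open dense sets: `residual_of_dense_open`) and `Irrational` (`eventually_residual_irrational`).
`seq_of_good`: for `n` let `s = n + 1`, `ε = 1/(n+1)`, `M` a natural bound (`F_bd`) for the derivatives of `f` and `f'` of
order `≤ n + 3`; choose `h n`, `h' n`; `CTo` from `CNear.mono`.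
`main`: `normalise` gives `h`, `h'`; apply `seq_of_good` to `h f h'`: `kn`, `kn'` with `kn (h f h') kn' → R` and
`kn' R kn → h f h'`. The pair `kn ∘ h`, `h' ∘ kn'`: the first statement is the same function up to
associativity; the second: `h' (kn' R kn) h → h' (h f h') h = f` by `F_comp` twice.
-/

open Complex Set Metric Topology Filter

namespace Pool.Agent.H25.PR

open Iface

theorem good_residual : ∀ᶠ α in residual ℝ, Irrational α ∧
    ∀ s M N : ℕ, GoodAt (s + 1) (1 / (N + 1 : ℝ)) M α := by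
  have h1 : ∀ᶠ α in residual ℝ, ∀ s M N : ℕ,
      α ∈ interior {α : ℝ | Irrational α → GoodAt (s + 1) (1 / (N + 1 : ℝ)) M α} := by
    rw [eventually_countable_forall]
    intro s
    rw [eventually_countable_forall]
    intro M
    rw [eventually_countable_forall]
    intro N
    exact residual_of_dense_open isOpen_interior
      (dense_good (s + 1) (by omega) (1 / (N + 1 : ℝ)) M (by positivity))
  filter_upwards [h1, eventually_residual_irrational] with α h2 h3
  exact ⟨h3, fun s M N => interior_subset (h2 s M N) h3⟩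

theorem seq_of_good {α : ℝ} (hα : ∀ s M N : ℕ, GoodAt (s + 1) (1 / (N + 1 : ℝ)) M α)
    {f f' : ℂ → ℂ} (hf : ClN f f' α) :
    ∃ hn hn' : ℕ → ℂ → ℂ, (∀ n, APair ⊤ (hn n) (hn' n)) ∧
      (∀ s, CTo s (fun n z => hn n (f (hn' n z))) (fun z => e α * z)) ∧
      ∀ s, CTo s (fun n z => hn' n (e α * hn n z)) f := by
  have key : ∀ n : ℕ, ∃ h h' : ℂ → ℂ, APair ⊤ h h' ∧
      CNear (n + 1) (1 / (n + 1 : ℝ)) (fun z => h (f (h' z))) (fun z => e α * z) ∧
      CNear (n + 1) (1 / (n + 1 : ℝ)) f (fun z => h' (e α * h z)) := by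
    intro n
    have hle : (((n + 1 + 2 : ℕ) : ℕ∞) : WithTop ℕ∞) ≤ ((⊤ : ℕ∞) : WithTop ℕ∞) := by
      exact_mod_cast le_top
    obtain ⟨M1, hM1⟩ := F_bd (n + 1 + 2) f (hf.pair.smooth.of_le hle)
    obtain ⟨M2, hM2⟩ := F_bd (n + 1 + 2) f' (hf.pair.smooth'.of_le hle)
    refine hα n (max M1 M2) n f f' hf (hM1.mono le_rfl ?_) (hM2.mono le_rfl ?_)
    · exact_mod_cast le_max_left M1 M2
    · exact_mod_cast le_max_right M1 M2
  choose hn hn' hp h1 h2 using key
  have hev : ∀ s : ℕ, ∀ ε : ℝ, 0 < ε → ∀ᶠ n : ℕ in atTop, s ≤ n + 1 ∧ 1 / (n + 1 : ℝ) ≤ ε := by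
    intro s ε hε
    have h3 := (tendsto_one_div_add_atTop_nhds_zero_nat (𝕜 := ℝ)).eventually_lt_const hε
    filter_upwards [h3, eventually_ge_atTop s] with n h4 h5
    exact ⟨by omega, h4.le⟩
  refine ⟨hn, hn', hp, fun s ε hε => ?_, fun s ε hε => ?_⟩
  · filter_upwards [hev s ε hε] with n h3
    exact (h1 n).mono h3.1 h3.2
  · filter_upwards [hev s ε hε] with n h3
    exact ((h2 n).mono h3.1 h3.2).symm

private theorem I4_norm_e (t : ℝ) : ‖e t‖ = 1 := by
  unfold e
  have : (2 * (Real.pi : ℂ) * t * I) = ((2 * Real.pi * t : ℝ) : ℂ) * I := by push_cast; ring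
  rw [this, Complex.norm_exp_ofReal_mul_I]

private theorem I4_rot_maps (α : ℝ) : MapsTo (fun z : ℂ => e α * z) Dsk Dsk := by
  intro z hz
  have h1 : ‖z‖ ≤ 1 := by simpa using hz
  have h2 : ‖e α * z‖ ≤ 1 := by rw [norm_mul, I4_norm_e, one_mul]; exact h1
  simpa using h2

/-- the theorem -/
theorem main : ∀ᶠ α in residual ℝ, Irrational α ∧
    ∀ f f' : ℂ → ℂ, PsRot f f' → HasRot f α →
      ∃ hn hn' : ℕ → ℂ → ℂ, (∀ n, APair ⊤ (hn n) (hn' n)) ∧
        (∀ s, CTo s (fun n z => hn n (f (hn' n z))) (fun z => e α * z)) ∧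
        ∀ s, CTo s (fun n z => hn' n (e α * hn n z)) f := by
  filter_upwards [good_residual] with α hα
  obtain ⟨hirr, hgood⟩ := hα
  refine ⟨hirr, fun f f' hf hr => ?_⟩
  have hne : (1 : ℕ∞) ≤ ⊤ := le_top
  obtain ⟨h, h', hh, hcl⟩ := normalise f f' α hf hr hirr (D4 f f' α hf hr hirr)
  obtain ⟨kn, kn', hk, h1, h2⟩ := seq_of_good hgood hcl
  refine ⟨fun n z => kn n (h z), fun n z => h' (kn' n z), fun n => (hk n).comp hne hh, ?_, ?_⟩
  · intro s
    exact h1 s
  · intro s
    have hle : ((s : ℕ∞) : WithTop ℕ∞) ≤ ((⊤ : ℕ∞) : WithTop ℕ∞) := by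
      exact_mod_cast le_top
    have hsm : ∀ {n : ℕ}, ContDiffOn ℝ s (fun z => kn' n (e α * kn n z)) Dsk := by
      intro n
      have a1 : ContDiffOn ℝ s (kn n) Dsk := (hk n).smooth.of_le hle
      have a2 : ContDiffOn ℝ s (kn' n) Dsk := (hk n).smooth'.of_le hle
      exact a2.comp (contDiffOn_const.mul a1) ((I4_rot_maps α).comp (hk n).maps)
    have hmp : ∀ n, MapsTo (fun z => kn' n (e α * kn n z)) Dsk Dsk := fun n =>
      (hk n).maps'.comp ((I4_rot_maps α).comp (hk n).maps)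
    have hhs : ContDiffOn ℝ s h Dsk := hh.smooth.of_le hle
    have hhs' : ContDiffOn ℝ s h' Dsk := hh.smooth'.of_le hle
    have hfs : ContDiffOn ℝ s (fun z => h (f (h' z))) Dsk := hcl.pair.smooth.of_le hle
    have hfm : MapsTo (fun z => h (f (h' z))) Dsk Dsk := hcl.pair.maps
    have b1 := F_comp s (fun _ => h') (fun n z => kn' n (e α * kn n z)) h' (fun z => h (f (h' z)))
      (fun _ => hhs') hhs' (fun n => hsm) hfs hmp hfm (CTo.const s h') (h2 s)
    have b2 := F_comp s (fun n z => h' (kn' n (e α * kn n z))) (fun _ => h)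
      (fun z => h' (h (f (h' z)))) h
      (fun n => hhs'.comp hsm (hmp n)) (hhs'.comp hfs hfm) (fun _ => hhs) hhs (fun _ => hh.maps) hh.maps
      b1 (CTo.const s h)
    refine b2.congr (fun n z _ => rfl) (fun z hz => ?_)
    rw [hh.left z hz, hh.left _ (hf.pair.maps hz)]

end Pool.Agent.H25.PR
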