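import Pool.Agent.H25.PR.I4

/-!
# PR module I5: any two pseudo-rotations with the same generic rotation number are conjugate up to
arbitrarily small `C^∞` errors
-/

open Complex Set Metric Topology Filter

namespace Pool.Agent.H25.PR

open Iface

private theorem I5_norm_e (t : ℝ) : ‖e t‖ = 1 := by
  unfold e
  have : (2 * (Real.pi : ℂ) * t * I) = ((2 * Real.pi * t : ℝ) : ℂ) * I := by push_cast; ring
  rw [this, Complex.norm_exp_ofReal_mul_I]

private theorem I5_rot_maps (α : ℝ) : MapsTo (fun z : ℂ => e α * z) Dsk Dsk := by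
  intro z hz
  have h1 : ‖z‖ ≤ 1 := by simpa using hz
  have h2 : ‖e α * z‖ ≤ 1 := by rw [norm_mul, I5_norm_e, one_mul]; exact h1
  simpa using h2

theorem conj_dense {α : ℝ} {f f' g : ℂ → ℂ} (hf : APair ⊤ f f')
    (hg : ContDiffOn ℝ ((⊤ : ℕ∞) : WithTop ℕ∞) g Dsk)
    {hn hn' kn kn' : ℕ → ℂ → ℂ} (hh : ∀ n, APair ⊤ (hn n) (hn' n))
    (hk : ∀ n, APair ⊤ (kn n) (kn' n))
    (h1 : ∀ s, CTo s (fun n z => hn n (f (hn' n z))) (fun z => e α * z))
    (h2 : ∀ s, CTo s (fun n z => kn' n (e α * kn n z)) g) :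
    ∃ ln ln' : ℕ → ℂ → ℂ, (∀ n, APair ⊤ (ln n) (ln' n)) ∧
      ∀ s, CTo s (fun n z => ln n (f (ln' n z))) g := by
  have hne : (1 : ℕ∞) ≤ ⊤ := le_top
  have hle : ∀ s : ℕ, ((s : ℕ∞) : WithTop ℕ∞) ≤ ((⊤ : ℕ∞) : WithTop ℕ∞) := by
    intro s
    exact_mod_cast le_top
  -- smoothness of the conjugates
  have hc1 : ∀ s m, ContDiffOn ℝ (s : ℕ) (fun z => hn m (f (hn' m z))) Dsk := by
    intro s m
    exact ((hh m).smooth.of_le (hle s)).comp
      ((hf.smooth.of_le (hle s)).comp ((hh m).smooth'.of_le (hle s)) (hh m).maps')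
      (hf.maps.comp (hh m).maps')
  have hm1 : ∀ m, MapsTo (fun z => hn m (f (hn' m z))) Dsk Dsk := fun m =>
    (hh m).maps.comp (hf.maps.comp (hh m).maps')
  have hr : ∀ s : ℕ, ContDiffOn ℝ s (fun z : ℂ => e α * z) Dsk := fun s => rot_smooth α s
  have key : ∀ n : ℕ, ∃ m : ℕ, CNear n (1 / (n + 1 : ℝ))
      (fun z => kn' n (hn m (f (hn' m (kn n z))))) (fun z => kn' n (e α * kn n z)) := by
    intro n
    have a1 : ContDiffOn ℝ (n : ℕ) (kn n) Dsk := (hk n).smooth.of_le (hle n)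
    have a2 : ContDiffOn ℝ (n : ℕ) (kn' n) Dsk := (hk n).smooth'.of_le (hle n)
    have b1 := F_comp n (fun m z => hn m (f (hn' m z))) (fun _ => kn n) (fun z => e α * z) (kn n)
      (hc1 n) (hr n) (fun _ => a1) a1 (fun _ => (hk n).maps) (hk n).maps (h1 n) (CTo.const n _)
    have b2 := F_comp n (fun _ => kn' n) (fun m z => hn m (f (hn' m (kn n z)))) (kn' n)
      (fun z => e α * kn n z) (fun _ => a2) a2
      (fun m => (hc1 n m).comp a1 (hk n).maps) ((hr n).comp a1 (hk n).maps)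
      (fun m => (hm1 m).comp (hk n).maps) ((I5_rot_maps α).comp (hk n).maps) (CTo.const n _) b1
    have hpos : (0 : ℝ) < 1 / (n + 1 : ℝ) := by positivity
    exact (b2 _ hpos).exists
  choose m hm using key
  refine ⟨fun n z => kn' n (hn (m n) z), fun n z => hn' (m n) (kn n z),
    fun n => ((hk n).symm hne).comp hne (hh (m n)), ?_⟩
  intro s ε hε
  have ev1 : ∀ᶠ n : ℕ in atTop, s ≤ n := eventually_ge_atTop s
  have ev2 : ∀ᶠ n : ℕ in atTop, 1 / (n + 1 : ℝ) ≤ ε / 2 := by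
    have := tendsto_one_div_add_atTop_nhds_zero_nat (𝕜 := ℝ)
    exact (this.eventually (ge_mem_nhds (half_pos hε)))
  filter_upwards [ev1, ev2, h2 s (ε / 2) (half_pos hε)] with n e1 e2 e3
  have c1 := (hm n).mono e1 e2
  have s1 : ContDiffOn ℝ (s : ℕ) (fun z => kn' n (hn (m n) (f (hn' (m n) (kn n z))))) Dsk :=
    ((hk n).smooth'.of_le (hle s)).comp
      ((hc1 s (m n)).comp ((hk n).smooth.of_le (hle s)) (hk n).maps)
      ((hm1 (m n)).comp (hk n).maps)
  have s2 : ContDiffOn ℝ (s : ℕ) (fun z => kn' n (e α * kn n z)) Dsk :=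
    ((hk n).smooth'.of_le (hle s)).comp
      ((hr s).comp ((hk n).smooth.of_le (hle s)) (hk n).maps)
      ((I5_rot_maps α).comp (hk n).maps)
  have c2 := CNear.trans s1 s2 (hg.of_le (hle s)) c1 e3
  have e4 : ε / 2 + ε / 2 = ε := by ring
  rw [e4] at c2
  exact c2

end Pool.Agent.H25.PR
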