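import Pool.Agent.H25.PR.E3
import Pool.Agent.H70.PR.D13
import Pool.Agent.H44.PF.OutH
import Pool.Agent.H24.PG.OutG

/-!
# PR: interface statements of the parts D, E, F, G, H (each is proved in its part; part I uses
exactly these).
-/

open Complex Set Metric Topology Filter

namespace Pool.Agent.H25.PR.Iface

open Pool.Agent.H25.PR

/-! ## Part D (helper70) -/

/-- D4: the rotation number at `0` is the rotation number of the boundary -/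
theorem D4 (f f' : ℂ → ℂ) (α : ℝ) (hf : PsRot f f') (hr : HasRot f α) (hα : Irrational α) :
    ∃ G : CircleDeg1Lift, Continuous G ∧
      (∀ x : ℝ, fderivWithin ℝ f Dsk 0 (e x) = ‖fderivWithin ℝ f Dsk 0 (e x)‖ * e (G x)) ∧
      CircleDeg1Lift.translationNumber G = α :=
  Pool.Agent.H70.PR.D4 f f' α hf hr hα

/-- D6 -/
theorem D6 (fn fn' : ℕ → ℂ → ℂ) (αn : ℕ → ℝ) (g : ℂ → ℂ) (p : ℤ) (q : ℕ) (hq : 1 ≤ q)
    (hf : ∀ n, PsRot (fn n) (fn' n)) (hr : ∀ n, HasRot (fn n) (αn n))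
    (hα : ∀ n, Irrational (αn n))
    (hlim : TendstoUniformlyOn fn g atTop Dsk)
    (hα' : Tendsto αn atTop (𝓝 ((p : ℝ) / q))) :
    ∀ z ∈ Dsk, g^[q] z = z :=
  Pool.Agent.H70.PR.D6 fn fn' αn g p q hq hf hr hα hlim hα'

/-! ## Part E (helper25) -/

theorem E (P : ℂ →L[ℝ] ℂ) (hP : P.det = 1) :
    ∃ h h' : ℂ → ℂ, APair ⊤ h h' ∧ h 0 = 0 ∧ fderivWithin ℝ h Dsk 0 = P ∧
      ∀ z, 3 / 4 ≤ ‖z‖ → h z = z := by
  obtain ⟨h, h', h1, h2, h3, h4, -⟩ := realise P hP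
  exact ⟨h, h', h1, h2, h3, h4⟩

/-! ## Part F (helper44) -/

/-- composition -/
theorem F_comp (s : ℕ) (fn gn : ℕ → ℂ → ℂ) (f g : ℂ → ℂ)
    (hfn : ∀ n, ContDiffOn ℝ s (fn n) Dsk) (hf : ContDiffOn ℝ s f Dsk)
    (hgn : ∀ n, ContDiffOn ℝ s (gn n) Dsk) (hg : ContDiffOn ℝ s g Dsk)
    (hm : ∀ n, MapsTo (gn n) Dsk Dsk) (hm' : MapsTo g Dsk Dsk)
    (h1 : CTo s fn f) (h2 : CTo s gn g) :
    CTo s (fun n z => fn n (gn n z)) (fun z => f (g z)) :=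
  Pool.H44.PF.F_comp s fn gn f g hfn hf hgn hg hm hm' h1 h2

/-- compactness -/
theorem F_cpt (s : ℕ) (M : ℝ) (fn : ℕ → ℂ → ℂ) (hfn : ∀ n, ContDiffOn ℝ (s + 1 : ℕ) (fn n) Dsk)
    (hb : ∀ n, CBd (s + 1) M (fn n)) :
    ∃ (φ : ℕ → ℕ) (g : ℂ → ℂ), StrictMono φ ∧ ContDiffOn ℝ s g Dsk ∧
      CTo s (fun n => fn (φ n)) g :=
  Pool.H44.PF.F_cpt s M fn hfn hb

/-- bounds for a smooth map -/
theorem F_bd (s : ℕ) (f : ℂ → ℂ) (hf : ContDiffOn ℝ s f Dsk) : ∃ M : ℕ, CBd s M f :=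
  Pool.H44.PF.F_bd s f hf

/-- limits of pairs are pairs -/
theorem F_lim (s : ℕ) (fn fn' : ℕ → ℂ → ℂ) (f f' : ℂ → ℂ) (hp : ∀ n, DPair s (fn n) (fn' n))
    (hf : ContDiffOn ℝ s f Dsk) (hf' : ContDiffOn ℝ s f' Dsk)
    (h1 : CTo s fn f) (h2 : CTo s fn' f') : DPair s f f' :=
  Pool.H44.PF.F_lim s fn fn' f f' hp hf hf' h1 h2

/-- the derivative converges uniformly -/
theorem F_der (fn : ℕ → ℂ → ℂ) (f : ℂ → ℂ)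
    (hfn : ∀ n, ContDiffOn ℝ 1 (fn n) Dsk) (hf : ContDiffOn ℝ 1 f Dsk) (h1 : CTo 1 fn f) :
    TendstoUniformlyOn fn f atTop Dsk ∧
    TendstoUniformlyOn (fun n => fderivWithin ℝ (fn n) Dsk) (fderivWithin ℝ f Dsk) atTop Dsk :=
  Pool.H44.PF.F_der fn f hfn hf h1

/-! ## Part G (helper24) -/

theorem G (m : ℕ) (hm : 2 ≤ m) (Q : ℕ) (hQ : 2 ≤ Q) (F F' : ℂ → ℂ) (hF : APair m F F')
    (h0 : F 0 = 0) (hD : ∀ v : ℂ, fderivWithin ℝ F Dsk 0 v = e (1 / Q) * v)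
    (hper : ∀ z ∈ Dsk, F^[Q] z = z)
    (hcl : ∀ z ∈ Dsk, ‖fderivWithin ℝ F Dsk z - ContinuousLinearMap.id ℝ ℂ‖ ≤ 1 / 1000) :
    ∃ h h' : ℂ → ℂ, DPair m h h' ∧ (∀ z ∈ Dsk, 0 < (fderivWithin ℝ h Dsk z).det) ∧
      ∀ z ∈ Dsk, h (F z) = e (1 / Q) * h z :=
  Pool.Agent.H24.PG.G m hm Q hQ F F' hF h0 hD hper hcl

/-! ## Part H (helper44) -/

theorem H (m : ℕ) (hm : 1 ≤ m) (Q : ℕ) (hQ : 2 ≤ Q) (F F' : ℂ → ℂ) (hF : APair (m + 1 : ℕ) F F')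
    (h h' : ℂ → ℂ) (hh : DPair (m + 1 : ℕ) h h')
    (hdet : ∀ z ∈ Dsk, 0 < (fderivWithin ℝ h Dsk z).det)
    (hR : ∀ z ∈ Dsk, h (F z) = e (1 / Q) * h z) :
    ∃ (k k' : ℂ → ℂ) (kn kn' : ℕ → ℂ → ℂ), DPair m k k' ∧
      (∀ z ∈ Dsk, k (F z) = e (1 / Q) * k z) ∧ (∀ n, APair ⊤ (kn n) (kn' n)) ∧
      CTo m kn k ∧ CTo m kn' k' :=
  Pool.H44.PF.out_H m hm Q hQ F F' hF h h' hh hdet hR

end Pool.Agent.H25.PR.Iface
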